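import Mathlib
import Pool.Agent.Lib.MP_1818ed_co.Defs3

/-!
# Hat guessing number versus chromatic number: graphs with `χ(G) ≥ (14/25) n` (MP_1818ed_co)

Definitions and basic (proved) lemmas on colourings of vertex sets. Statements: `C56/Spec.lean`.
-/

set_option autoImplicit false

namespace Pool.Agent.Lib.MP_1818ed_co

open Finset

/-- `G` has a proper colouring of the vertex set `T` with at most `n` colours. -/
def Col {V : Type} (G : SimpleGraph V) (T : Finset V) (n : ℕ) : Prop :=
  ∃ c : V → ℕ, (T.image c).card ≤ n ∧ ∀ u ∈ T, ∀ v ∈ T, G.Adj u v → c u ≠ c v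

/-- `H` has a perfect matching on the vertex set `T`; `f` maps a vertex to its partner. -/
def PMatch {V : Type} (H : SimpleGraph V) (T : Finset V) : Prop :=
  ∃ f : V → V, ∀ v ∈ T, f v ∈ T ∧ f (f v) = v ∧ H.Adj v (f v)

/-- `P` is a partition of `T` into nonempty parts, no `H`-edges between different parts. -/
def PartN {V : Type} (H : SimpleGraph V) (T : Finset V) (P : Finset (Finset V)) : Prop :=
  (∀ D ∈ P, D.Nonempty) ∧ (∀ v, v ∈ T ↔ ∃ D ∈ P, v ∈ D) ∧
    (∀ D ∈ P, ∀ E ∈ P, D ≠ E → ∀ v ∈ D, ∀ w ∈ E, v ≠ w ∧ ¬ H.Adj v w)

open Classical in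
/-- the residues modulo `σ` which are not the colour of a vertex outside `S` -/
noncomputable def badRes {X : Type} [Fintype X] (S : Finset X) (q σ : ℕ) [NeZero σ]
    (y : X → ZMod q) : Finset (ZMod σ) :=
  univ.filter (fun r => ∀ w, w ∉ S → (y w).val ≠ r.val)

theorem col_mono {V : Type} {G : SimpleGraph V} {T : Finset V} {n m : ℕ} (h : Col G T n)
    (hnm : n ≤ m) : Col G T m := by
  obtain ⟨c, h1, h2⟩ := h
  exact ⟨c, h1.trans hnm, h2⟩

theorem col_sub {V : Type} {G : SimpleGraph V} {S T : Finset V} {n : ℕ} (h : Col G T n)
    (hST : S ⊆ T) : Col G S n := by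
  obtain ⟨c, h1, h2⟩ := h
  exact ⟨c, (Finset.card_le_card (Finset.image_subset_image hST)).trans h1,
    fun u hu v hv => h2 u (hST hu) v (hST hv)⟩

theorem col_empty {V : Type} (G : SimpleGraph V) (n : ℕ) : Col G ∅ n :=
  ⟨fun _ => 0, by simp, by simp⟩

theorem col_single {V : Type} (G : SimpleGraph V) (v : V) : Col G {v} 1 := by
  refine ⟨fun _ => 0, by simp, ?_⟩
  intro a ha b hb hab
  rw [Finset.mem_singleton] at ha hb
  subst ha; subst hb
  exact absurd hab (G.irrefl)

open Classical in
/-- colour classes may be put together -/
theorem col_union {V : Type} {G : SimpleGraph V} {S T : Finset V} {a b : ℕ} (hS : Col G S a)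
    (hT : Col G T b) : Col G (S ∪ T) (a + b) := by
  obtain ⟨c, c1, c2⟩ := hS
  obtain ⟨e, e1, e2⟩ := hT
  refine ⟨fun v => if v ∈ S then 2 * c v else 2 * e v + 1, ?_, ?_⟩
  · have h1 : (S ∪ T).image (fun v => if v ∈ S then 2 * c v else 2 * e v + 1) ⊆
        (S.image c).image (fun k => 2 * k) ∪ (T.image e).image (fun k => 2 * k + 1) := by
      intro k hk
      rw [Finset.mem_image] at hk
      obtain ⟨v, hv, hk⟩ := hk
      by_cases hvS : v ∈ S
      · rw [if_pos hvS] at hk
        exact Finset.mem_union_left _ (Finset.mem_image.2 ⟨c v, Finset.mem_image_of_mem c hvS, hk⟩)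
      · rw [if_neg hvS] at hk
        have hvT : v ∈ T := (Finset.mem_union.1 hv).resolve_left hvS
        exact Finset.mem_union_right _ (Finset.mem_image.2 ⟨e v, Finset.mem_image_of_mem e hvT, hk⟩)
    refine (Finset.card_le_card h1).trans ((Finset.card_union_le _ _).trans ?_)
    exact Nat.add_le_add (Finset.card_image_le.trans c1) (Finset.card_image_le.trans e1)
  · intro u hu v hv huv
    by_cases h1 : u ∈ S
    · by_cases h2 : v ∈ S
      · simp only [h1, h2, if_true]
        have := c2 u h1 v h2 huv
        omega
      · simp only [h1, h2, if_true, if_false]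
        omega
    · by_cases h2 : v ∈ S
      · simp only [h1, h2, if_true, if_false]
        omega
      · simp only [h1, h2, if_false]
        have := e2 u ((Finset.mem_union.1 hu).resolve_left h1) v
          ((Finset.mem_union.1 hv).resolve_left h2) huv
        omega

open Classical in
theorem col_insert {V : Type} {G : SimpleGraph V} {T : Finset V} {b : ℕ} (v : V)
    (hT : Col G T b) : Col G (insert v T) (b + 1) := by
  have h := col_union (col_single G v) hT
  rw [add_comm] at h
  rw [Finset.insert_eq v T]
  exact h

open Classical in
theorem col_biUnion {V : Type} {G : SimpleGraph V} {ι : Type} (P : Finset ι) (D : ι → Finset V)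
    (k : ι → ℕ) (h : ∀ i ∈ P, Col G (D i) (k i)) : Col G (P.biUnion D) (∑ i ∈ P, k i) := by
  induction P using Finset.induction_on with
  | empty => rw [Finset.biUnion_empty]; exact col_empty G _
  | insert a s ha ih =>
    rw [Finset.biUnion_insert, Finset.sum_insert ha]
    have h1 := col_union (h a (Finset.mem_insert_self a s))
      (ih fun i hi => h i (Finset.mem_insert_of_mem hi))
    convert h1 using 2

/-- a perfect matching of the complement gives a colouring with classes of two elements -/
theorem col_match {V : Type} (G : SimpleGraph V) :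
    ∀ (n : ℕ) (T : Finset V), T.card = n → PMatch Gᶜ T → Even T.card ∧ Col G T (T.card / 2) := by
  classical
  intro n
  induction n using Nat.strong_induction_on with
  | _ n ih =>
    intro T hn hT
    rcases T.eq_empty_or_nonempty with h0 | ⟨v, hv⟩
    · rw [h0]; exact ⟨by simp, col_empty G _⟩
    · obtain ⟨f, hf⟩ := hT
      obtain ⟨hfv, hffv, hadj⟩ := hf v hv
      have hne : v ≠ f v := hadj.ne
      have hc : ((T.erase v).erase (f v)).card + 2 = T.card := by
        have h1 : f v ∈ T.erase v := Finset.mem_erase.2 ⟨hne.symm, hfv⟩
        have h2 := Finset.card_erase_add_one h1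
        have h3 := Finset.card_erase_add_one hv
        omega
      have h1 : PMatch Gᶜ ((T.erase v).erase (f v)) := by
        refine ⟨f, fun w hw => ?_⟩
        rw [Finset.mem_erase, Finset.mem_erase] at hw
        obtain ⟨h2, h3, h4⟩ := hf w hw.2.2
        refine ⟨?_, h3, h4⟩
        rw [Finset.mem_erase, Finset.mem_erase]
        refine ⟨?_, ?_, h2⟩
        · intro h5
          apply hw.2.1
          rw [← h3, h5, hffv]
        · intro h5
          apply hw.1
          rw [← h3, h5]
      obtain ⟨e1, e2⟩ := ih ((T.erase v).erase (f v)).card (by omega) _ rfl h1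
      constructor
      · rw [← hc]; exact e1.add (by norm_num)
      · have h2 : Col G ({v, f v} : Finset V) 1 := by
          refine ⟨fun _ => 0, ?_, ?_⟩
          · exact Finset.card_le_one.2 (by simp)
          · intro a ha b hb hab
            exfalso
            rw [Finset.mem_insert, Finset.mem_singleton] at ha hb
            rw [SimpleGraph.compl_adj] at hadj
            rcases ha with rfl | rfl <;> rcases hb with rfl | rfl
            · exact G.irrefl hab
            · exact hadj.2 hab
            · exact hadj.2 hab.symm
            · exact G.irrefl hab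
        have h3 := col_union h2 e2
        have h4 : ({v, f v} : Finset V) ∪ (T.erase v).erase (f v) = T := by
          ext w
          simp only [Finset.mem_union, Finset.mem_insert, Finset.mem_singleton, Finset.mem_erase]
          constructor
          · rintro ((rfl | rfl) | h)
            · exact hv
            · exact hfv
            · exact h.2.2
          · intro hw
            by_cases h5 : w = v
            · exact Or.inl (Or.inl h5)
            · by_cases h6 : w = f v
              · exact Or.inl (Or.inr h6)
              · exact Or.inr ⟨h6, h5, hw⟩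
        have h5 : Col G T (1 + ((T.erase v).erase (f v)).card / 2) := by
          convert h3 using 1
          exact h4.symm
        refine col_mono h5 ?_
        omega

open Classical in
/-- a part with an odd number of vertices, one vertex of the matching partner `d` may be shared with
a vertex `a` which is not adjacent to `d` -/
theorem col_near {V : Type} {G : SimpleGraph V} {D : Finset V} {d : V} (hd : d ∈ D)
    (hD : PMatch Gᶜ (D.erase d)) : Odd D.card ∧ Col G D ((D.card + 1) / 2) ∧
      ∀ a, ¬ G.Adj a d → Col G (insert a D) ((D.card + 1) / 2) := by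
  obtain ⟨h1, h2⟩ := col_match G _ _ rfl hD
  have h3 := Finset.card_erase_add_one hd
  have hodd : Odd D.card := by rw [← h3]; exact h1.add_one
  have key : ∀ a, ¬ G.Adj a d → Col G (insert a D) ((D.card + 1) / 2) := by
    intro a ha
    have h4 : Col G ({a, d} : Finset V) 1 := by
      refine ⟨fun _ => 0, Finset.card_le_one.2 (by simp), ?_⟩
      intro x hx y hy hxy
      exfalso
      rw [Finset.mem_insert, Finset.mem_singleton] at hx hy
      rcases hx with rfl | rfl <;> rcases hy with rfl | rfl
      · exact G.irrefl hxy
      · exact ha hxy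
      · exact ha hxy.symm
      · exact G.irrefl hxy
    have h5 := col_union h4 h2
    have h6 : ({a, d} : Finset V) ∪ D.erase d = insert a D := by
      ext w
      simp only [Finset.mem_union, Finset.mem_insert, Finset.mem_singleton, Finset.mem_erase]
      constructor
      · rintro ((rfl | rfl) | h)
        · exact Or.inl rfl
        · exact Or.inr hd
        · exact Or.inr h.2
      · rintro (h | h)
        · exact Or.inl (Or.inl h)
        · by_cases h7 : w = d
          · exact Or.inl (Or.inr h7)
          · exact Or.inr ⟨h7, h⟩
    have h7 : Col G (insert a D) (1 + (D.erase d).card / 2) := by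
      convert h5 using 1
      exact h6.symm
    refine col_mono h7 ?_
    obtain ⟨k, hk⟩ := h1
    omega
  refine ⟨hodd, col_sub (key d G.irrefl) (Finset.subset_insert _ _), key⟩

theorem col_univ {V : Type} [Fintype V] (G : SimpleGraph V) (n : ℕ) :
    Col G univ n ↔ G.Colorable n := by
  classical
  constructor
  · rintro ⟨c, c1, c2⟩
    have e : (univ.image c) ↪ Fin n := by
      refine (Function.Embedding.nonempty_of_card_le ?_).some
      rw [Fintype.card_coe, Fintype.card_fin]
      exact c1
    refine ⟨SimpleGraph.Coloring.mk
      (fun v => e ⟨c v, Finset.mem_image_of_mem c (Finset.mem_univ v)⟩) ?_⟩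
    intro u v huv h
    have h1 := e.injective h
    exact c2 u (Finset.mem_univ u) v (Finset.mem_univ v) huv (congrArg Subtype.val h1)
  · rintro ⟨C⟩
    refine ⟨fun v => (C v : ℕ), ?_, ?_⟩
    · have h1 : univ.image (fun v => (C v : ℕ)) ⊆ Finset.range n := by
        intro k hk
        obtain ⟨v, _, rfl⟩ := Finset.mem_image.1 hk
        exact Finset.mem_range.2 (C v).2
      exact (Finset.card_le_card h1).trans (by rw [Finset.card_range])
    · intro u _ v _ huv h
      exact C.valid huv (Fin.ext h)

end Pool.Agent.Lib.MP_1818ed_co
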