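import Mathlib
import Pool.Agent.Lib.MP_1818ed_co.C56.Defs

/-!
# Hat guessing number versus chromatic number: graphs with `χ(G) ≥ (14/25) n` (MP_1818ed_co)

All statements (`...Stmt : Prop`) of the proof of:

THEOREM (`Main56Stmt`). There is `n₀` such that every graph on `n ≥ n₀` vertices with
`χ(G) ≥ (14/25) n` satisfies `χ(G) ≤ HG(G)`.

Outline. (1) A graph that is not `r`-colourable contains disjoint sets `U, S, W`, every `u ∈ U`
adjacent to everything in `U ∪ S ∪ W`, `S` completely joined to `W`, few non-neighbours inside `S`,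
and `r + 1 = |U| + aS + aL` with `5 aS ≤ 3 |S|`, `2 aL ≤ (1 + 1/L) |W|` (`DecompStmt`, from
Gallai's theorem on critical graphs with connected complement, `GallaiStmt`).
(2) Covering lemma (`CovStmt`): `S ∪ W` has a strategy with `q` colours which fails only for a fraction
`(exp (-|W|/q) - |S|/q)^+ + ε` of the colourings. (3) Book strategy (`Bk2Stmt`): if a partial strategy
on `S ∪ W` succeeds with probability more than `a / q`, `q = |U| + a`, then `U ∪ S ∪ W` wins.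
(4) Numbers.

Every module proves one `...Stmt`, possibly from other `...Stmt`s given as hypotheses, e.g.
`theorem bar (h : TutStmt) : BarStmt`. The complete proof of each statement is in its docstring.
`Win`, `Good`, `ColorsStmt`, `GraphStmt`, `HelperStmt`, `DenseStmt`: `Defs.lean`; `Spine`,
`OrientStmt`, `VecStmt`, `BookStmt`: `Defs2.lean`; `greedy`, `GreedyProbStmt`: `Defs3.lean`;
`Col`, `PMatch`, `PartN`, `badRes` and lemmas `col_...`: `C56/Defs.lean`.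
-/

set_option autoImplicit false

namespace Pool.Agent.Lib.MP_1818ed_co

open Finset

/-! ## Graph theory -/

open Classical in
/-- TUTTE'S THEOREM for the graph induced on `T`, in terms of partitions.

PROOF. Let `K = H.induce {v | v ∈ T}` (vertex type `{v // v ∈ T}`). `SimpleGraph.tutte` (Mathlib):
if `K` has a perfect matching `M` (a subgraph), let `f v` be the partner of `v` for `v ∈ T`
(`M.IsPerfectMatching` gives for every vertex exactly one `M`-neighbour), and anything for `v ∉ T`;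
this is `PMatch H T`. Otherwise there is `u : Set {v // v ∈ T}` with `K.IsTutteViolator u`, i.e.
`u.ncard < C.oddComponents.ncard`, `C = ((⊤ : K.Subgraph).deleteVerts u).coe`. Let `B` be the image of
`u` in `V` and `P` the finite set of the images in `V` of the supports of the connected components of
`C`. The map component -> image of the support is injective (supports of different components are
disjoint and nonempty), the number of elements is preserved, so the odd components give odd parts: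
`B.card = u.ncard < #odd components ≤ #odd parts`. `PartN H (T \ B) P`: a vertex `v ∈ T \ B` is a
vertex of `C` and lies in the support of its component; two vertices of `T \ B` which are adjacent in
`H` are adjacent in `C`, hence in the same component. -/
def TutStmt : Prop :=
  ∀ (V : Type) [Fintype V] (H : SimpleGraph V) (T : Finset V),
    PMatch H T ∨ ∃ (B : Finset V) (P : Finset (Finset V)), B ⊆ T ∧ PartN H (T \ B) P ∧
      B.card < (P.filter (fun D => Odd D.card)).card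

open Classical in
/-- THE BARRIER.

PROOF (from Tut). A pair `(A, P)` is admissible if `A ⊆ T`, `PartN H (T \ A) P`. Write `N = |T|`,
`odd P = #{D ∈ P : |D| odd}` (`≤ N`, as the parts are disjoint and nonempty),
`Φ(A, P) = (odd P + N - |A|) (N + 1) + |A|`. There are finitely many pairs and at least one
(`A = ∅`, `P = {T}` if `T` is nonempty, `P = ∅` if `T = ∅`); choose one with `Φ` maximal. As
`Φ ≥ N (N + 1)` (the value for the pair with `A = ∅`) and `|A| ≤ N`, `|A| ≤ odd P ≤ |P|`.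
Let `D ∈ P`, `d ∈ D`, and suppose `¬ PMatch H (D.erase d)`.
(i) `|D|` even: replace `A` by `insert d A` and `D` by `D.erase d` (nonempty, odd); `odd` and `|A|`
grow by `1`: `Φ` grows by `1`, contradiction.
(ii) `|D|` odd: by `Tut` for `T := D.erase d` there are `B ⊆ D.erase d` and a partition `Q` of
`D.erase d \ B` with `|B| < odd Q`. Parity: `|D| - 1 = |B| + Σ_{E ∈ Q} |E| ≡ |B| + odd Q` modulo `2`
is even, so `odd Q ≥ |B| + 2`. Replace `A` by `A' = insert d A ∪ B`, `P` by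
`P' = (P.erase D) ∪ Q`: `|A'| = |A| + 1 + |B|`, `odd P' = odd P - 1 + odd Q ≥ odd P + 1 + |B|`
(`Q` is disjoint from `P.erase D`, as its members are nonempty subsets of `D`). So
`Φ(A', P') ≥ Φ(A, P) + 1 + |B|`, contradiction. (`PartN` for `P'`: parts `E ⊆ D` and `F ∈ P.erase D`
have no edges between them because `D` and `F` have none.) -/
def BarStmt : Prop :=
  ∀ (V : Type) [Fintype V] (H : SimpleGraph V) (T : Finset V),
    ∃ (A : Finset V) (P : Finset (Finset V)), A ⊆ T ∧ PartN H (T \ A) P ∧ A.card ≤ P.card ∧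
      ∀ D ∈ P, ∀ d ∈ D, PMatch H (D.erase d)

open Classical in
/-- HALL'S THEOREM with a minimal violator.

PROOF. If `|Z| ≤ |⋃_{D ∈ Z} N D|` for all `Z ⊆ P` use Hall's theorem
(`Finset.all_card_le_biUnion_card_iff_exists_injective` for the index type `{D // D ∈ P}`). Otherwise
let `Y ⊆ P` have minimal cardinality with `|⋃_Y N| < |Y|`. `Y` is nonempty, `D₀ ∈ Y`. All
`Z ⊆ Y \ {D₀}` satisfy `|Z| ≤ |⋃_Z N|`, so there is an injective `γ` on `Y \ {D₀}` with `γ D ∈ N D`.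
Its image is contained in `⋃_Y N`, which has at most `|Y| - 1 = |Y \ {D₀}|` elements; so `γ` is onto
`⋃_Y N`, and `g` is the inverse. -/
def HallStmt : Prop :=
  ∀ (α β : Type) (P : Finset α) (N : α → Finset β), Nonempty β →
    (∃ γ : α → β, (∀ D ∈ P, γ D ∈ N D) ∧ ∀ D ∈ P, ∀ E ∈ P, γ D = γ E → D = E) ∨
    (∃ Y : Finset α, Y ⊆ P ∧ Y.Nonempty ∧ ∃ g : β → α,
      (∀ b ∈ Y.biUnion N, g b ∈ Y ∧ b ∈ N (g b)) ∧
      ∀ b ∈ Y.biUnion N, ∀ b' ∈ Y.biUnion N, g b = g b' → b = b')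

open Classical in
/-- COLOURING WITH THE MATCHINGS.

PROOF. For `D ∈ Y` let `D' = insert b D` if `D = g b` for some `b ∈ B` (`b` is unique) and `D' = D`
otherwise. `Col G D' ((|D| + 1)/2)` by `col_near` (`C56/Defs.lean`; in the first case with the
`d ∈ D` which is not adjacent to `b`, in the second case with any `d ∈ D`). `col_biUnion` gives a
colouring of `⋃ D'` with `Σ_{D ∈ Y} (|D| + 1)/2` colours and `B ∪ ⋃_Y D ⊆ ⋃ D'` (`col_sub`), because
`b ∈ (g b)'` for `b ∈ B`. -/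
def MatchColStmt : Prop :=
  ∀ (V : Type) [Fintype V] (G : SimpleGraph V) (Y : Finset (Finset V)) (B : Finset V)
    (g : V → Finset V), (∀ D ∈ Y, D.Nonempty) →
    (∀ D ∈ Y, ∀ d ∈ D, PMatch Gᶜ (D.erase d)) →
    (∀ b ∈ B, g b ∈ Y ∧ ∃ d ∈ g b, ¬ G.Adj b d) →
    (∀ b ∈ B, ∀ b' ∈ B, g b = g b' → b = b') →
    Col G (B ∪ Y.biUnion id) (∑ D ∈ Y, (D.card + 1) / 2)

open Classical in
/-- COLOURS OF COMPLETELY JOINED PARTS. The members of `Y` are disjoint subsets of `S`, completely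
joined to the rest of `S`; `G[D]` needs at least `k D` colours.

PROOF. Let `c` be the colouring of `S`, `|c(S)| ≤ r`. The sets `c(D)`, `D ∈ Y`, and
`c(S \ ⋃ Y)` are pairwise disjoint subsets of `c(S)`: if `v ∈ D`, `w ∈ S \ D`, then `v, w` are
adjacent and `c v ≠ c w`. `c` restricted to `D` shows `Col G D |c(D)|`, so `k D ≤ |c(D)|`. Take
`s = |c(S \ ⋃ Y)|`: `s + Σ k D ≤ s + Σ |c(D)| ≤ |c(S)| ≤ r`. -/
def JoinColStmt : Prop :=
  ∀ (V : Type) [Fintype V] (G : SimpleGraph V) (S : Finset V) (Y : Finset (Finset V))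
    (k : Finset V → ℕ) (r : ℕ), (∀ D ∈ Y, D ⊆ S) →
    (∀ D ∈ Y, ∀ v ∈ D, ∀ w ∈ S, w ∉ D → G.Adj v w) →
    (∀ D ∈ Y, ∀ E ∈ Y, D ≠ E → Disjoint D E) →
    (∀ D ∈ Y, ∀ j, Col G D j → k D ≤ j) → Col G S r →
    ∃ s, s + ∑ D ∈ Y, k D ≤ r ∧ Col G (S \ Y.biUnion id) s

open Classical in
/-- GALLAI'S THEOREM.

PROOF (from Bar, Hall, MatchCol, JoinCol). `T` is nonempty (`col_empty`). Suppose `|T| ≤ 2 r`. Let `A, P` be from `Bar` for `H = Gᶜ`;
the parts `D` have an odd number of elements and `Col G D ((|D|+1)/2)` (`col_near`). A part `D ∈ P` is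
tight if `¬ Col G D ((|D| - 1)/2)`. Let `N D = {a ∈ A : ∃ d ∈ D, ¬ G.Adj a d}`. Different parts are
completely joined in `G`, and `D` is completely joined to `A \ N D`. Apply `Hall` to the set `Pt` of
the tight parts and `N`.
CASE 1: `γ` injective on `Pt` with `γ D ∈ N D`. Cover `T`: by `MatchCol` with `Y = Pt`, `B = γ(Pt)`,
`g` = inverse of `γ`: `Col G (γ(Pt) ∪ ⋃ Pt) (Σ_{Pt} (|D|+1)/2)`. The other parts have
`Col G D ((|D|-1)/2)` (`col_biUnion`), the elements of `A \ γ(Pt)` get one colour each (`col_biUnion`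
with singletons), in total (`col_union`) the number of colours is
`Σ_{Pt} (|D|+1)/2 + Σ_{P \ Pt} (|D|-1)/2 + |A| - |Pt|`. Twice this number is
`Σ_P |D| + |Pt| - |P \ Pt| + 2|A| - 2|Pt| = (|T| - |A|) - |P| + 2 |A| = |T| + |A| - |P| ≤ |T| ≤ 2 r`.
So `Col G T r`: contradiction.
CASE 2: `Y ⊆ Pt` nonempty, `B = ⋃_{D ∈ Y} N D`, `g` as in `Hall`. By `MatchCol`
`Col G (B ∪ ⋃ Y) k`, `k = Σ_Y (|D|+1)/2`.
If `B ≠ ∅`, `b₀ ∈ B`: `T \ B ⊆ T.erase b₀`, so `Col G (T \ B) r`. `JoinCol` with `S = T \ B`,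
`k D = (|D|+1)/2` (`D` is tight and `|D|` is odd: `Col G D j` implies `j > (|D|-1)/2`, by `col_mono`;
`D` is completely joined to `T \ B \ D`, because `D` is completely joined to the other parts and to
`A \ N D ⊇ A \ B`) gives `s + k ≤ r` and `Col G ((T \ B) \ ⋃ Y) s`. With `col_union`
`Col G T (s + k)`, contradiction.
If `B = ∅` choose `D ∈ Y`: `D` is completely joined to `T \ D`. `T \ D` is empty by the first
hypothesis (`X = D`, `Y = T \ D`), so `T = D`, `|T|` is odd, `|T| ≤ 2 r - 1` and `Col G T ((|T|+1)/2)`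
gives `Col G T r`: contradiction. -/
def GallaiStmt : Prop :=
  ∀ (V : Type) [Fintype V] (G : SimpleGraph V) (T : Finset V) (r : ℕ),
    (∀ X Y : Finset V, X.Nonempty → Y.Nonempty → Disjoint X Y → X ∪ Y = T →
      ∃ x ∈ X, ∃ y ∈ Y, ¬ G.Adj x y) →
    ¬ Col G T r → (∀ v ∈ T, Col G (T.erase v) r) → 2 * r + 1 ≤ T.card

open Classical in
/-- DECOMPOSITION.

PROOF (from Gallai) by strong induction on `|T|`. If `¬ Col G (T.erase v) r` for some `v ∈ T` use the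
induction hypothesis for `T.erase v`. So assume `Col G (T.erase v) r` for all `v ∈ T`. `T` is nonempty
(`col_empty`).
JOIN: suppose `T = X ∪ Y`, `X, Y` nonempty, disjoint, all pairs `x ∈ X`, `y ∈ Y` adjacent. Let `x` be
the least number with `Col G X x`. `x ≥ 1`: otherwise `Col G X 0`, impossible as `X` is nonempty (the
image of a nonempty set is nonempty). `x ≤ r` because `X ⊆ T.erase y` for `y ∈ Y`. `¬ Col G X (x - 1)`,
and `¬ Col G Y (r - x)` (otherwise `Col G T r` by `col_union`). The induction hypotheses for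
`(X, x - 1)` and `(Y, r - x)` give `(U₁, S₁, W₁, a₁, b₁)`, `(U₂, S₂, W₂, a₂, b₂)`; take the unions
and the sums: `|U₁| + a₁ + b₁ + |U₂| + a₂ + b₂ = (x - 1 + 1) + (r - x + 1) = r + 1`; all properties
are clear, because all elements of `X` are adjacent to all elements of `Y` (so the non-neighbours of
`s ∈ S₁` in `S₁ ∪ S₂` are in `S₁`).
NO JOIN: by `Gallai` `2 r + 1 ≤ |T|`. If `|T| = 1` then `r = 0`: `U = T`, `S = W = ∅`,
`aS = aL = 0`. Let `|T| ≥ 2`. `r ≥ 2`: if `r = 0`, `v ∈ T`, then `T.erase v` is nonempty but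
`Col G (T.erase v) 0`, impossible. If `r = 1`: there are adjacent `x, y ∈ T` (otherwise `Col G T 1`
with a constant colouring); `T = {x, y}` because for `v ∈ T \ {x, y}` `Col G (T.erase v) 1` is
impossible (`x`, `y` have different colours); but then `T = {x} ∪ {y}` is a join. So
`5 (r + 1) ≤ 3 (2 r + 1) ≤ 3 |T|`. If `|T| ≤ L` take `S = T`, `aS = r + 1`, `U = W = ∅`, `aL = 0` (a
vertex has at most `|T| ≤ L` non-neighbours). If `|T| > L` take `W = T`, `aL = r + 1`,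
`U = S = ∅`, `aS = 0`: `2 L (r + 1) ≤ L (|T| + 1) ≤ L |T| + |T|`. -/
def DecompStmt : Prop :=
  ∀ (V : Type) [Fintype V] (G : SimpleGraph V) (L : ℕ) (T : Finset V) (r : ℕ), ¬ Col G T r →
    ∃ (U S W : Finset V) (aS aL : ℕ), U ⊆ T ∧ S ⊆ T ∧ W ⊆ T ∧ Disjoint U S ∧ Disjoint U W ∧
      Disjoint S W ∧ (∀ u ∈ U, ∀ v, (v ∈ U ∨ v ∈ S ∨ v ∈ W) → v ≠ u → G.Adj u v) ∧
      (∀ s ∈ S, ∀ w ∈ W, G.Adj s w) ∧
      (∀ s ∈ S, (S.filter (fun t => t ≠ s ∧ ¬ G.Adj s t)).card ≤ L) ∧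
      r + 1 = U.card + aS + aL ∧ 5 * aS ≤ 3 * S.card ∧ 5 * aL ≤ 3 * W.card ∧
      2 * L * aL ≤ (L + 1) * W.card

/-! ## The covering lemma -/

open Classical in
/-- THE COVERING STRATEGY, deterministic part. `S` is completely joined to its complement (the pages).

PROOF (as `GreedyGame.lean`, reuse its lemmas `gg_...` in the namespace `GreedyGameM`). For a
colouring `y` let `K y = greedy G (fun v => (y v).val < σ) s l ∅` (a clique of special vertices, a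
subset of the elements of `l`, so of `S`), `T y = Σ_{k ∈ K y} ((y k).val : ZMod σ)` and
`Bad y = badRes S q σ y` (it depends only on the colours of the pages). For finite sets `K ⊆ X`,
`M ⊆ ZMod σ` choose `ρ K M : X → ZMod σ` with `|M \ (image of K under ρ K M)| ≤ |M| - |K|` (natural
subtraction; take an injective map from a subset of `K` with `min |K| |M|` elements into `M`). Put
`R y = Bad y \ image (ρ (K y) (Bad y)) (K y)` if `|K y| = s` and `R y = ∅` otherwise.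
STRATEGY with parameter `t`: a page `w ∉ S` sees all of `S` and guesses `((T y + t).val : ZMod q)`.
A vertex `w ∈ S` forms `A_w v := (v = w) ∨ ((y v).val < σ ∧ G.Adj w v)` and
`K_w = greedy G A_w s l ∅`, and knows `Bad y`. If `w ∈ K_w` and `|K_w| = s` it guesses
`((ρ K_w (Bad y) w - t - Σ_{k ∈ K_w, k ≠ w} ((y k).val : ZMod σ)).val : ZMod q)`, otherwise `0`.
LOCALITY as in `GreedyGame.lean`; the pages are adjacent to all elements of `S` and vice versa.
WINNING: let `|K y| = s` and suppose nobody is right. If `T y + t ∉ Bad y`, some page `w ∉ S` has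
`(y w).val = (T y + t).val` and is right. So `T y + t ∈ Bad y`. If `T y + t = ρ (K y) (Bad y) w` for
some `w ∈ K y`, then `K_w = K y` (`gg_view`) and the guess of `w` is
`(((y w).val : ZMod σ).val : ZMod q) = y w` as `(y w).val < σ`. So `T y + t ∈ R y`. -/
def CovDetStmt : Prop :=
  ∀ (X : Type) [Fintype X] (G : SimpleGraph X) (S : Finset X) (l : List X) (q σ s : ℕ)
    [NeZero q] [NeZero σ], σ ≤ q → (∀ v ∈ l, v ∈ S) → (∀ v ∈ S, ∀ w, w ∉ S → G.Adj v w) →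
    ∃ (f : ZMod σ → X → (X → ZMod q) → ZMod q) (T : (X → ZMod q) → ZMod σ)
      (R : (X → ZMod q) → Finset (ZMod σ)),
      (∀ (t : ZMod σ) (w : X) (c c' : X → ZMod q), (∀ u : X, G.Adj w u → c u = c' u) →
        f t w c = f t w c') ∧
      (∀ y, (R y).card ≤ (badRes S q σ y).card - s) ∧
      ∀ (t : ZMod σ) (y : X → ZMod q),
        (greedy G (fun v => (y v).val < σ) s l ∅).card = s → (∀ w, f t w y ≠ y w) → T y + t ∈ R y

open Classical in
/-- SECOND MOMENT of the number of bad residues.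

PROOF. Write `N = |X|`, `ℓ = |Sᶜ|`, `ζ = (1 - 1/q)^ℓ`, `b y = |Bad y|`, sums over all
`y : X → ZMod q`. For one residue `r` (`r.val < σ ≤ q`) the number of `y` with `(y w).val ≠ r.val`
for all `w ∉ S` is `q^|S| (q-1)^ℓ = q^N ζ` (`Fintype.piFinset`), and for two different residues the
number of `y` avoiding both is `q^|S| (q-2)^ℓ ≤ q^N ζ²` (`q ≥ 2` in this case, `q (q - 2) ≤ (q-1)²`).
So `Σ b = σ q^N ζ` and
`Σ b² = Σ_{r, r'} #{...} ≤ σ q^N ζ + σ² q^N ζ²`, hence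
`Σ (b - σ ζ)² ≤ σ ζ q^N ≤ σ q^N`. For every `y`
`(b - s)^+ ≤ max 0 (σ ζ - s) + |b - σ ζ| ≤ max 0 (σ ζ - s) + (b - σ ζ)²/(2 τ) + τ/2`
(`2 τ x ≤ x² + τ²`). Sum over `y`. -/
def CovMomStmt : Prop :=
  ∀ (X : Type) [Fintype X] (S : Finset X) (q σ s : ℕ) [NeZero q] [NeZero σ] (τ : ℝ),
    σ ≤ q → 0 < τ →
    (∑ y : X → ZMod q, (((badRes S q σ y).card - s : ℕ) : ℝ)) ≤
      (q : ℝ) ^ (Fintype.card X) *
        (max 0 ((σ : ℝ) * (1 - 1 / (q : ℝ)) ^ (Sᶜ).card - (s : ℝ)) + (σ : ℝ) / (2 * τ) + τ / 2)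

/-- THE NUMBERS of the covering lemma.

PROOF. We may assume `ε ≤ 1` (the statement for `min ε 1` implies it). Let `e = ε / 8`,
`k ≥ 1` an integer with `k ≥ 32 / e^3` (so `1/k ≤ e`), `σ = k²`, `q₀` so large that
`8 σ Δ ≤ e q₀` and `σ ≤ q₀`. For `q ≥ q₀`, `s₀ ≤ 2 q` let `s = ⌊σ (s₀ / q - e)⌋₊` (natural floor,
`0` if negative), `δ = e / 8`, `z = 1 - δ`, `τ = k`.
LAST CLAIM: `s ≥ σ (s₀ / q - e) - 1`, so `σ ζ - s ≤ σ (ζ - s₀ / q) + σ e + 1` and
`max 0 (σ ζ - s) + σ/(2k) + k/2 ≤ σ max 0 (ζ - s₀/q) + σ e + 1 + k`, and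
`σ e + 1 + k ≤ σ e + 2 k ≤ σ e + 2 e σ = 3 e σ ≤ σ ε / 2` (`k ≤ e k² = e σ`).
THE OTHER CLAIM, `s ≥ 1`: then `s ≤ σ (s₀ / q - e)`, in particular `s ≤ 2 σ`. With `1 - x ≤ exp (-x)`
and `z = 1 - δ ≥ exp (- δ - δ²)` (for `0 ≤ δ ≤ 1/2`, `- log (1 - δ) ≤ δ + δ²`; a weaker bound
`exp (-δ - 2 δ²)` is enough): the quotient of the two sides is at most
`exp (s (δ + 2 δ²) - (σ/q) δ (s₀ - s Δ)) / (ε/2)`, and the exponent is at most
`δ (s - σ s₀ / q) + 2 δ² s + δ σ s Δ / q ≤ - δ e σ + 4 δ² σ + 2 δ σ² Δ / q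
≤ - δ e σ + δ e σ / 2 + δ e σ / 4 = - δ e σ / 4 = - e² σ / 32`
(`4 δ = e / 2`, `2 σ Δ / q ≤ e / 4`). `exp (-x) ≤ 1/x` and `e² σ / 32 ≥ e² k / 32 ≥ 1 / e`, so the
exponential is at most `e ≤ ε / 2`. (If `s Δ > s₀` the natural subtraction only helps: the real
number `s₀ - s Δ` is at most the natural one.) -/
def CovNumStmt : Prop :=
  ∀ (ε : ℝ) (Δ : ℕ), 0 < ε → ∃ σ q₀ : ℕ, 1 ≤ σ ∧ σ ≤ q₀ ∧ ∀ q s₀ : ℕ, q₀ ≤ q → s₀ ≤ 2 * q →
    ∃ (s : ℕ) (z τ : ℝ), 0 < z ∧ z ≤ 1 ∧ 0 < τ ∧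
      (s = 0 ∨ (1 - (σ : ℝ) / (q : ℝ) * (1 - z)) ^ (s₀ - s * Δ) ≤ ε / 2 * z ^ s) ∧
      ∀ ζ : ℝ, max 0 ((σ : ℝ) * ζ - (s : ℝ)) + (σ : ℝ) / (2 * τ) + τ / 2 ≤
        (σ : ℝ) * (max 0 (ζ - (s₀ : ℝ) / (q : ℝ)) + ε / 2)

open Classical in
/-- COVERING LEMMA.

PROOF (from CovDet, CovMom, CovNum, GreedyProb). Let `σ, q₀` be from `CovNum`; for `q ≥ q₀` and
`s₀ = |S|` let `s, z, τ` be from `CovNum`. `CovDet` with `l = S.toList` gives `f, T, R`. Let
`K y` be the greedy clique. `|K y| ≤ s` always (easy induction). For every `t`, the number of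
`y` for which `f t` fails is at most `#{y : |K y| < s} + #{y : T y + t ∈ R y}`. Sum over `t`:
`Σ_t #{y : T y + t ∈ R y} = Σ_y |R y| ≤ Σ_y (|Bad y| - s)`. So some `t` (the average is over the
`σ` elements of `ZMod σ`) satisfies `#failures ≤ #{|K y| < s} + (1/σ) Σ_y (|Bad y| - s)`. The second
term is at most `q^N (max 0 (ζ - s₀/q) + ε/2)`, `ζ = (1 - 1/q)^|Sᶜ|`, by `CovMom` and `CovNum`. The
first term is `0` if `s = 0`. Otherwise use `GreedyProb` for the graph `G'` with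
`G'.Adj u v ↔ u ≠ v ∧ (G.Adj u v ∨ u ∉ S ∨ v ∉ S)`: all its non-degrees are at most `Δ`, and the
greedy clique is the same for `G` and `G'` because only adjacencies between elements of `S` are used
(induction on the list, for a general start `C ⊆ S`). With `l.length = |S|`:
`#{|K y| < s} z^s ≤ q^N (1 - (σ/q)(1-z))^(s₀ - s Δ) ≤ q^N (ε/2) z^s`, and `z^s > 0`. -/
def CovStmt : Prop :=
  ∀ (ε : ℝ) (Δ : ℕ), 0 < ε → ∃ q₀ : ℕ, ∀ (X : Type) [Fintype X] (G : SimpleGraph X)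
    (S : Finset X) (q : ℕ) [NeZero q], q₀ ≤ q → S.card ≤ 2 * q →
    (∀ v ∈ S, ∀ w, w ∉ S → G.Adj v w) →
    (∀ v ∈ S, (S.filter (fun u => u ≠ v ∧ ¬ G.Adj v u)).card ≤ Δ) →
    ∃ f : X → (X → ZMod q) → ZMod q,
      (∀ (w : X) (c c' : X → ZMod q), (∀ u : X, G.Adj w u → c u = c' u) → f w c = f w c') ∧
      ((univ.filter (fun y : X → ZMod q => ∀ w, f w y ≠ y w)).card : ℝ) ≤
        (q : ℝ) ^ (Fintype.card X) *
          (max 0 ((1 - 1 / (q : ℝ)) ^ (Sᶜ).card - (S.card : ℝ) / (q : ℝ)) + ε)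

/-! ## The book strategy with a partial strategy on the pages -/

open Classical in
/-- BOOK, deterministic part. Like `BookDetStmt` (`Defs2.lean`, proof `BookDet.lean`), but the guess
`g w p c` of the page `w` may also depend on the colours `c` of the neighbours of `w` in `W`.

PROOF (from Orient). As for `BookDetStmt`, with `Bad_c = {p : ∀ w ∈ W, g w p c ≠ c w}`: for a
colouring `x` let `φ x = Σ_{i ∈ U} v i (x i)`; the page `w` guesses `g w (φ x) x`; replace `c` by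
`c` cut to `W` (`0` outside `W`) for the vertices of `U`: by the locality hypothesis
`g w p c = g w p c'` if `c = c'` on `W`, so `Bad_c` depends only on `c` on `W`. Everything else is
word for word the same as in `BookDet.lean`. -/
def Bk2DetStmt : Prop :=
  ∀ (V P : Type) [Fintype V] [Fintype P] [AddCommGroup P] (G : SimpleGraph V) (U W : Finset V)
    (q a : ℕ) [NeZero q] (v : V → (ZMod q →+ P)) (g : V → P → (V → ZMod q) → ZMod q),
    Disjoint U W → Spine G U W → U.Nonempty → q = U.card + a →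
    (∀ i ∈ U, Function.Injective (v i)) →
    (∀ w ∈ W, ∀ (p : P) (c c' : V → ZMod q), (∀ u ∈ W, G.Adj w u → c u = c' u) →
      g w p c = g w p c') →
    (∀ (c : V → ZMod q) (p : P), U.card * a ≤
      ((U ×ˢ (univ.erase (0 : ZMod q))).filter
        (fun it => ∃ w ∈ W, g w (p + v it.1 it.2) c = c w)).card) →
    Win G (ZMod q)

open Classical in
/-- BOOK, random part (compare `BookRandStmt`). `Y` is a finite abelian group, `S ⊆ Y`.

PROOF. Consider all functions `h : P → Y`, `|Y|^|P|` many. For `c, p` let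
`F(h) = #{j : c - h (st p j) ∈ S}`. As `st p` is injective, `Σ_h u^F(h)` is a product over `y ∈ P`:
the factor is `|Y|` if `y` is not in the range of `st p`, and
`Σ_{ρ ∈ Y} u^[c - ρ ∈ S] = |Y| - |S| + u |S| = |Y| (1 - (1-u) |S|/|Y|)` if it is. So
`Σ_h u^F(h) = |Y|^|P| (1 - (1-u) θ)^|ι|`, `θ = |S|/|Y|`. Summing over the `|P|` points `p` and the
`|Y|` elements `c`: `Σ_h Σ_{p,c} u^F < |Y|^|P| u^K`, so some `h` has `Σ_{p,c} u^F < u^K`, and all
`F ≥ K` for this `h` (as `0 < u ≤ 1`). (`BookRand.lean` can be adapted.) -/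
def Bk2RandStmt : Prop :=
  ∀ (Y P ι : Type) [Fintype Y] [AddCommGroup Y] [Fintype P] [Fintype ι] (K : ℕ) (S : Finset Y)
    (st : P → ι → P) (u : ℝ), (∀ p, Function.Injective (st p)) → 0 < u → u ≤ 1 →
    (Fintype.card P : ℝ) * (Fintype.card Y : ℝ) *
      (1 - (1 - u) * ((S.card : ℝ) / (Fintype.card Y : ℝ))) ^ (Fintype.card ι) < u ^ K →
    ∃ h : P → Y, ∀ (c : Y) (p : P),
      K ≤ (univ.filter (fun j : ι => c - h (st p j) ∈ S)).card

/-- THE BOOK STRATEGY with a partial strategy `F` on the pages `W`, which is right for all colourings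
in `S`.

PROOF (from Bk2Det, Bk2Rand, Vec; compare `Book.lean`). Let `v` be from `Vec`,
`P = Fin (d+1) → ZMod q`, `ι = {i // i ∈ U} × {t : ZMod q // t ≠ 0}`, `st p (i, t) = p + v i t`,
`Y = ({w // w ∈ W} → ZMod q)` (`q^|W|` elements). `Bk2Rand` with `K = |U| a` gives `h : P → Y`. For
`w ∈ W` put `g w p c = F w (c|_W - h p) + h p w` (and `0` for `w ∉ W`), where `c|_W` is the restriction
of `c`. Locality: `F w` depends only on the neighbours of `w`. If `c|_W - h p ∈ S` some `w` has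
`F w (c|_W - h p) = c w - h p w`, i.e. `g w p c = c w`. So the pairs counted in `Bk2Rand` are among
those counted in `Bk2Det`. `U` is nonempty: otherwise the numerical condition says
`q^(d+1) q^|W| < 1`. -/
def Bk2Stmt : Prop :=
  ∀ (V : Type) [Fintype V] (G : SimpleGraph V) (U W : Finset V) (q a d : ℕ) [NeZero q] (u : ℝ)
    (F : {w // w ∈ W} → ({w // w ∈ W} → ZMod q) → ZMod q)
    (S : Finset ({w // w ∈ W} → ZMod q)),
    Disjoint U W → Spine G U W → q = U.card + a → U.card ≤ 2 ^ d → 0 < u → u ≤ 1 →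
    (∀ (w : {w // w ∈ W}) (c c' : {w // w ∈ W} → ZMod q),
      (∀ x : {w // w ∈ W}, G.Adj w.1 x.1 → c x = c' x) → F w c = F w c') →
    (∀ y ∈ S, ∃ w, F w y = y w) →
    (q : ℝ) ^ (d + 1) * (q : ℝ) ^ W.card *
      (1 - (1 - u) * ((S.card : ℝ) / (q : ℝ) ^ W.card)) ^ (U.card * (q - 1)) <
        u ^ (U.card * a) →
    Win G (ZMod q)

/-! ## Numbers and the end -/

/-- THE FINAL INEQUALITY.

PROOF. `δ = η / 8`, `u = 1 - δ`, `d = Nat.clog 2 m` (`m ≤ 2^d`, and `2^d ≤ 2 m ≤ 2 q`, `m ≥ 1`).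
`θ > 0` as `a ≥ 1`, `0 ≤ 1 - δ θ ≤ exp (- δ θ)` (`θ ≤ 1`). `θ (q - 1) ≥ (1 + η)(1 - 1/q) a ≥
(1 + η/2) a` for `q ≥ 4/η` (`η/2 ≥ (1 + η)/q` as `η ≤ 1`). So
`(1 - δ θ)^(m (q-1)) ≤ exp (- δ m a (1 + η/2))`. And `u = 1 - δ ≥ exp (- δ - 2 δ²)` (`δ ≤ 1/2`), so
`u^(m a) ≥ exp (- m a (δ + 2 δ²))`. The difference of the exponents is
`m a (δ η / 2 - 2 δ²) = m a η² (1/16 - 1/32) = m a η²/32`. So it is enough that
`(d + 1 + N) log q < m a η² / 32`. `d ≤ log_2 (2 q) ≤ 1 + 2 log q`, `N ≤ 4 a`, `a ≥ 1`: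
`d + 1 + N ≤ a (6 + 2 log q)`, `m ≥ c q`, so it is enough that
`(6 + 2 log q) log q < c q η²/32`, true for `q ≥ q₀`. -/
def NumFStmt : Prop :=
  ∀ η c : ℝ, 0 < η → η ≤ 1 → 0 < c → ∃ q₀ : ℕ, ∀ m N a q : ℕ, q = m + a → q₀ ≤ q → 1 ≤ a →
    N ≤ 4 * a → c * (q : ℝ) ≤ (m : ℝ) →
    ∃ (d : ℕ) (u : ℝ), m ≤ 2 ^ d ∧ 0 < u ∧ u ≤ 1 ∧
      ∀ θ : ℝ, θ ≤ 1 → (1 + η) * (a : ℝ) ≤ θ * (q : ℝ) →
        (q : ℝ) ^ (d + 1) * (q : ℝ) ^ N * (1 - (1 - u) * θ) ^ (m * (q - 1)) < u ^ (m * a)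

/-- TWO BOUNDS for the exponential function.

PROOF. Both functions `1 - exp (-2x) - (1007/1000) x` and `1 - exp (-y) - (63/100) y` are concave and
vanish at `0`, so it is enough to check the right end point (formally: convexity of `exp`, for
`x = λ x₁`, `0 ≤ λ ≤ 1`: `exp (-2x) ≤ λ exp (-2 x₁) + (1 - λ)`). At `x = 786/1000`:
`exp (-1.572) ≤ 0.2077 ≤ 1 - 1.007 · 0.786 = 0.208498` (`exp 1.572 ≥ 4.8148` by the Taylor
polynomial of degree 8 or by powers of `Real.exp_one_gt_d9`); at `y = 1`: `exp (-1) ≤ 0.3679`. -/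
def ExpStmt : Prop :=
  (∀ x : ℝ, 0 ≤ x → x ≤ 786 / 1000 → 1007 / 1000 * x ≤ 1 - Real.exp (-(2 * x))) ∧
    ∀ y : ℝ, 0 ≤ y → y ≤ 1 → 63 / 100 * y ≤ 1 - Real.exp (-y)

/-- CASE `a ≤ (3/5) q`.

PROOF (from Exp). `(1 - 1/q)^N ≤ exp (-N/q)` and `N ≥ 5a/3`, `y = 5a/(3q) ≤ 1`:
`(1 - (1 - 1/q)^N) q ≥ (1 - exp (-y)) q ≥ (63/100) (5/3) a = (105/100) a`. -/
def NumBStmt : Prop :=
  ∀ a N q : ℕ, 1 ≤ q → 5 * a ≤ 3 * N → 5 * a ≤ 3 * q →
    (1 + 1 / 500 : ℝ) * (a : ℝ) ≤ (1 - (1 - 1 / (q : ℝ)) ^ N) * (q : ℝ)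

/-- CASE `a > (3/5) q`. `m = |U|`, `s₀ = |S|`, `w = |W|`, `L = 10^4`, `M = 1000`.

PROOF (from Exp). `a = aS + aL`. (1) From `m + s₀ + w ≤ n ≤ (25/14) q`, `m = q - aS - aL`,
`s₀ ≥ (5/3) aS`, `w ≥ 2 aL L/(L+1)`: `(2/3) aS + aL (L-1)/(L+1) ≤ (11/14) q`. Hence
`x := aL L/((L+1) q) ≤ (11/14) (L/(L-1)) ≤ 786/1000`.
(2) `999 (m + s₀) < 1000 q` gives `(2/3) aS - aL < q/999`.
(3) `a = (5/4)((2/3) aS + aL) + (1/4)((2/3) aS - aL) ≤ (5/4)(11/14 + 2/10001) q + q/3996 ≤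
(99/100) q` (using `aL ≤ q`), so `m ≥ q/100`.
(4) `s₀ + w ≤ n ≤ (25/14) q ≤ 4 a` as `a > (3/5) q`.
(5) Let `ζ = (1 - 1/q)^w ≤ exp (-w/q) ≤ exp (-2x)`. If `ζ ≤ s₀/q`: `(1 - 1/1000) q ≥ 1.002 · 0.99 q`.
Otherwise `(1 - ζ + s₀/q - 1/1000) q ≥ (1 - exp (-2x)) q + s₀ - q/1000 ≥ 1.007 aL L/(L+1) +
(5/3) aS - q/1000 ≥ 1.0068 a - a/600 ≥ 1.002 a`. -/
def NumCStmt : Prop :=
  ∀ m aS aL s₀ w n q : ℕ, q = m + (aS + aL) → 1 ≤ q → 14 * n ≤ 25 * q → m + s₀ + w ≤ n →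
    5 * aS ≤ 3 * s₀ → 2 * 10 ^ 4 * aL ≤ (10 ^ 4 + 1) * w → 999 * (m + s₀) < 1000 * q →
    3 * q < 5 * (aS + aL) →
    (1 / 100 : ℝ) * (q : ℝ) ≤ (m : ℝ) ∧ s₀ + w ≤ 4 * (aS + aL) ∧ s₀ ≤ 2 * q ∧
      (1 + 1 / 500 : ℝ) * ((aS + aL : ℕ) : ℝ) ≤
        (1 - (max 0 ((1 - 1 / (q : ℝ)) ^ w - (s₀ : ℝ) / (q : ℝ)) + 1 / 1000)) * (q : ℝ)

/-- A GRAPH WITH A DECOMPOSITION WINS. `q = |U| + aS + aL` colours.

PROOF (from Graph, Helper, Dense, Book, Cov, Bk2, NumF, NumB, NumC). Constants: `L = 10^4`,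
`M = 1000`, `η = 1/500`, `c = 1/100`, `ε = 1/1000`; `n₁` from `Dense` (`Δ = L`), `q₁` from `Cov`
(`Δ = L`), `q₂` from `NumF`; `q₀ = max`. Let `m = |U|`, `a = aS + aL`.
(0) `a = 0`: `U` is a clique with `q` vertices, use `Helper` and `Graph` (see `main45_clique` in
`Main45.lean`).
(A) `1000 q ≤ 999 (m + |S|)`: apply `Dense` to the graph induced on `{v // v ∈ U ∪ S}` (non-degrees at
most `L`, number of vertices `≥ q ≥ n₁`), then `Graph`; `Fin q` and `ZMod q` have the same number of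
elements (`Colors` or transport along an equivalence).
(B) `5 a ≤ 3 q`: choose `W' ⊆ S ∪ W` with `N = min |S ∪ W| (2 a)` elements (`5 a ≤ 3 |S ∪ W|`, so
`5 a ≤ 3 N`); `NumB`, `NumF` (`N ≤ 4 a`, `m = q - a ≥ (2/5) q`) with `θ = 1 - (1 - 1/q)^N` and
`Book` for `U, W'`.
(C) `3 q < 5 a`, not (A): `NumC` with `n = m + |S| + |W|`... (any `n` with the hypotheses). Let
`X = {v // v ∈ S ∪ W}` with the graph `G.comap Subtype.val`, `S' ` the elements of `X` in `S`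
(`|S'| = |S|`, `|S'ᶜ| = |W|`, `|X| = |S ∪ W| = |S| + |W|`). `Cov` gives a strategy `F` on `X`; let
`𝒮 = {y : ∃ w, F w y = y w}`: `|𝒮|/q^|X| ≥ θ := 1 - (max 0 (ζ - |S|/q) + ε)` and `NumC` gives
`(1 + η) a ≤ θ q`; apply `NumF` with `θ' = |𝒮|/q^|X| ≤ 1` and `N = |S ∪ W|`, then `Bk2` for `U` and
the page set `S ∪ W`. -/
def WinStmt : Prop :=
  ∃ q₀ : ℕ, ∀ (V : Type) [Fintype V] (G : SimpleGraph V) (U S W : Finset V) (q aS aL n : ℕ)
    [NeZero q], q₀ ≤ q → Disjoint U S → Disjoint U W → Disjoint S W →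
    (∀ u ∈ U, ∀ v, (v ∈ U ∨ v ∈ S ∨ v ∈ W) → v ≠ u → G.Adj u v) →
    (∀ s ∈ S, ∀ w ∈ W, G.Adj s w) →
    (∀ s ∈ S, {t | t ∈ S ∧ t ≠ s ∧ ¬ G.Adj s t}.ncard ≤ 10 ^ 4) →
    q = U.card + (aS + aL) → 5 * aS ≤ 3 * S.card → 5 * aL ≤ 3 * W.card →
    2 * 10 ^ 4 * aL ≤ (10 ^ 4 + 1) * W.card → U.card + S.card + W.card ≤ n →
    14 * n ≤ 25 * q → Win G (ZMod q)

/-- MAIN THEOREM: `χ(G) ≥ (14/25) n` and `n` large imply `χ(G) ≤ HG(G)`.

PROOF (from Colors, Decomp, Win). Compare `Main45.lean`. Let `q₀` be from `Win`, `n₀ = 2 q₀ + 1`.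
Suppose `¬ Win G (Fin q')` but `G` is not `(q'-1)`-colourable. Let `q` be the least number of colours
of a proper colouring; `14 n ≤ 25 q`, `q' ≤ q`, `q' ≥ 1`. We show `Win G (ZMod q)`; then `Colors`
gives `Win G (Fin q')`, a contradiction. `G` is not `(q-1)`-colourable, so `¬ Col G univ (q-1)`
(`col_univ`); `Decomp` with `T = univ`, `r = q - 1`, `L = 10^4` gives `U, S, W, aS, aL`. Apply `Win`
with `n = card V` (`|U| + |S| + |W| ≤ n` as they are disjoint; `q ≥ 14 n/25 ≥ q₀`). -/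
def Main56Stmt : Prop :=
  ∃ n₀ : ℕ, ∀ (V : Type) [Fintype V] (G : SimpleGraph V), n₀ ≤ Fintype.card V →
    (∀ r : ℕ, G.Colorable r → 14 * Fintype.card V ≤ 25 * r) → Good G

end Pool.Agent.Lib.MP_1818ed_co
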