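import Mathlib
import Pool.Agent.Lib.MP_1818ed_co.C56.Spec

/-!
# The barrier
-/

set_option autoImplicit false

namespace Pool.Agent.Lib.MP_1818ed_co

open Finset

namespace C56Bar

variable {V : Type} {H : SimpleGraph V}

open Classical in
theorem card_part {T : Finset V} {P : Finset (Finset V)} (h : PartN H T P) :
    T.card = ∑ D ∈ P, D.card := by
  have e : T = P.biUnion id := by
    ext v
    rw [Finset.mem_biUnion]
    exact h.2.1 v
  have h1 : (P.biUnion id).card = ∑ D ∈ P, (id D).card := by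
    refine Finset.card_biUnion fun D hD E hE hDE => ?_
    change Disjoint D E
    rw [Finset.disjoint_left]
    intro v hv hv'
    exact (h.2.2 D hD E hE hDE v hv v hv').1 rfl
  rw [← e] at h1
  exact h1

open Classical in
/-- The barrier is improved. -/
theorem improve {T A B : Finset V} {P Q : Finset (Finset V)} {D : Finset V} {d : V}
    (hA : A ⊆ T) (hP : PartN H (T \ A) P) (hD : D ∈ P) (hd : d ∈ D) (hB : B ⊆ D.erase d)
    (hQ : PartN H (D.erase d \ B) Q) (hlt : B.card < (Q.filter (fun E => Odd E.card)).card) :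
    ∃ (A' : Finset V) (P' : Finset (Finset V)), A' ⊆ T ∧ PartN H (T \ A') P' ∧
      A.card < A'.card ∧ (P.filter (fun E => Odd E.card)).card + A'.card ≤
        (P'.filter (fun E => Odd E.card)).card + A.card := by
  have hDT : ∀ v ∈ D, v ∈ T ∧ v ∉ A := by
    intro v hv
    exact Finset.mem_sdiff.1 ((hP.2.1 v).2 ⟨D, hD, hv⟩)
  have hBD : ∀ v ∈ B, v ≠ d ∧ v ∈ D := fun v hv => Finset.mem_erase.1 (hB hv)
  have hQD : ∀ E ∈ Q, ∀ v ∈ E, v ∈ D ∧ v ≠ d ∧ v ∉ B := by
    intro E hE v hv
    have h1 := Finset.mem_sdiff.1 ((hQ.2.1 v).2 ⟨E, hE, hv⟩)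
    have h2 := Finset.mem_erase.1 h1.1
    exact ⟨h2.2, h2.1, h1.2⟩
  have hPD : ∀ E ∈ P.erase D, ∀ v ∈ E, v ∉ D := by
    intro E hE v hv hvD
    have h1 := Finset.mem_erase.1 hE
    exact (hP.2.2 E h1.2 D hD h1.1 v hv v hvD).1 rfl
  have hcA : (insert d A ∪ B).card = A.card + 1 + B.card := by
    rw [Finset.card_union_of_disjoint, Finset.card_insert_of_notMem (hDT d hd).2]
    rw [Finset.disjoint_left]
    intro v hv hvB
    rcases Finset.mem_insert.1 hv with h | h
    · exact (hBD v hvB).1 h
    · exact (hDT v (hBD v hvB).2).2 h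
  have hdis : Disjoint (P.erase D) Q := by
    rw [Finset.disjoint_left]
    intro E hE hE'
    obtain ⟨v, hv⟩ := hQ.1 E hE'
    exact hPD E hE v hv (hQD E hE' v hv).1
  have hodd : (((P.erase D) ∪ Q).filter (fun E => Odd E.card)).card =
      ((P.erase D).filter (fun E => Odd E.card)).card + (Q.filter (fun E => Odd E.card)).card := by
    rw [Finset.filter_union, Finset.card_union_of_disjoint]
    exact Finset.disjoint_filter_filter hdis
  have hdel : (P.filter (fun E => Odd E.card)).card =
      ((P.erase D).filter (fun E => Odd E.card)).card + if Odd D.card then 1 else 0 := by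
    have e : P = insert D (P.erase D) := (Finset.insert_erase hD).symm
    have h1 : (P.filter (fun E => Odd E.card)) =
        (insert D (P.erase D)).filter (fun E => Odd E.card) := by rw [← e]
    rw [h1, Finset.filter_insert]
    split_ifs with h
    · rw [Finset.card_insert_of_notMem]
      intro h2
      exact Finset.notMem_erase D P (Finset.mem_filter.1 h2).1
    · rfl
  have hpar : Odd (∑ E ∈ Q, E.card) ↔ Odd (Q.filter (fun E => Odd E.card)).card :=
    Finset.odd_sum_iff_odd_card_odd _
  have hcQ := card_part hQ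
  have hsd : (D.erase d \ B).card + B.card = (D.erase d).card :=
    Finset.card_sdiff_add_card_eq_card hB
  have hde : (D.erase d).card + 1 = D.card := Finset.card_erase_add_one hd
  refine ⟨insert d A ∪ B, (P.erase D) ∪ Q, ?_, ⟨?_, ?_, ?_⟩, by omega, ?_⟩
  · intro v hv
    rcases Finset.mem_union.1 hv with h | h
    · rcases Finset.mem_insert.1 h with h | h
      · rw [h]
        exact (hDT d hd).1
      · exact hA h
    · exact (hDT v (hBD v h).2).1
  · intro E hE
    rcases Finset.mem_union.1 hE with h | h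
    · exact hP.1 E (Finset.mem_of_mem_erase h)
    · exact hQ.1 E h
  · intro v
    constructor
    · intro hv
      obtain ⟨h1, h2⟩ := Finset.mem_sdiff.1 hv
      rw [Finset.mem_union, Finset.mem_insert] at h2
      push Not at h2
      obtain ⟨E, hE, hvE⟩ := (hP.2.1 v).1 (Finset.mem_sdiff.2 ⟨h1, h2.1.2⟩)
      by_cases hED : E = D
      · rw [hED] at hvE
        obtain ⟨F, hF, hvF⟩ := (hQ.2.1 v).1
          (Finset.mem_sdiff.2 ⟨Finset.mem_erase.2 ⟨h2.1.1, hvE⟩, h2.2⟩)
        exact ⟨F, Finset.mem_union_right _ hF, hvF⟩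
      · exact ⟨E, Finset.mem_union_left _ (Finset.mem_erase.2 ⟨hED, hE⟩), hvE⟩
    · rintro ⟨E, hE, hvE⟩
      rw [Finset.mem_sdiff, Finset.mem_union, Finset.mem_insert]
      push Not
      rcases Finset.mem_union.1 hE with h | h
      · have h1 := hPD E h v hvE
        have h2 := Finset.mem_sdiff.1 ((hP.2.1 v).2 ⟨E, Finset.mem_of_mem_erase h, hvE⟩)
        refine ⟨h2.1, ⟨?_, h2.2⟩, ?_⟩
        · rintro rfl
          exact h1 hd
        · intro h3
          exact h1 (hBD v h3).2
      · obtain ⟨h1, h2, h3⟩ := hQD E h v hvE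
        exact ⟨(hDT v h1).1, ⟨h2, (hDT v h1).2⟩, h3⟩
  · intro E hE F hF hEF v hv w hw
    rcases Finset.mem_union.1 hE with h | h <;> rcases Finset.mem_union.1 hF with h' | h'
    · exact hP.2.2 E (Finset.mem_of_mem_erase h) F (Finset.mem_of_mem_erase h') hEF v hv w hw
    · have h1 := Finset.mem_erase.1 h
      exact hP.2.2 E h1.2 D hD h1.1 v hv w (hQD F h' w hw).1
    · have h1 := Finset.mem_erase.1 h'
      exact hP.2.2 D hD F h1.2 h1.1.symm v (hQD E h v hv).1 w hw
    · exact hQ.2.2 E h F h' hEF v hv w hw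
  · rw [hodd, hdel, hcA]
    rw [← hcQ] at hpar
    by_cases hDo : Odd D.card
    · rw [if_pos hDo]
      have h1 : (Q.filter (fun E => Odd E.card)).card ≠ B.card + 1 := by
        intro h2
        rw [h2] at hpar
        rw [Nat.odd_iff] at hDo
        rw [Nat.odd_iff, Nat.odd_iff] at hpar
        omega
      omega
    · rw [if_neg hDo]
      omega

end C56Bar

theorem bar (h1 : TutStmt) : BarStmt := by
  classical
  intro V _ H T
  obtain ⟨S, hS⟩ : ∃ S : Finset (Finset V × Finset (Finset V)),
      ∀ x, x ∈ S ↔ x.1 ⊆ T ∧ PartN H (T \ x.1) x.2 :=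
    ⟨univ.filter fun x => x.1 ⊆ T ∧ PartN H (T \ x.1) x.2, fun x => by simp⟩
  obtain ⟨Φ, hΦ⟩ : ∃ Φ : Finset V × Finset (Finset V) → ℤ, ∀ x, Φ x =
      (((x.2.filter (fun E => Odd E.card)).card : ℤ) - x.1.card) * (T.card + 1) + x.1.card :=
    ⟨_, fun _ => rfl⟩
  have h0 : ((∅, if T = ∅ then ∅ else {T}) : Finset V × Finset (Finset V)) ∈ S := by
    rw [hS]
    refine ⟨Finset.empty_subset T, ?_⟩
    simp only [Finset.sdiff_empty]
    by_cases hT : T = ∅
    · rw [if_pos hT]
      refine ⟨fun D hD => absurd hD (Finset.notMem_empty D), fun v => ?_,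
        fun D hD => absurd hD (Finset.notMem_empty D)⟩
      rw [hT]
      simp
    · rw [if_neg hT]
      refine ⟨fun D hD => ?_, fun v => ?_, fun D hD E hE hDE => ?_⟩
      · rw [Finset.mem_singleton.1 hD]
        exact Finset.nonempty_iff_ne_empty.2 hT
      · simp
      · exact absurd ((Finset.mem_singleton.1 hD).trans (Finset.mem_singleton.1 hE).symm) hDE
  obtain ⟨⟨A, P⟩, hAP, hmax⟩ := Finset.exists_max_image S Φ ⟨_, h0⟩
  obtain ⟨hA, hP⟩ := (hS _).1 hAP
  have hAT : A.card ≤ T.card := Finset.card_le_card hA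
  have hle : A.card ≤ (P.filter (fun E => Odd E.card)).card := by
    have h2 := hmax _ h0
    rw [hΦ, hΦ] at h2
    simp only [Finset.card_empty, Nat.cast_zero, sub_zero, add_zero] at h2
    by_contra hno
    rw [not_le] at hno
    have h3 : (0 : ℤ) ≤ (((if T = ∅ then ∅ else {T} : Finset (Finset V)).filter
      (fun E => Odd E.card)).card : ℤ) * (T.card + 1) := by positivity
    have h4 : (((P.filter (fun E => Odd E.card)).card : ℤ) - A.card) ≤ -1 := by
      have : ((P.filter (fun E => Odd E.card)).card : ℤ) < A.card := by exact_mod_cast hno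
      linarith
    have h5 : (((P.filter (fun E => Odd E.card)).card : ℤ) - A.card) * (T.card + 1) ≤
        -1 * (T.card + 1) := mul_le_mul_of_nonneg_right h4 (by positivity)
    have h6 : (A.card : ℤ) ≤ T.card := by exact_mod_cast hAT
    linarith
  refine ⟨A, P, hA, hP, hle.trans (Finset.card_filter_le _ _), fun D hD d hd => ?_⟩
  rcases h1 V H (D.erase d) with h | ⟨B, Q, hB, hQ, hlt⟩
  · convert h
  · exfalso
    obtain ⟨A', P', hA', hP', hc1, hc2⟩ := C56Bar.improve hA hP hD hd hB hQ hlt
    have h2 := hmax (A', P') ((hS _).2 ⟨hA', hP'⟩)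
    rw [hΦ, hΦ] at h2
    simp only at h2
    have h3 : ((P.filter (fun E => Odd E.card)).card : ℤ) - A.card ≤
        ((P'.filter (fun E => Odd E.card)).card : ℤ) - A'.card := by
      have : (((P.filter (fun E => Odd E.card)).card + A'.card : ℕ) : ℤ) ≤
          (((P'.filter (fun E => Odd E.card)).card + A.card : ℕ) : ℤ) := by exact_mod_cast hc2
      push_cast at this
      linarith
    have h4 := mul_le_mul_of_nonneg_right h3 (by positivity : (0 : ℤ) ≤ (T.card : ℤ) + 1)
    have h5 : (A.card : ℤ) < A'.card := by exact_mod_cast hc1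
    linarith

end Pool.Agent.Lib.MP_1818ed_co
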