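import Mathlib
import Pool.Agent.Lib.MP_1818ed_co.C56.Spec

/-!
# The book strategy with a partial strategy on the pages (assembly)
-/

set_option autoImplicit false

namespace Pool.Agent.Lib.MP_1818ed_co

open Finset

theorem bk2 (h1 : Bk2DetStmt) (h2 : Bk2RandStmt) (h3 : VecStmt) : Bk2Stmt := by
  classical
  intro V _ G U W q a d _ u F S hUW hsp hq hd hu0 hu1 hF hS hnum
  obtain ⟨v, hv⟩ := h3 V U q d hd
  have hq1 : 1 ≤ q := Nat.one_le_iff_ne_zero.2 (NeZero.ne q)
  -- `U` is nonempty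
  have hU : U.Nonempty := by
    rw [Finset.nonempty_iff_ne_empty]
    intro h0
    rw [h0] at hnum
    simp only [Finset.card_empty, zero_mul, pow_zero, mul_one] at hnum
    have hq1' : (1 : ℝ) ≤ (q : ℝ) := by exact_mod_cast hq1
    have e1 : (1 : ℝ) ≤ (q : ℝ) ^ (d + 1) := one_le_pow₀ hq1'
    have e2 : (1 : ℝ) ≤ (q : ℝ) ^ W.card := one_le_pow₀ hq1'
    have e3 : (1 : ℝ) ≤ (q : ℝ) ^ (d + 1) * (q : ℝ) ^ W.card := one_le_mul_of_one_le_of_one_le e1 e2
    linarith
  -- the spaces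
  let P : Type := Fin (d + 1) → ZMod q
  let ι : Type := {i : V // i ∈ U} × {t : ZMod q // t ≠ 0}
  let Y : Type := {w : V // w ∈ W} → ZMod q
  let st : P → ι → P := fun p j => p + v j.1.1 j.2.1
  have hst : ∀ p, Function.Injective (st p) := by
    rintro p ⟨⟨i, hi⟩, ⟨t, ht⟩⟩ ⟨⟨j, hj⟩, ⟨s, hs⟩⟩ h
    have h' : v i t = v j s := add_left_cancel (a := p) h
    obtain ⟨e1, e2⟩ := hv i hi j hj t s h'
    have e3 : i = j := e2.resolve_left ht
    subst e1
    subst e3
    rfl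
  have hvinj : ∀ i ∈ U, Function.Injective (v i) := fun i hi s t h => (hv i hi i hi s t h).1
  have cP : Fintype.card P = q ^ (d + 1) := by
    show Fintype.card (Fin (d + 1) → ZMod q) = q ^ (d + 1)
    rw [Fintype.card_fun, ZMod.card, Fintype.card_fin]
  have cY : Fintype.card Y = q ^ W.card := by
    show Fintype.card ({w : V // w ∈ W} → ZMod q) = q ^ W.card
    rw [Fintype.card_fun, ZMod.card, Fintype.card_coe]
  have c0 : Fintype.card {t : ZMod q // t ≠ 0} = q - 1 := by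
    rw [Fintype.card_subtype, Finset.filter_ne', Finset.card_erase_of_mem (Finset.mem_univ _),
      Finset.card_univ, ZMod.card]
  have cι : Fintype.card ι = U.card * (q - 1) := by
    show Fintype.card ({i : V // i ∈ U} × {t : ZMod q // t ≠ 0}) = U.card * (q - 1)
    rw [Fintype.card_prod, Fintype.card_coe, c0]
  have hnum' : (Fintype.card P : ℝ) * (Fintype.card Y : ℝ) *
      (1 - (1 - u) * ((S.card : ℝ) / (Fintype.card Y : ℝ))) ^ (Fintype.card ι) <
        u ^ (U.card * a) := by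
    rw [cP, cY, cι, Nat.cast_pow, Nat.cast_pow]
    exact hnum
  obtain ⟨g, hg⟩ := h2 Y P ι (U.card * a) S st u hst hu0 hu1 hnum'
  let g' : V → P → (V → ZMod q) → ZMod q := fun w p c =>
    if h : w ∈ W then F ⟨w, h⟩ (fun x => c x.1 - g p x) + g p ⟨w, h⟩ else 0
  refine h1 V P G U W q a v g' hUW hsp hU hq hvinj ?_ ?_
  · intro w hw p c c' hcc
    show (if h : w ∈ W then F ⟨w, h⟩ (fun x => c x.1 - g p x) + g p ⟨w, h⟩ else 0) =
      (if h : w ∈ W then F ⟨w, h⟩ (fun x => c' x.1 - g p x) + g p ⟨w, h⟩ else 0)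
    rw [dif_pos hw, dif_pos hw]
    congr 1
    refine hF ⟨w, hw⟩ _ _ fun x hx => ?_
    rw [hcc x.1 x.2 hx]
  · intro c p
    refine (hg (fun w => c w.1) p).trans ?_
    refine Finset.card_le_card_of_injOn (fun j : ι => ((j.1.1, j.2.1) : V × ZMod q)) ?_ ?_
    · intro j hj
      have hj' := (@Finset.mem_filter _ _ (_) _ _).1 (Finset.mem_coe.1 hj) |>.2
      obtain ⟨w, hw⟩ := hS _ hj'
      refine Finset.mem_coe.2 (Finset.mem_filter.2 ⟨?_, w.1, w.2, ?_⟩)
      · rw [Finset.mem_product]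
        exact ⟨j.1.2, Finset.mem_erase.2 ⟨j.2.2, Finset.mem_univ _⟩⟩
      · show (if h : w.1 ∈ W then F ⟨w.1, h⟩ (fun x => c x.1 - g (p + v j.1.1 j.2.1) x) +
          g (p + v j.1.1 j.2.1) ⟨w.1, h⟩ else 0) = c w.1
        rw [dif_pos w.2]
        have e1 : F w (fun x => c x.1 - g (p + v j.1.1 j.2.1) x) =
            c w.1 - g (p + v j.1.1 j.2.1) w := hw
        have e2 : F ⟨w.1, w.2⟩ (fun x => c x.1 - g (p + v j.1.1 j.2.1) x) =
            c w.1 - g (p + v j.1.1 j.2.1) w := e1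
        rw [e2]
        exact sub_add_cancel _ _
    · rintro ⟨⟨i, hi⟩, ⟨t, ht⟩⟩ _ ⟨⟨j, hj⟩, ⟨s, hs⟩⟩ _ h
      have e1 : i = j := congrArg Prod.fst h
      have e2 : t = s := congrArg Prod.snd h
      subst e1
      subst e2
      rfl

end Pool.Agent.Lib.MP_1818ed_co
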