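import Mathlib
import Pool.Agent.Lib.MP_1818ed_co.C56.Spec

/-!
# MP_1818ed_co : the random part of the book strategy with a partial strategy on the pages
-/

set_option autoImplicit false

namespace Pool.Agent.Lib.MP_1818ed_co

open Finset

namespace C56Bk2Rand

open Classical in
/-- A product over the range of an injective map. -/
private lemma prod_range {P ι : Type} [Fintype P] [Fintype ι] (st : ι → P)
    (hst : Function.Injective st) (f : P → ℝ) :
    ∏ y : P, (if y ∈ univ.image st then f y else 1) = ∏ j : ι, f (st j) := by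
  rw [Finset.prod_ite_mem, Finset.univ_inter, Finset.prod_image fun a _ b _ h => hst h]

open Classical in
/-- One factor. -/
private lemma factor {Y : Type} [Fintype Y] [AddCommGroup Y] (S : Finset Y) (c : Y) (u : ℝ) :
    ∑ ρ : Y, (if c - ρ ∈ S then u else 1) =
      (Fintype.card Y : ℝ) * (1 - (1 - u) * ((S.card : ℝ) / (Fintype.card Y : ℝ))) := by
  have hY : (Fintype.card Y : ℝ) ≠ 0 := by
    have : 0 < Fintype.card Y := Fintype.card_pos_iff.2 ⟨0⟩
    exact_mod_cast this.ne'
  have h0 : ∑ ρ : Y, (if c - ρ ∈ S then u else (1 : ℝ)) = ∑ ρ : Y, (if ρ ∈ S then u else 1) :=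
    Equiv.sum_comp (Equiv.subLeft c) (fun ρ => if ρ ∈ S then u else (1 : ℝ))
  have h1 : ∀ ρ : Y, (if ρ ∈ S then u else (1 : ℝ)) = 1 - (1 - u) * (if ρ ∈ S then 1 else 0) := by
    intro ρ
    by_cases h : ρ ∈ S
    · rw [if_pos h, if_pos h]; ring
    · rw [if_neg h, if_neg h]; ring
  rw [h0, Finset.sum_congr rfl fun ρ _ => h1 ρ, Finset.sum_sub_distrib, ← Finset.mul_sum,
    Finset.sum_boole, Finset.filter_mem_eq_inter, Finset.univ_inter, Finset.sum_const,
    nsmul_eq_mul, mul_one, Finset.card_univ]
  field_simp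

open Classical in
/-- The exponential moment. -/
private lemma moment {Y P ι : Type} [Fintype Y] [AddCommGroup Y] [Fintype P] [Fintype ι]
    (S : Finset Y) (st : ι → P) (hst : Function.Injective st) (c : Y) (u : ℝ) :
    ∑ h : P → Y, u ^ (univ.filter (fun j : ι => c - h (st j) ∈ S)).card =
      (Fintype.card Y : ℝ) ^ Fintype.card P *
        (1 - (1 - u) * ((S.card : ℝ) / (Fintype.card Y : ℝ))) ^ (Fintype.card ι) := by
  have h1 : ∀ h : P → Y,
      u ^ (univ.filter (fun j : ι => c - h (st j) ∈ S)).card =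
        ∏ y : P, (if y ∈ univ.image st then (if c - h y ∈ S then u else 1) else 1) := by
    intro h
    rw [prod_range st hst (fun y => if c - h y ∈ S then u else 1), Finset.prod_ite,
      Finset.prod_const, Finset.prod_const_one, mul_one]
  rw [Finset.sum_congr rfl fun h _ => h1 h]
  have h2 : ∑ h : P → Y,
      ∏ y : P, (if y ∈ univ.image st then (if c - h y ∈ S then u else 1) else (1 : ℝ)) =
      ∏ y : P, ∑ ρ : Y,
        (if y ∈ univ.image st then (if c - ρ ∈ S then u else 1) else (1 : ℝ)) := by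
    rw [Finset.prod_univ_sum, Fintype.piFinset_univ]
  rw [h2]
  set T : ℝ := 1 - (1 - u) * ((S.card : ℝ) / (Fintype.card Y : ℝ)) with hT
  have h3 : ∀ y : P, ∑ ρ : Y,
        (if y ∈ univ.image st then (if c - ρ ∈ S then u else 1) else (1 : ℝ)) =
      (Fintype.card Y : ℝ) * (if y ∈ univ.image st then T else 1) := by
    intro y
    by_cases hy : y ∈ univ.image st
    · simp only [if_pos hy]
      rw [factor, hT]
    · simp only [if_neg hy]
      simp
  rw [Finset.prod_congr rfl fun y _ => h3 y, Finset.prod_mul_distrib,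
    prod_range st hst (fun _ => T), Finset.prod_const, Finset.prod_const, Finset.card_univ,
    Finset.card_univ]

end C56Bk2Rand

open C56Bk2Rand in
theorem bk2Rand : Bk2RandStmt := by
  classical
  intro Y P ι _ _ _ _ K S st u hst hu0 hu1 hnum
  by_contra hcon
  push Not at hcon
  -- every `h` has a bad pair
  have hbad : ∀ h : P → Y, ∃ (c : Y) (p : P),
      (univ.filter (fun j : ι => c - h (st p j) ∈ S)).card < K := by
    intro h
    obtain ⟨c, p, hcp⟩ := hcon h
    refine ⟨c, p, lt_of_le_of_lt (le_of_eq ?_) hcp⟩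
    congr 1
  set Q : ℝ := (Fintype.card Y : ℝ) with hQ
  have hQpos : 0 < Q := by
    have : 0 < Fintype.card Y := Fintype.card_pos_iff.2 ⟨0⟩
    rw [hQ]
    exact_mod_cast this
  set T : ℝ := 1 - (1 - u) * ((S.card : ℝ) / Q) with hT
  -- upper bound
  have hup : ∑ h : P → Y, ∑ p : P, ∑ c : Y,
      u ^ (univ.filter (fun j : ι => c - h (st p j) ∈ S)).card =
        Q ^ Fintype.card P * ((Fintype.card P : ℝ) * Q * T ^ Fintype.card ι) := by
    rw [Finset.sum_comm]
    have h1 : ∀ p : P, ∑ h : P → Y, ∑ c : Y,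
        u ^ (univ.filter (fun j : ι => c - h (st p j) ∈ S)).card =
        Q * (Q ^ Fintype.card P * T ^ Fintype.card ι) := by
      intro p
      rw [Finset.sum_comm]
      rw [Finset.sum_congr rfl fun c _ => moment S (st p) (hst p) c u]
      rw [Finset.sum_const, nsmul_eq_mul, Finset.card_univ]
    rw [Finset.sum_congr rfl fun p _ => h1 p, Finset.sum_const, nsmul_eq_mul, Finset.card_univ]
    ring
  -- lower bound
  have hlow : Q ^ Fintype.card P * u ^ K ≤ ∑ h : P → Y, ∑ p : P, ∑ c : Y,
      u ^ (univ.filter (fun j : ι => c - h (st p j) ∈ S)).card := by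
    have h1 : Q ^ Fintype.card P * u ^ K = ∑ _h : P → Y, u ^ K := by
      rw [Finset.sum_const, nsmul_eq_mul, Finset.card_univ, Fintype.card_fun, hQ]
      push_cast
      ring
    rw [h1]
    apply Finset.sum_le_sum
    intro h _
    obtain ⟨c, p, hcp⟩ := hbad h
    have h2 : u ^ K ≤ u ^ (univ.filter (fun j : ι => c - h (st p j) ∈ S)).card :=
      pow_le_pow_of_le_one hu0.le hu1 hcp.le
    refine h2.trans ?_
    have h3 : u ^ (univ.filter (fun j : ι => c - h (st p j) ∈ S)).card ≤
        ∑ c : Y, u ^ (univ.filter (fun j : ι => c - h (st p j) ∈ S)).card :=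
      Finset.single_le_sum
        (f := fun c : Y => u ^ (univ.filter (fun j : ι => c - h (st p j) ∈ S)).card)
        (fun c _ => pow_nonneg hu0.le _) (Finset.mem_univ c)
    refine h3.trans ?_
    exact Finset.single_le_sum
        (f := fun p : P => ∑ c : Y, u ^ (univ.filter (fun j : ι => c - h (st p j) ∈ S)).card)
        (fun p _ => Finset.sum_nonneg fun c _ => pow_nonneg hu0.le _) (Finset.mem_univ p)
  rw [hup] at hlow
  have h4 : u ^ K ≤ (Fintype.card P : ℝ) * Q * T ^ Fintype.card ι :=
    le_of_mul_le_mul_left hlow (by positivity)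
  exact absurd hnum (not_lt.2 h4)

end Pool.Agent.Lib.MP_1818ed_co
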