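import Mathlib
import Pool.Agent.Lib.MP_1818ed_co.C56.Spec

/-! The covering lemma, from its deterministic part, the second moment, the numbers and the greedy
clique estimate. -/

set_option autoImplicit false

namespace Pool.Agent.Lib.MP_1818ed_co

open Finset

namespace C56Cov

theorem greedy_card {X : Type} (G : SimpleGraph X) (A : X → Prop) (s : ℕ) :
    ∀ (l : List X) (C : Finset X), C.card ≤ s → (greedy G A s l C).card ≤ s := by
  classical
  intro l
  induction l with
  | nil =>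
    intro C hC
    simpa [greedy] using hC
  | cons v l ih =>
    intro C hC
    unfold greedy
    split_ifs with h
    · apply ih
      refine le_trans (Finset.card_insert_le _ _) ?_
      omega
    · exact ih C hC

theorem greedy_eq {X : Type} (G G' : SimpleGraph X) (S : Finset X)
    (hG : ∀ u ∈ S, ∀ v ∈ S, G'.Adj u v ↔ G.Adj u v) (A : X → Prop) (s : ℕ) :
    ∀ (l : List X) (C : Finset X), (∀ v ∈ l, v ∈ S) → C ⊆ S →
      greedy G' A s l C = greedy G A s l C := by
  classical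
  intro l
  induction l with
  | nil => intro C _ _; simp [greedy]
  | cons v l ih =>
    intro C hl hC
    have hv : v ∈ S := hl v (List.mem_cons_self ..)
    have hl' : ∀ w ∈ l, w ∈ S := fun w hw => hl w (List.mem_cons_of_mem _ hw)
    have hiff : (C.card < s ∧ A v ∧ ∀ u ∈ C, G'.Adj v u) ↔
        (C.card < s ∧ A v ∧ ∀ u ∈ C, G.Adj v u) := by
      constructor
      · rintro ⟨a, b, c⟩
        exact ⟨a, b, fun u hu => (hG v hv u (hC hu)).1 (c u hu)⟩
      · rintro ⟨a, b, c⟩
        exact ⟨a, b, fun u hu => (hG v hv u (hC hu)).2 (c u hu)⟩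
    by_cases h : C.card < s ∧ A v ∧ ∀ u ∈ C, G.Adj v u
    · rw [greedy, greedy, if_pos h, if_pos (hiff.2 h)]
      refine ih _ hl' ?_
      intro x hx
      rcases Finset.mem_insert.1 hx with rfl | hx
      · exact hv
      · exact hC hx
    · rw [greedy, greedy, if_neg h, if_neg (fun h' => h (hiff.1 h'))]
      exact ih C hl' hC

theorem card_filter_eq {α : Type} (i1 i2 : Fintype α) (p : α → Prop)
    (d1 d2 : DecidablePred p) :
    (@Finset.filter α p d1 (@Finset.univ α i1)).card =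
      (@Finset.filter α p d2 (@Finset.univ α i2)).card := by
  have h1 : i1 = i2 := Subsingleton.elim _ _
  subst h1
  have h2 : d1 = d2 := Subsingleton.elim _ _
  subst h2
  rfl

open Classical in
/-- averaging over the parameter `t` -/
theorem avg {Y : Type} [Fintype Y] (σ : ℕ) [NeZero σ] (F : ZMod σ → Y → Prop) (B : Y → Prop)
    (T : Y → ZMod σ) (R : Y → Finset (ZMod σ))
    (h : ∀ t y, F t y → ¬ B y → T y + t ∈ R y) :
    ∃ t : ZMod σ, ((univ.filter (F t)).card : ℝ) ≤
      ((univ.filter B).card : ℝ) + (∑ y : Y, ((R y).card : ℝ)) / (σ : ℝ) := by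
  have hσ : (0 : ℝ) < (σ : ℝ) := by exact_mod_cast Nat.pos_of_ne_zero (NeZero.ne σ)
  have key : ∑ t : ZMod σ, ((univ.filter (F t)).card : ℝ) ≤
      ∑ _t : ZMod σ, (((univ.filter B).card : ℝ) + (∑ y : Y, ((R y).card : ℝ)) / (σ : ℝ)) := by
    have e1 : ∑ _t : ZMod σ, (((univ.filter B).card : ℝ) +
        (∑ y : Y, ((R y).card : ℝ)) / (σ : ℝ)) =
        (σ : ℝ) * ((univ.filter B).card : ℝ) + ∑ y : Y, ((R y).card : ℝ) := by
      rw [Finset.sum_const, Finset.card_univ, ZMod.card, nsmul_eq_mul]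
      field_simp
    have e2 : ∀ t : ZMod σ, ((univ.filter (F t)).card : ℝ) ≤
        ((univ.filter B).card : ℝ) + ((univ.filter (fun y => T y + t ∈ R y)).card : ℝ) := by
      intro t
      have h1 : univ.filter (F t) ⊆ univ.filter B ∪ univ.filter (fun y => T y + t ∈ R y) := by
        intro y hy
        rw [Finset.mem_filter] at hy
        by_cases hB : B y
        · exact Finset.mem_union_left _ (Finset.mem_filter.2 ⟨Finset.mem_univ _, hB⟩)
        · exact Finset.mem_union_right _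
            (Finset.mem_filter.2 ⟨Finset.mem_univ _, h t y hy.2 hB⟩)
      have h2 := (Finset.card_le_card h1).trans (Finset.card_union_le _ _)
      exact_mod_cast h2
    have e3 : ∑ t : ZMod σ, ((univ.filter (fun y => T y + t ∈ R y)).card : ℝ) =
        ∑ y : Y, ((R y).card : ℝ) := by
      have h1 : ∀ t : ZMod σ, ((univ.filter (fun y => T y + t ∈ R y)).card : ℝ) =
          ∑ y : Y, if T y + t ∈ R y then (1 : ℝ) else 0 := by
        intro t
        rw [Finset.sum_boole]
      rw [Finset.sum_congr rfl fun t _ => h1 t, Finset.sum_comm]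
      refine Finset.sum_congr rfl fun y _ => ?_
      rw [show (∑ t : ZMod σ, if T y + t ∈ R y then (1 : ℝ) else 0) =
        ∑ t : ZMod σ, if t ∈ R y then (1 : ℝ) else 0 from
        Equiv.sum_comp (Equiv.addLeft (T y)) (fun t => if t ∈ R y then (1 : ℝ) else 0)]
      rw [Finset.sum_boole, Finset.filter_mem_eq_inter, Finset.univ_inter]
    calc ∑ t : ZMod σ, ((univ.filter (F t)).card : ℝ)
        ≤ ∑ t : ZMod σ, (((univ.filter B).card : ℝ) +
          ((univ.filter (fun y => T y + t ∈ R y)).card : ℝ)) := Finset.sum_le_sum fun t _ => e2 t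
      _ = (σ : ℝ) * ((univ.filter B).card : ℝ) + ∑ y : Y, ((R y).card : ℝ) := by
          rw [Finset.sum_add_distrib, e3, Finset.sum_const, Finset.card_univ, ZMod.card,
            nsmul_eq_mul]
      _ = _ := e1.symm
  obtain ⟨t, _, ht⟩ := Finset.exists_le_of_sum_le (Finset.univ_nonempty) key
  exact ⟨t, ht⟩

open Classical in
/-- the greedy clique is small with small probability -/
theorem small (h4 : GreedyProbStmt) {X : Type} [Fintype X] (G : SimpleGraph X) (S : Finset X)
    (q σ s Δ : ℕ) [NeZero q] (z ε : ℝ) (hσq : σ ≤ q) (hz0 : 0 < z) (hz1 : z ≤ 1) (hε : 0 < ε)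
    (hdeg : ∀ v ∈ S, (S.filter (fun u => u ≠ v ∧ ¬ G.Adj v u)).card ≤ Δ)
    (hs : s = 0 ∨ (1 - (σ : ℝ) / (q : ℝ) * (1 - z)) ^ (S.card - s * Δ) ≤ ε / 2 * z ^ s) :
    ((univ.filter (fun y : X → ZMod q =>
        (greedy G (fun v => (y v).val < σ) s S.toList ∅).card < s)).card : ℝ) ≤
      (q : ℝ) ^ (Fintype.card X) * (ε / 2) := by
  have hq : (0 : ℝ) < (q : ℝ) ^ (Fintype.card X) := by
    have : (0 : ℝ) < (q : ℝ) := by exact_mod_cast Nat.pos_of_ne_zero (NeZero.ne q)
    positivity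
  rcases Nat.eq_zero_or_pos s with h0 | hspos
  · subst h0
    rw [Finset.filter_false_of_mem (fun y _ => Nat.not_lt_zero _)]
    rw [Finset.card_empty, Nat.cast_zero]
    positivity
  have hs' := hs.resolve_left (by omega)
  set G' : SimpleGraph X := SimpleGraph.fromRel (fun u v => G.Adj u v ∨ u ∉ S ∨ v ∉ S) with hG'
  have hdeg' : ∀ v, {u | u ≠ v ∧ ¬ G'.Adj v u}.ncard ≤ Δ := by
    intro v
    by_cases hv : v ∈ S
    · have h1 : {u | u ≠ v ∧ ¬ G'.Adj v u} ⊆
          ((S.filter (fun u => u ≠ v ∧ ¬ G.Adj v u) : Finset X) : Set X) := by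
        rintro u ⟨hu1, hu2⟩
        rw [hG', SimpleGraph.fromRel_adj] at hu2
        rw [Finset.mem_coe, Finset.mem_filter]
        have hu3 : u ∈ S := by
          by_contra h
          exact hu2 ⟨fun h => hu1 h.symm, Or.inl (Or.inr (Or.inr h))⟩
        exact ⟨hu3, hu1, fun h => hu2 ⟨fun h => hu1 h.symm, Or.inl (Or.inl h)⟩⟩
      refine (Set.ncard_le_ncard h1 (Finset.finite_toSet _)).trans ?_
      rw [Set.ncard_coe_finset]
      exact hdeg v hv
    · have h1 : {u | u ≠ v ∧ ¬ G'.Adj v u} = ∅ := by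
        refine Set.eq_empty_iff_forall_notMem.2 fun u hu => ?_
        obtain ⟨hu1, hu2⟩ := hu
        apply hu2
        rw [hG', SimpleGraph.fromRel_adj]
        exact ⟨fun h => hu1 h.symm, Or.inl (Or.inr (Or.inl hv))⟩
      rw [h1, Set.ncard_empty]
      exact Nat.zero_le _
  have hAdj : ∀ u ∈ S, ∀ v ∈ S, G'.Adj u v ↔ G.Adj u v := by
    intro u hu v hv
    rw [hG', SimpleGraph.fromRel_adj]
    constructor
    · rintro ⟨_, (h | h | h) | (h | h | h)⟩
      · exact h
      · exact absurd hu h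
      · exact absurd hv h
      · exact h.symm
      · exact absurd hv h
      · exact absurd hu h
    · intro h
      exact ⟨h.ne, Or.inl (Or.inl h)⟩
  have h5 := h4 X G' S.toList q σ s Δ z (Finset.nodup_toList S) hσq hdeg' hz0 hz1
  have h6 : ∀ y : X → ZMod q, greedy G' (fun v => (y v).val < σ) s S.toList ∅ =
      greedy G (fun v => (y v).val < σ) s S.toList ∅ := fun y =>
    greedy_eq G G' S hAdj _ s S.toList ∅ (fun v hv => Finset.mem_toList.1 hv)
      (Finset.empty_subset S)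
  simp only [h6] at h5
  rw [Finset.length_toList] at h5
  have hzs : 0 < z ^ s := pow_pos hz0 s
  have h7 := h5.trans (mul_le_mul_of_nonneg_left hs' hq.le)
  have h8 : (q : ℝ) ^ (Fintype.card X) * (ε / 2 * z ^ s) =
      ((q : ℝ) ^ (Fintype.card X) * (ε / 2)) * z ^ s := by ring
  rw [h8] at h7
  exact le_of_mul_le_mul_right h7 hzs

end C56Cov

open C56Cov in
theorem cov (h1 : CovDetStmt) (h2 : CovMomStmt) (h3 : CovNumStmt) (h4 : GreedyProbStmt) :
    CovStmt := by
  classical
  intro ε Δ hε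
  obtain ⟨σ, q₀, hσ1, hσq, hnum⟩ := h3 ε Δ hε
  refine ⟨q₀, ?_⟩
  intro X _ G S q _ hq hS hadj hdeg
  have : NeZero σ := ⟨by omega⟩
  have hσ : (0 : ℝ) < (σ : ℝ) := by exact_mod_cast Nat.pos_of_ne_zero (NeZero.ne σ)
  obtain ⟨s, z, τ, hz0, hz1, hτ, hs, hζ⟩ := hnum q S.card hq hS
  obtain ⟨f, T, R, hloc, hR, hwin⟩ := h1 X G S S.toList q σ s (hσq.trans hq)
    (fun v hv => Finset.mem_toList.1 hv) hadj
  have hmom := h2 X S q σ s τ (hσq.trans hq) hτ
  have hsm := small h4 G S q σ s Δ z ε (hσq.trans hq) hz0 hz1 hε hdeg hs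
  obtain ⟨t, ht⟩ := avg σ (fun t (y : X → ZMod q) => ∀ w, f t w y ≠ y w)
    (fun y => (greedy G (fun v => (y v).val < σ) s S.toList ∅).card < s) T R (by
      intro t y hy hB
      refine hwin t y ?_ hy
      exact le_antisymm (greedy_card G _ s _ ∅ (by simp)) (not_lt.1 hB))
  refine ⟨f t, hloc t, ?_⟩
  have hq : (0 : ℝ) < (q : ℝ) ^ (Fintype.card X) := by
    have : (0 : ℝ) < (q : ℝ) := by exact_mod_cast Nat.pos_of_ne_zero (NeZero.ne q)
    positivity
  have hsum : (∑ y : X → ZMod q, ((R y).card : ℝ)) ≤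
      (q : ℝ) ^ (Fintype.card X) * ((σ : ℝ) *
        (max 0 ((1 - 1 / (q : ℝ)) ^ (Sᶜ).card - (S.card : ℝ) / (q : ℝ)) + ε / 2)) := by
    refine le_trans (Finset.sum_le_sum fun y _ => ?_)
      (hmom.trans (mul_le_mul_of_nonneg_left (hζ ((1 - 1 / (q : ℝ)) ^ (Sᶜ).card)) hq.le))
    exact_mod_cast hR y
  have h5 : (∑ y : X → ZMod q, ((R y).card : ℝ)) / (σ : ℝ) ≤
      (q : ℝ) ^ (Fintype.card X) *
        (max 0 ((1 - 1 / (q : ℝ)) ^ (Sᶜ).card - (S.card : ℝ) / (q : ℝ)) + ε / 2) := by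
    rw [div_le_iff₀ hσ]
    refine hsum.trans (le_of_eq ?_)
    ring
  have h6 := ht.trans (add_le_add
    (le_trans (le_of_eq (congrArg Nat.cast (card_filter_eq _ _ _ _ _))) hsm) h5)
  have h7 : (q : ℝ) ^ (Fintype.card X) * (ε / 2) + (q : ℝ) ^ (Fintype.card X) *
        (max 0 ((1 - 1 / (q : ℝ)) ^ (Sᶜ).card - (S.card : ℝ) / (q : ℝ)) + ε / 2) =
      (q : ℝ) ^ (Fintype.card X) *
        (max 0 ((1 - 1 / (q : ℝ)) ^ (Sᶜ).card - (S.card : ℝ) / (q : ℝ)) + ε) := by ring
  rw [h7] at h6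
  refine le_trans (le_of_eq ?_) h6
  exact congrArg Nat.cast (card_filter_eq _ _ _ _ _)

end Pool.Agent.Lib.MP_1818ed_co
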