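import Mathlib
import Pool.Agent.Lib.MP_1818ed_co.C56.Spec
import Pool.Agent.Lib.MP_1818ed_co.GreedyGame

/-! The covering strategy, deterministic part. -/

set_option autoImplicit false

namespace Pool.Agent.Lib.MP_1818ed_co

open Finset

namespace C56CovDet

variable {X : Type} (G : SimpleGraph X)

theorem greedy_mem (A : X → Prop) (s : ℕ) (l : List X) : ∀ C : Finset X,
    ∀ u ∈ greedy G A s l C, u ∈ C ∨ u ∈ l := by
  classical
  induction l with
  | nil => intro C u hu; exact Or.inl hu
  | cons v l ih =>
    intro C u hu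
    unfold greedy at hu
    split_ifs at hu with h
    · rcases ih _ u hu with h1 | h1
      · rw [Finset.mem_insert] at h1
        rcases h1 with rfl | h1
        · exact Or.inr List.mem_cons_self
        · exact Or.inl h1
      · exact Or.inr (List.mem_cons_of_mem _ h1)
    · rcases ih _ u hu with h1 | h1
      · exact Or.inl h1
      · exact Or.inr (List.mem_cons_of_mem _ h1)

theorem greedy_congr (A A' : X → Prop) (s : ℕ) (l : List X) (h : ∀ v ∈ l, (A v ↔ A' v)) :
    ∀ C : Finset X, greedy G A s l C = greedy G A' s l C := by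
  classical
  induction l with
  | nil => intro C; rfl
  | cons v l ih =>
    intro C
    have ih' := ih fun u hu => h u (List.mem_cons_of_mem _ hu)
    have hv := h v List.mem_cons_self
    unfold greedy
    by_cases h1 : C.card < s ∧ A v ∧ ∀ u ∈ C, G.Adj v u
    · have h2 : C.card < s ∧ A' v ∧ ∀ u ∈ C, G.Adj v u := ⟨h1.1, hv.1 h1.2.1, h1.2.2⟩
      rw [if_pos h1, if_pos h2, ih']
    · have h2 : ¬ (C.card < s ∧ A' v ∧ ∀ u ∈ C, G.Adj v u) := fun h2 =>
        h1 ⟨h2.1, hv.2 h2.2.1, h2.2.2⟩
      rw [if_neg h1, if_neg h2, ih']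

open Classical in
theorem exists_rho (σ : ℕ) [NeZero σ] (K : Finset X) (M : Finset (ZMod σ)) :
    ∃ ρ : X → ZMod σ, (M \ K.image ρ).card ≤ M.card - K.card := by
  obtain ⟨K', hK', hK'c⟩ := Finset.exists_subset_card_eq (min_le_left K.card M.card)
  obtain ⟨M', hM', hM'c⟩ := Finset.exists_subset_card_eq (min_le_right K.card M.card)
  let e := Finset.equivOfCardEq (hK'c.trans hM'c.symm)
  refine ⟨fun x => if h : x ∈ K' then (e ⟨x, h⟩ : ZMod σ) else 0, ?_⟩
  have h1 : M' ⊆ K.image (fun x => if h : x ∈ K' then (e ⟨x, h⟩ : ZMod σ) else 0) := by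
    intro m hm
    refine Finset.mem_image.2 ⟨(e.symm ⟨m, hm⟩).1, hK' (e.symm ⟨m, hm⟩).2, ?_⟩
    rw [dif_pos (e.symm ⟨m, hm⟩).2]
    simp
  have h2 := Finset.card_le_card (Finset.sdiff_subset_sdiff (Finset.Subset.refl M) h1)
  refine h2.trans ?_
  rw [Finset.card_sdiff_of_subset hM', hM'c]
  omega

end C56CovDet

open GreedyGameM C56CovDet in
theorem covDet : CovDetStmt := by
  intro X _ G S l q σ s _ _ hσq hl hS
  classical
  choose ρ hρ using fun (K : Finset X) (M : Finset (ZMod σ)) => exists_rho σ K M
  obtain ⟨Aw, hAw⟩ : ∃ Aw : X → (X → ZMod q) → X → Prop, Aw = fun w y v =>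
    v = w ∨ ((y v).val < σ ∧ G.Adj w v) := ⟨_, rfl⟩
  obtain ⟨Kw, hKw⟩ : ∃ Kw : X → (X → ZMod q) → Finset X, Kw = fun w y =>
    greedy G (Aw w y) s l ∅ := ⟨_, rfl⟩
  obtain ⟨K, hK⟩ : ∃ K : (X → ZMod q) → Finset X, K = fun y =>
    greedy G (fun v => (y v).val < σ) s l ∅ := ⟨_, rfl⟩
  have hKS : ∀ y, ∀ k ∈ K y, k ∈ S := by
    intro y k hk
    rw [hK] at hk
    rcases greedy_mem G _ _ _ _ k hk with h | h
    · simp at h
    · exact hl k h
  refine ⟨fun t w y => if w ∈ S then (if w ∈ Kw w y ∧ (Kw w y).card = s then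
      (((ρ (Kw w y) (badRes S q σ y) w - t -
        ∑ k ∈ (Kw w y).erase w, ((y k).val : ZMod σ)).val : ℕ) : ZMod q) else 0)
      else (((∑ k ∈ K y, ((y k).val : ZMod σ) + t).val : ℕ) : ZMod q),
    fun y => ∑ k ∈ K y, ((y k).val : ZMod σ),
    fun y => if (K y).card = s then badRes S q σ y \ (K y).image (ρ (K y) (badRes S q σ y))
      else ∅, ?_, ?_, ?_⟩
  · intro t w c c' hcc
    by_cases hw : w ∈ S
    · simp only [if_pos hw]
      have h1 : Aw w c = Aw w c' := by
        rw [hAw]
        funext v
        apply propext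
        dsimp only
        by_cases hv : G.Adj w v
        · rw [hcc v hv]
        · simp [hv]
      have h2 : Kw w c = Kw w c' := by
        rw [hKw]
        dsimp only
        rw [h1]
      have h6 : badRes S q σ c = badRes S q σ c' := by
        unfold badRes
        apply Finset.filter_congr
        intro r _
        constructor
        · intro h w' hw'
          rw [← hcc w' (hS w hw w' hw')]
          exact h w' hw'
        · intro h w' hw'
          rw [hcc w' (hS w hw w' hw')]
          exact h w' hw'
      have h3 : ∑ k ∈ (Kw w c').erase w, ((c k).val : ZMod σ) =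
          ∑ k ∈ (Kw w c').erase w, ((c' k).val : ZMod σ) := by
        refine Finset.sum_congr rfl fun k hk => ?_
        rw [Finset.mem_erase] at hk
        have h4 : k ∈ greedy G (Aw w c') s l ∅ := by
          have := hk.2
          rw [hKw] at this
          exact this
        rcases gg_greedy_A G _ _ _ _ k h4 with h5 | h5
        · simp at h5
        · rw [hAw] at h5
          rcases h5 with h5 | h5
          · exact absurd h5 hk.1
          · rw [hcc k h5.2]
      rw [h2, h3, h6]
    · simp only [if_neg hw]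
      have h0 : ∀ v ∈ S, c v = c' v := fun v hv => hcc v (hS v hv w hw).symm
      have h1 : K c = K c' := by
        rw [hK]
        exact greedy_congr G _ _ s l (fun v hv => by rw [h0 v (hl v hv)]) ∅
      have h2 : ∑ k ∈ K c', ((c k).val : ZMod σ) = ∑ k ∈ K c', ((c' k).val : ZMod σ) :=
        Finset.sum_congr rfl fun k hk => by rw [h0 k (hKS c' k hk)]
      rw [h1, h2]
  · intro y
    dsimp only
    split_ifs with h
    · have h1 := hρ (K y) (badRes S q σ y)
      rw [h] at h1
      exact h1
    · rw [Finset.card_empty]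
      exact Nat.zero_le _
  · intro t y hy hall
    have hy' : (K y).card = s := by rw [hK]; exact hy
    dsimp only
    rw [if_pos hy', Finset.mem_sdiff]
    constructor
    · by_contra hbad
      unfold badRes at hbad
      rw [Finset.mem_filter] at hbad
      have h1 : ¬ ∀ w, w ∉ S →
          (y w).val ≠ (∑ k ∈ K y, ((y k).val : ZMod σ) + t).val := fun h =>
        hbad ⟨Finset.mem_univ _, h⟩
      push Not at h1
      obtain ⟨w, hw, hwe⟩ := h1
      apply hall w
      dsimp only
      rw [if_neg hw, ← hwe, ZMod.natCast_zmod_val]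
    · intro him
      obtain ⟨w, hwK, hwe⟩ := Finset.mem_image.1 him
      have hwS := hKS y w hwK
      have hwK' : w ∈ greedy G (fun v => (y v).val < σ) s l ∅ := by
        rw [hK] at hwK
        exact hwK
      have hw1 : (y w).val < σ := by
        rcases gg_greedy_A G _ _ _ _ w hwK' with h | h
        · simp at h
        · exact h
      have h1 : Kw w y = K y := by
        rw [hKw, hK]
        dsimp only
        rw [← gg_view G (fun v => (y v).val < σ) s w l ∅ (fun u hu => by simp at hu) hwK']
        congr 1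
        funext v
        apply propext
        rw [hAw]
        dsimp only
        constructor
        · rintro (h | ⟨h, h'⟩)
          · subst h; exact ⟨hw1, Or.inl rfl⟩
          · exact ⟨h, Or.inr h'⟩
        · rintro ⟨h, h' | h'⟩
          · exact Or.inl h'
          · exact Or.inr ⟨h, h'⟩
      apply hall w
      dsimp only
      rw [if_pos hwS, h1, if_pos ⟨hwK, hy'⟩, hwe]
      have h2 : ∑ k ∈ K y, ((y k).val : ZMod σ) + t - t -
          ∑ k ∈ (K y).erase w, ((y k).val : ZMod σ) = ((y w).val : ZMod σ) := by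
        rw [← Finset.add_sum_erase (K y) _ hwK]
        ring
      rw [h2, ZMod.val_cast_of_lt hw1, ZMod.natCast_zmod_val]

end Pool.Agent.Lib.MP_1818ed_co
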