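import Mathlib
import Pool.Agent.Lib.MP_1818ed_co.C56.Spec

/-! Second moment of the number of bad residues. -/

set_option autoImplicit false

namespace Pool.Agent.Lib.MP_1818ed_co

open Finset

namespace C56CovMom

variable {X : Type} [Fintype X]

open Classical in
theorem cnt (S : Finset X) (q : ℕ) [NeZero q] (P : ZMod q → Prop) [DecidablePred P]
    [inst : ∀ y : X → ZMod q, Decidable (∀ w, w ∉ S → P (y w))] :
    (∑ y : X → ZMod q, if (∀ w, w ∉ S → P (y w)) then (1 : ℝ) else 0) =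
      (q : ℝ) ^ S.card * ((univ.filter P).card : ℝ) ^ Sᶜ.card := by
  rw [Finset.sum_boole]
  have h1 : (univ.filter fun y : X → ZMod q => ∀ w, w ∉ S → P (y w)) =
      Fintype.piFinset (fun w => if w ∈ S then univ else univ.filter P) := by
    ext y
    simp only [mem_filter, mem_univ, true_and, Fintype.mem_piFinset]
    refine forall_congr' fun w => ?_
    by_cases hw : w ∈ S
    · simp [hw]
    · simp [hw]
  rw [h1, Fintype.card_piFinset, Nat.cast_prod]
  have h2 : ∀ w : X, (((if w ∈ S then (univ : Finset (ZMod q)) else univ.filter P).card : ℕ) : ℝ) =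
      if w ∈ S then (q : ℝ) else ((univ.filter P).card : ℝ) := by
    intro w
    split_ifs
    · rw [Finset.card_univ, ZMod.card]
    · rfl
  simp only [h2]
  rw [Finset.prod_ite, Finset.prod_const, Finset.prod_const]
  have h3 : (univ.filter fun w : X => w ∈ S) = S := by ext w; simp
  have h4 : (univ.filter fun w : X => ¬ w ∈ S) = Sᶜ := by ext w; simp
  rw [h3, h4]

theorem card_one (q σ : ℕ) [NeZero q] [NeZero σ] (hσ : σ ≤ q) (r : ZMod σ) :
    ((univ.filter fun a : ZMod q => a.val ≠ r.val).card : ℝ) = q - 1 := by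
  have hr : r.val < q := lt_of_lt_of_le (ZMod.val_lt r) hσ
  have h1 : (univ.filter fun a : ZMod q => a.val ≠ r.val) = univ.erase ((r.val : ℕ) : ZMod q) := by
    ext a
    simp only [mem_filter, mem_univ, true_and, mem_erase, and_true]
    refine not_congr ⟨fun h => ?_, fun h => ?_⟩
    · rw [← h, ZMod.natCast_zmod_val]
    · rw [h, ZMod.val_cast_of_lt hr]
  have h2 := Finset.card_erase_add_one (Finset.mem_univ ((r.val : ℕ) : ZMod q))
  rw [← h1, Finset.card_univ, ZMod.card] at h2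
  have h3 : (((univ.filter fun a : ZMod q => a.val ≠ r.val).card + 1 : ℕ) : ℝ) = (q : ℝ) := by
    rw [h2]
  push_cast at h3
  linarith

theorem card_two (q σ : ℕ) [NeZero q] [NeZero σ] (hσ : σ ≤ q) (r r' : ZMod σ) (hrr : r ≠ r') :
    ((univ.filter fun a : ZMod q => a.val ≠ r.val ∧ a.val ≠ r'.val).card : ℝ) = q - 2 := by
  have hr : r.val < q := lt_of_lt_of_le (ZMod.val_lt r) hσ
  have hr' : r'.val < q := lt_of_lt_of_le (ZMod.val_lt r') hσ
  have hv : ∀ (s : ZMod σ), s.val < q → ∀ a : ZMod q, (a.val = s.val ↔ a = ((s.val : ℕ) : ZMod q)) :=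
    fun s hs a => ⟨fun h => by rw [← h, ZMod.natCast_zmod_val],
      fun h => by rw [h, ZMod.val_cast_of_lt hs]⟩
  have h1 : (univ.filter fun a : ZMod q => a.val ≠ r.val ∧ a.val ≠ r'.val) =
      (univ.erase ((r.val : ℕ) : ZMod q)).erase ((r'.val : ℕ) : ZMod q) := by
    ext a
    simp only [mem_filter, mem_univ, true_and, mem_erase, and_true]
    rw [ne_eq, ne_eq, ne_eq, ne_eq, hv r hr, hv r' hr', and_comm]
  have hne : ((r'.val : ℕ) : ZMod q) ≠ ((r.val : ℕ) : ZMod q) := by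
    intro h
    have h5 := congrArg ZMod.val h
    rw [ZMod.val_cast_of_lt hr, ZMod.val_cast_of_lt hr'] at h5
    exact hrr (ZMod.val_injective σ h5.symm)
  have h2 := Finset.card_erase_add_one (Finset.mem_univ ((r.val : ℕ) : ZMod q))
  have h3 := Finset.card_erase_add_one
    (Finset.mem_erase.2 ⟨hne, Finset.mem_univ ((r'.val : ℕ) : ZMod q)⟩)
  rw [← h1] at h3
  rw [Finset.card_univ, ZMod.card] at h2
  have h4 : (univ.filter fun a : ZMod q => a.val ≠ r.val ∧ a.val ≠ r'.val).card + 2 = q := by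
    omega
  have h5 : (((univ.filter fun a : ZMod q => a.val ≠ r.val ∧ a.val ≠ r'.val).card + 2 : ℕ) : ℝ) =
      (q : ℝ) := by
    rw [h4]
  push_cast at h5
  linarith

end C56CovMom

open C56CovMom in
theorem covMom : CovMomStmt := by
  intro X _ S q σ s _ _ τ hσ hτ
  classical
  have hq0 : 0 < q := Nat.pos_of_ne_zero (NeZero.ne q)
  set Q : ℝ := (q : ℝ) with hQ
  have hQ0 : 0 < Q := by rw [hQ]; exact_mod_cast hq0
  have hQ1 : 1 ≤ Q := by rw [hQ]; exact_mod_cast hq0
  set N := Fintype.card X with hN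
  have hNS : S.card + Sᶜ.card = N := Finset.card_add_card_compl S
  set ζ : ℝ := (1 - 1 / Q) ^ Sᶜ.card with hζ
  have h01 : 0 ≤ 1 - 1 / Q := by
    have : 1 / Q ≤ 1 := by rw [div_le_one hQ0]; exact hQ1
    linarith
  have hζ0 : 0 ≤ ζ := pow_nonneg h01 _
  have h02 : 1 - 1 / Q ≤ 1 := by
    have : 0 < 1 / Q := by positivity
    linarith
  have hζ1 : ζ ≤ 1 := pow_le_one₀ h01 h02
  -- one residue
  have e1 : ∀ r : ZMod σ, (∑ y : X → ZMod q,
      if (∀ w, w ∉ S → (y w).val ≠ r.val) then (1 : ℝ) else 0) = Q ^ N * ζ := by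
    intro r
    rw [cnt S q (fun a => a.val ≠ r.val), card_one q σ hσ r, ← hNS, pow_add, hζ, mul_assoc,
      ← mul_pow]
    congr 2
    rw [← hQ]
    field_simp
  -- two residues
  have e2 : ∀ r r' : ZMod σ, r ≠ r' → (∑ y : X → ZMod q,
      if (∀ w, w ∉ S → ((y w).val ≠ r.val ∧ (y w).val ≠ r'.val)) then (1 : ℝ) else 0) ≤
        Q ^ N * ζ ^ 2 := by
    intro r r' hrr
    rw [cnt S q (fun a => a.val ≠ r.val ∧ a.val ≠ r'.val)]
    have h1 := card_two q σ hσ r r' hrr
    have h2 : (0 : ℝ) ≤ Q - 2 := by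
      rw [hQ, ← h1]
      exact Nat.cast_nonneg _
    rw [h1, ← hNS, pow_add, hζ, mul_assoc, ← pow_mul, mul_comm Sᶜ.card 2, pow_mul, ← mul_pow]
    apply mul_le_mul_of_nonneg_left _ (by positivity)
    apply pow_le_pow_left₀ h2
    have h3 : Q * (1 - 1 / Q) ^ 2 = Q - 2 + 1 / Q := by
      field_simp
      ring
    rw [h3]
    have : 0 < 1 / Q := by positivity
    linarith
  set b : (X → ZMod q) → ℝ := fun y => ((badRes S q σ y).card : ℝ) with hb
  have hbs : ∀ y, b y = ∑ r : ZMod σ, if (∀ w, w ∉ S → (y w).val ≠ r.val) then (1 : ℝ) else 0 := by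
    intro y
    rw [hb, Finset.sum_boole]
    unfold badRes
    congr 2
  have s1 : ∑ y, b y = σ * (Q ^ N * ζ) := by
    simp only [hbs]
    rw [Finset.sum_comm]
    simp only [e1]
    rw [Finset.sum_const, Finset.card_univ, ZMod.card, nsmul_eq_mul]
  have s2 : ∑ y, b y ^ 2 ≤ σ * (Q ^ N * ζ) + σ ^ 2 * (Q ^ N * ζ ^ 2) := by
    have h1 : ∀ y, b y ^ 2 = ∑ r : ZMod σ, ∑ r' : ZMod σ,
        if (∀ w, w ∉ S → ((y w).val ≠ r.val ∧ (y w).val ≠ r'.val)) then (1 : ℝ) else 0 := by
      intro y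
      rw [sq, hbs, Finset.sum_mul_sum]
      refine Finset.sum_congr rfl fun r _ => Finset.sum_congr rfl fun r' _ => ?_
      by_cases h2 : ∀ w, w ∉ S → (y w).val ≠ r.val
      · by_cases h3 : ∀ w, w ∉ S → (y w).val ≠ r'.val
        · rw [if_pos h2, if_pos h3, if_pos fun w hw => ⟨h2 w hw, h3 w hw⟩, mul_one]
        · have h5 : ¬ ∀ w, w ∉ S → ((y w).val ≠ r.val ∧ (y w).val ≠ r'.val) :=
            fun h => h3 fun w hw => (h w hw).2
          rw [if_neg h3, if_neg h5, mul_zero]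
      · have h5 : ¬ ∀ w, w ∉ S → ((y w).val ≠ r.val ∧ (y w).val ≠ r'.val) :=
          fun h => h2 fun w hw => (h w hw).1
        rw [if_neg h2, if_neg h5, zero_mul]
    simp only [h1]
    rw [Finset.sum_comm]
    have h4 : ∀ r : ZMod σ, (∑ y : X → ZMod q, ∑ r' : ZMod σ,
        if (∀ w, w ∉ S → ((y w).val ≠ r.val ∧ (y w).val ≠ r'.val)) then (1 : ℝ) else 0) ≤
        Q ^ N * ζ + σ * (Q ^ N * ζ ^ 2) := by
      intro r
      rw [Finset.sum_comm]
      calc _ ≤ ∑ r' : ZMod σ, ((if r = r' then Q ^ N * ζ else 0) + Q ^ N * ζ ^ 2) := by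
            apply Finset.sum_le_sum
            intro r' _
            by_cases hrr : r = r'
            · subst hrr
              rw [if_pos rfl]
              have h5 := e1 r
              simp only [and_self]
              rw [h5]
              have : 0 ≤ Q ^ N * ζ ^ 2 := by positivity
              linarith
            · rw [if_neg hrr, zero_add]
              exact e2 r r' hrr
        _ = Q ^ N * ζ + σ * (Q ^ N * ζ ^ 2) := by
            rw [Finset.sum_add_distrib, Finset.sum_ite_eq, if_pos (Finset.mem_univ r),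
              Finset.sum_const, Finset.card_univ, ZMod.card, nsmul_eq_mul]
    calc _ ≤ ∑ _r : ZMod σ, (Q ^ N * ζ + σ * (Q ^ N * ζ ^ 2)) := Finset.sum_le_sum fun r _ => h4 r
      _ = _ := by
        rw [Finset.sum_const, Finset.card_univ, ZMod.card, nsmul_eq_mul]
        ring
  have hcard : (∑ _y : X → ZMod q, (1 : ℝ)) = Q ^ N := by
    rw [Finset.sum_const, nsmul_eq_mul, mul_one, Finset.card_univ, Fintype.card_fun, ZMod.card,
      Nat.cast_pow]
  have s3 : ∑ y, (b y - σ * ζ) ^ 2 ≤ σ * Q ^ N := by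
    have h1 : ∑ y, (b y - σ * ζ) ^ 2 =
        ∑ y, b y ^ 2 - 2 * (σ * ζ) * ∑ y, b y + (σ * ζ) ^ 2 * ∑ _y : X → ZMod q, (1 : ℝ) := by
      rw [Finset.mul_sum, Finset.mul_sum, ← Finset.sum_sub_distrib, ← Finset.sum_add_distrib]
      exact Finset.sum_congr rfl fun y _ => by ring
    rw [h1, s1, hcard]
    have h2 : (σ : ℝ) * (Q ^ N * ζ) ≤ σ * Q ^ N := by
      have : 0 ≤ (σ : ℝ) * Q ^ N := by positivity
      nlinarith
    nlinarith [s2]
  -- pointwise
  have hpt : ∀ y, (((badRes S q σ y).card - s : ℕ) : ℝ) ≤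
      max 0 ((σ : ℝ) * ζ - s) + (b y - σ * ζ) ^ 2 / (2 * τ) + τ / 2 := by
    intro y
    have h1 : b y - σ * ζ ≤ (b y - σ * ζ) ^ 2 / (2 * τ) + τ / 2 := by
      have h2 : (b y - σ * ζ) ^ 2 / (2 * τ) + τ / 2 - (b y - σ * ζ) =
          (b y - σ * ζ - τ) ^ 2 / (2 * τ) := by
        field_simp
        ring
      have h3 : 0 ≤ (b y - σ * ζ - τ) ^ 2 / (2 * τ) := by positivity
      linarith
    rcases Nat.lt_or_ge (badRes S q σ y).card s with h4 | h4
    · have h5 : (badRes S q σ y).card - s = 0 := by omega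
      rw [h5, Nat.cast_zero]
      have h6 := le_max_left 0 ((σ : ℝ) * ζ - s)
      have h7 : 0 ≤ (b y - σ * ζ) ^ 2 / (2 * τ) := by positivity
      linarith
    · rw [Nat.cast_sub h4]
      have h6 := le_max_right 0 ((σ : ℝ) * ζ - s)
      have h7 : b y = ((badRes S q σ y).card : ℝ) := rfl
      linarith
  calc (∑ y : X → ZMod q, (((badRes S q σ y).card - s : ℕ) : ℝ))
      ≤ ∑ y : X → ZMod q, (max 0 ((σ : ℝ) * ζ - s) + (b y - σ * ζ) ^ 2 / (2 * τ) + τ / 2) :=
        Finset.sum_le_sum fun y _ => hpt y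
    _ = (max 0 ((σ : ℝ) * ζ - s) + τ / 2) * (∑ _y : X → ZMod q, (1 : ℝ)) +
        (∑ y, (b y - σ * ζ) ^ 2) / (2 * τ) := by
        rw [Finset.mul_sum, Finset.sum_div, ← Finset.sum_add_distrib]
        exact Finset.sum_congr rfl fun y _ => by ring
    _ ≤ (max 0 ((σ : ℝ) * ζ - s) + τ / 2) * Q ^ N + (σ * Q ^ N) / (2 * τ) := by
        rw [hcard]
        have : (∑ y, (b y - σ * ζ) ^ 2) / (2 * τ) ≤ (σ * Q ^ N) / (2 * τ) :=
          div_le_div_of_nonneg_right s3 (by positivity)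
        linarith
    _ = _ := by ring

end Pool.Agent.Lib.MP_1818ed_co
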