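import Mathlib
import Pool.Agent.Lib.MP_1818ed_co.C56.Spec

/-!
# The numbers of the covering lemma
-/

set_option autoImplicit false

namespace Pool.Agent.Lib.MP_1818ed_co

open Finset

namespace C56CovNum

/-- `exp (-(1/e)) ≤ e`. -/
private theorem exp_inv_le {e : ℝ} (he : 0 < e) : Real.exp (-(1 / e)) ≤ e := by
  have h1 : 1 / e ≤ Real.exp (1 / e) := by
    have := Real.add_one_le_exp (1 / e)
    linarith
  rw [Real.exp_neg, inv_le_comm₀ (Real.exp_pos _) he]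
  simpa only [one_div] using h1

/-- `exp (-(δ + 2 δ²)) ≤ 1 - δ` for `δ ≤ 1/2`. -/
private theorem exp_le_one_sub {δ : ℝ} (h1 : δ ≤ 1 / 2) :
    Real.exp (-(δ + 2 * δ ^ 2)) ≤ 1 - δ := by
  have h2 := Real.add_one_le_exp (δ + 2 * δ ^ 2)
  have h3 : 0 < 1 - δ := by linarith
  have h4 : 1 ≤ (1 - δ) * (δ + 2 * δ ^ 2 + 1) := by nlinarith [mul_nonneg (sq_nonneg δ) (by linarith : (0 : ℝ) ≤ 1 - 2 * δ)]
  have h5 : 1 ≤ (1 - δ) * Real.exp (δ + 2 * δ ^ 2) :=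
    h4.trans (mul_le_mul_of_nonneg_left h2 h3.le)
  rw [Real.exp_neg, inv_le_comm₀ (Real.exp_pos _) h3, inv_le_iff_one_le_mul₀ h3]
  rwa [mul_comm] at h5

/-- The estimate of the exponent. -/
private theorem main {e k q s₀ s Δ : ℝ} (e0 : 0 < e) (k1 : 1 ≤ k) (hk : 32 ≤ k * e ^ 3)
    (hq : 0 < q) (hqe : 8 * k ^ 2 * Δ ≤ e * q) (hx : s₀ ≤ 2 * q) (hΔ : 0 ≤ Δ)
    (hs : s ≤ k ^ 2 * (s₀ / q - e)) :
    (e / 8 + 2 * (e / 8) ^ 2) * s - k ^ 2 / q * (e / 8) * (s₀ - s * Δ) ≤ -(1 / e) := by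
  have k0 : 0 < k := by linarith
  have hk2 : 0 < k ^ 2 := by positivity
  have hx2 : s₀ / q ≤ 2 := by rwa [div_le_iff₀ hq]
  have s2 : s ≤ 2 * k ^ 2 := by nlinarith
  have h1 : k ^ 2 / q * Δ ≤ e / 8 := by
    rw [div_mul_eq_mul_div, div_le_iff₀ hq]
    linarith
  have h2 : k ^ 2 / q * (e / 8) * (s₀ - s * Δ) =
      e / 8 * (k ^ 2 * (s₀ / q)) - e / 8 * s * (k ^ 2 / q * Δ) := by
    field_simp
  have h3 : e / 8 * s * (k ^ 2 / q * Δ) ≤ e / 8 * (2 * k ^ 2) * (e / 8) := by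
    apply mul_le_mul _ h1 (by positivity) (by positivity)
    exact mul_le_mul_of_nonneg_left s2 (by positivity)
  have h4 : 2 * (e / 8) ^ 2 * s ≤ 2 * (e / 8) ^ 2 * (2 * k ^ 2) :=
    mul_le_mul_of_nonneg_left s2 (by positivity)
  have h5 : e / 8 * s ≤ e / 8 * (k ^ 2 * (s₀ / q) - k ^ 2 * e) := by
    refine mul_le_mul_of_nonneg_left ?_ (by positivity)
    linarith
  have h6 : 1 / e ≤ e ^ 2 * k ^ 2 / 32 := by
    rw [div_le_iff₀ e0]
    have h7 : k * e ^ 3 ≤ k ^ 2 * e ^ 3 := by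
      refine mul_le_mul_of_nonneg_right ?_ (by positivity)
      nlinarith
    nlinarith
  rw [h2]
  nlinarith

end C56CovNum

open C56CovNum

/-- The numbers of the covering lemma. -/
theorem covNum : CovNumStmt := by
  intro ε Δ hε
  obtain ⟨e, he⟩ : ∃ e : ℝ, e = min ε 1 / 8 := ⟨_, rfl⟩
  have hm0 : 0 < min ε 1 := lt_min hε one_pos
  have e0 : 0 < e := by rw [he]; positivity
  have e1 : e ≤ 1 / 8 := by
    have := min_le_right ε 1
    rw [he]; linarith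
  have e2 : 8 * e ≤ ε := by
    have := min_le_left ε 1
    rw [he]; linarith
  obtain ⟨k, hk⟩ := exists_nat_ge (32 / e ^ 3)
  have he3 : 0 < e ^ 3 := by positivity
  have hk' : 32 ≤ (k : ℝ) * e ^ 3 := by rwa [div_le_iff₀ he3] at hk
  have e31 : e ^ 3 ≤ 1 := pow_le_one₀ e0.le (by linarith)
  have k1 : (1 : ℝ) ≤ k := by
    by_contra hc
    push Not at hc
    have : (k : ℝ) * e ^ 3 ≤ 1 := mul_le_one₀ hc.le he3.le e31
    linarith
  have k1' : 1 ≤ k := by exact_mod_cast k1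
  obtain ⟨m, hm⟩ := exists_nat_ge (8 * (k : ℝ) ^ 2 * Δ / e)
  rw [div_le_iff₀ e0] at hm
  refine ⟨k ^ 2, max m (k ^ 2), Nat.one_le_pow _ _ k1', le_max_right _ _,
    fun q s₀ hq hs => ?_⟩
  have hqm : (m : ℝ) ≤ q := by exact_mod_cast (le_max_left _ _).trans hq
  have hqk : (k : ℝ) ^ 2 ≤ q := by exact_mod_cast (le_max_right _ _).trans hq
  have hk2 : (1 : ℝ) ≤ (k : ℝ) ^ 2 := one_le_pow₀ k1
  have hq0 : (0 : ℝ) < q := by linarith
  have hqe : 8 * (k : ℝ) ^ 2 * Δ ≤ e * q := by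
    have : (m : ℝ) * e ≤ q * e := mul_le_mul_of_nonneg_right hqm e0.le
    linarith
  have hs' : (s₀ : ℝ) ≤ 2 * q := by exact_mod_cast hs
  have hΔ : (0 : ℝ) ≤ Δ := Nat.cast_nonneg Δ
  refine ⟨⌊(k : ℝ) ^ 2 * ((s₀ : ℝ) / q - e)⌋₊, 1 - e / 8, k, by linarith, by linarith,
    by linarith, ?_, fun ζ => ?_⟩
  · rcases Nat.eq_zero_or_pos ⌊(k : ℝ) ^ 2 * ((s₀ : ℝ) / q - e)⌋₊ with h0 | h0
    · exact Or.inl h0
    · refine Or.inr ?_
      have hpos : 0 < (k : ℝ) ^ 2 * ((s₀ : ℝ) / q - e) := Nat.pos_of_floor_pos h0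
      have hfl := Nat.floor_le hpos.le
      obtain ⟨s, hsd⟩ : ∃ s, s = ⌊(k : ℝ) ^ 2 * ((s₀ : ℝ) / q - e)⌋₊ := ⟨_, rfl⟩
      rw [← hsd] at hfl ⊢
      have hmain := main e0 k1 hk' hq0 hqe hs' hΔ hfl
      have hz : (1 : ℝ) - (1 - e / 8) = e / 8 := by ring
      rw [hz]
      push_cast
      have hu0 : 0 ≤ (k : ℝ) ^ 2 / q * (e / 8) := by positivity
      have hu1 : (k : ℝ) ^ 2 / q * (e / 8) ≤ 1 := by
        refine mul_le_one₀ ((div_le_one hq0).2 hqk) (by positivity) (by linarith)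
      have h1 : (1 - (k : ℝ) ^ 2 / q * (e / 8)) ^ (s₀ - s * Δ) ≤
          Real.exp (-((k : ℝ) ^ 2 / q * (e / 8) * ((s₀ : ℝ) - s * Δ))) := by
        have h2 : 1 - (k : ℝ) ^ 2 / q * (e / 8) ≤ Real.exp (-((k : ℝ) ^ 2 / q * (e / 8))) := by
          have := Real.add_one_le_exp (-((k : ℝ) ^ 2 / q * (e / 8)))
          linarith
        refine (pow_le_pow_left₀ (by linarith) h2 _).trans ?_
        rw [← Real.exp_nat_mul]
        refine Real.exp_le_exp.2 ?_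
        have h3 : (s₀ : ℝ) - s * Δ ≤ ((s₀ - s * Δ : ℕ) : ℝ) := by
          have h4 : s₀ ≤ (s₀ - s * Δ) + s * Δ := by omega
          have h5 : (s₀ : ℝ) ≤ ((s₀ - s * Δ : ℕ) : ℝ) + s * Δ := by exact_mod_cast h4
          linarith
        have h6 := mul_le_mul_of_nonneg_left h3 hu0
        linarith
      have h7 : Real.exp (-((e / 8 + 2 * (e / 8) ^ 2) * s)) ≤ (1 - e / 8) ^ s := by
        have h8 := exp_le_one_sub (δ := e / 8) (by linarith)
        have h9 := pow_le_pow_left₀ (Real.exp_pos _).le h8 s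
        rw [← Real.exp_nat_mul] at h9
        refine le_trans (le_of_eq ?_) h9
        congr 1
        ring
      have h10 : Real.exp (-((k : ℝ) ^ 2 / q * (e / 8) * ((s₀ : ℝ) - s * Δ))) =
          Real.exp ((e / 8 + 2 * (e / 8) ^ 2) * s -
            (k : ℝ) ^ 2 / q * (e / 8) * ((s₀ : ℝ) - s * Δ)) *
            Real.exp (-((e / 8 + 2 * (e / 8) ^ 2) * s)) := by
        rw [← Real.exp_add]
        congr 1
        ring
      refine h1.trans ?_
      rw [h10]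
      refine mul_le_mul ?_ h7 (Real.exp_pos _).le (by positivity)
      refine ((Real.exp_le_exp.2 hmain).trans (exp_inv_le e0)).trans ?_
      linarith
  · have h1 := (Nat.lt_floor_add_one ((k : ℝ) ^ 2 * ((s₀ : ℝ) / q - e))).le
    have k0 : (0 : ℝ) < k := by linarith
    have hke : (1 : ℝ) ≤ k * e := by
      have : (k : ℝ) * e ^ 3 ≤ k * e := by
        refine mul_le_mul_of_nonneg_left ?_ k0.le
        have e21 : e ^ 2 ≤ 1 := pow_le_one₀ e0.le (by linarith)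
        nlinarith
      linarith
    have hk2e : (k : ℝ) ≤ (k : ℝ) ^ 2 * e := by nlinarith
    have h2 : ((k ^ 2 : ℕ) : ℝ) / (2 * (k : ℝ)) + (k : ℝ) / 2 = k := by
      push_cast
      field_simp
      ring
    have h3 : max 0 (((k ^ 2 : ℕ) : ℝ) * ζ - (⌊(k : ℝ) ^ 2 * ((s₀ : ℝ) / q - e)⌋₊ : ℝ)) ≤
        (k : ℝ) ^ 2 * max 0 (ζ - (s₀ : ℝ) / q) + (k : ℝ) ^ 2 * e + 1 := by
      have h4 : 0 ≤ (k : ℝ) ^ 2 * max 0 (ζ - (s₀ : ℝ) / q) :=
        mul_nonneg (by positivity) (le_max_left _ _)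
      have h5 : (k : ℝ) ^ 2 * (ζ - (s₀ : ℝ) / q) ≤
          (k : ℝ) ^ 2 * max 0 (ζ - (s₀ : ℝ) / q) :=
        mul_le_mul_of_nonneg_left (le_max_right _ _) (by positivity)
      have h6 : 0 ≤ (k : ℝ) ^ 2 * e := by positivity
      refine max_le (by linarith) ?_
      push_cast
      linarith
    rw [add_assoc, h2]
    push_cast
    push_cast at h3
    have h7 : (k : ℝ) ^ 2 * (8 * e) ≤ (k : ℝ) ^ 2 * ε :=
      mul_le_mul_of_nonneg_left e2 (by positivity)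
    linarith

end Pool.Agent.Lib.MP_1818ed_co
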