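import Mathlib
import Pool.Agent.Lib.MP_1818ed_co.C56.Spec

/-!
# The decomposition (MP_1818ed_co, C56)
-/

set_option autoImplicit false

namespace Pool.Agent.Lib.MP_1818ed_co

open Finset

namespace C56Decomp

open Classical in
/-- the conclusion of `DecompStmt` -/
def Concl {V : Type} (G : SimpleGraph V) (L : ℕ) (T : Finset V) (r : ℕ) : Prop :=
  ∃ (U S W : Finset V) (aS aL : ℕ), U ⊆ T ∧ S ⊆ T ∧ W ⊆ T ∧ Disjoint U S ∧ Disjoint U W ∧
    Disjoint S W ∧ (∀ u ∈ U, ∀ v, (v ∈ U ∨ v ∈ S ∨ v ∈ W) → v ≠ u → G.Adj u v) ∧
    (∀ s ∈ S, ∀ w ∈ W, G.Adj s w) ∧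
    (∀ s ∈ S, (S.filter (fun t => t ≠ s ∧ ¬ G.Adj s t)).card ≤ L) ∧
    r + 1 = U.card + aS + aL ∧ 5 * aS ≤ 3 * S.card ∧ 5 * aL ≤ 3 * W.card ∧
    2 * L * aL ≤ (L + 1) * W.card

open Classical in
theorem concl_mono {V : Type} {G : SimpleGraph V} {L : ℕ} {T T' : Finset V} {r : ℕ} (hT : T ⊆ T')
    (h : Concl G L T r) : Concl G L T' r := by
  obtain ⟨U, S, W, aS, aL, h1, h2, h3, h4⟩ := h
  exact ⟨U, S, W, aS, aL, h1.trans hT, h2.trans hT, h3.trans hT, h4⟩

open Classical in
theorem dj {V : Type} {X Y A₁ A₂ B₁ B₂ : Finset V} (hXY : Disjoint X Y) (a1 : A₁ ⊆ X)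
    (a2 : A₂ ⊆ Y) (b1 : B₁ ⊆ X) (b2 : B₂ ⊆ Y) (h1 : Disjoint A₁ B₁) (h2 : Disjoint A₂ B₂) :
    Disjoint (A₁ ∪ A₂) (B₁ ∪ B₂) := by
  rw [Finset.disjoint_union_left, Finset.disjoint_union_right, Finset.disjoint_union_right]
  exact ⟨⟨h1, hXY.mono a1 b2⟩, ⟨(hXY.mono b1 a2).symm, h2⟩⟩

open Classical in
theorem join {V : Type} {G : SimpleGraph V} {L : ℕ} {X Y T : Finset V} {r₁ r₂ r : ℕ}
    (hXY : Disjoint X Y) (hT : X ∪ Y = T) (hadj : ∀ x ∈ X, ∀ y ∈ Y, G.Adj x y)
    (h1 : Concl G L X r₁) (h2 : Concl G L Y r₂) (hr : r + 1 = (r₁ + 1) + (r₂ + 1)) :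
    Concl G L T r := by
  obtain ⟨U₁, S₁, W₁, a₁, b₁, u1, s1, w1, us1, uw1, sw1, ad1, st1, sL1, r1, c1, d1, e1⟩ := h1
  obtain ⟨U₂, S₂, W₂, a₂, b₂, u2, s2, w2, us2, uw2, sw2, ad2, st2, sL2, r2, c2, d2, e2⟩ := h2
  have hXT : X ⊆ T := hT ▸ Finset.subset_union_left
  have hYT : Y ⊆ T := hT ▸ Finset.subset_union_right
  have kU : (U₁ ∪ U₂).card = U₁.card + U₂.card := Finset.card_union_of_disjoint (hXY.mono u1 u2)
  have kS : (S₁ ∪ S₂).card = S₁.card + S₂.card := Finset.card_union_of_disjoint (hXY.mono s1 s2)
  have kW : (W₁ ∪ W₂).card = W₁.card + W₂.card := Finset.card_union_of_disjoint (hXY.mono w1 w2)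
  refine ⟨U₁ ∪ U₂, S₁ ∪ S₂, W₁ ∪ W₂, a₁ + a₂, b₁ + b₂,
    Finset.union_subset (u1.trans hXT) (u2.trans hYT),
    Finset.union_subset (s1.trans hXT) (s2.trans hYT),
    Finset.union_subset (w1.trans hXT) (w2.trans hYT),
    dj hXY u1 u2 s1 s2 us1 us2, dj hXY u1 u2 w1 w2 uw1 uw2, dj hXY s1 s2 w1 w2 sw1 sw2,
    ?_, ?_, ?_, ?_, ?_, ?_, ?_⟩
  · intro u hu v hv hne
    rw [Finset.mem_union] at hu
    rw [Finset.mem_union, Finset.mem_union, Finset.mem_union] at hv
    rcases hu with hu | hu
    · rcases hv with (hv | hv) | (hv | hv) | (hv | hv)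
      · exact ad1 u hu v (Or.inl hv) hne
      · exact hadj u (u1 hu) v (u2 hv)
      · exact ad1 u hu v (Or.inr (Or.inl hv)) hne
      · exact hadj u (u1 hu) v (s2 hv)
      · exact ad1 u hu v (Or.inr (Or.inr hv)) hne
      · exact hadj u (u1 hu) v (w2 hv)
    · rcases hv with (hv | hv) | (hv | hv) | (hv | hv)
      · exact (hadj v (u1 hv) u (u2 hu)).symm
      · exact ad2 u hu v (Or.inl hv) hne
      · exact (hadj v (s1 hv) u (u2 hu)).symm
      · exact ad2 u hu v (Or.inr (Or.inl hv)) hne
      · exact (hadj v (w1 hv) u (u2 hu)).symm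
      · exact ad2 u hu v (Or.inr (Or.inr hv)) hne
  · intro s hs w hw
    rw [Finset.mem_union] at hs hw
    rcases hs with hs | hs <;> rcases hw with hw | hw
    · exact st1 s hs w hw
    · exact hadj s (s1 hs) w (w2 hw)
    · exact (hadj w (w1 hw) s (s2 hs)).symm
    · exact st2 s hs w hw
  · intro s hs
    rw [Finset.mem_union] at hs
    rcases hs with hs | hs
    · refine (Finset.card_le_card ?_).trans (sL1 s hs)
      intro t ht
      rw [Finset.mem_filter, Finset.mem_union] at ht
      rw [Finset.mem_filter]
      refine ⟨?_, ht.2⟩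
      rcases ht.1 with h | h
      · exact h
      · exact absurd (hadj s (s1 hs) t (s2 h)) ht.2.2
    · refine (Finset.card_le_card ?_).trans (sL2 s hs)
      intro t ht
      rw [Finset.mem_filter, Finset.mem_union] at ht
      rw [Finset.mem_filter]
      refine ⟨?_, ht.2⟩
      rcases ht.1 with h | h
      · exact absurd (hadj t (s1 h) s (s2 hs)).symm ht.2.2
      · exact h
  · rw [kU]; omega
  · rw [kS]; omega
  · rw [kW]; omega
  · rw [kW, mul_add, mul_add]
    exact Nat.add_le_add e1 e2

open Classical in
theorem main (h1 : GallaiStmt) {V : Type} [Fintype V] (G : SimpleGraph V) (L : ℕ) :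
    ∀ (n : ℕ) (T : Finset V), T.card = n → ∀ r : ℕ, ¬ Col G T r → Concl G L T r := by
  intro n
  induction n using Nat.strong_induction_on with
  | _ n ih =>
    intro T hn r hT
    by_cases hcrit : ∀ v ∈ T, Col G (T.erase v) r
    swap
    · push Not at hcrit
      obtain ⟨v, hv, hc⟩ := hcrit
      have h2 := Finset.card_erase_add_one hv
      exact concl_mono (Finset.erase_subset v T) (ih _ (by omega) (T.erase v) rfl r hc)
    have hne : T.Nonempty := by
      rcases T.eq_empty_or_nonempty with h0 | h0
      · rw [h0] at hT
        exact absurd (col_empty G r) hT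
      · exact h0
    by_cases hj : ∀ X Y : Finset V, X.Nonempty → Y.Nonempty → Disjoint X Y → X ∪ Y = T →
      ∃ x ∈ X, ∃ y ∈ Y, ¬ G.Adj x y
    swap
    · push Not at hj
      obtain ⟨X, Y, hX, hY, hXY, hXYT, hadj⟩ := hj
      have hex : ∃ x, Col G X x := by
        obtain ⟨y, hy⟩ := hY
        refine ⟨r, col_sub (hcrit y ?_) ?_⟩
        · rw [← hXYT]; exact Finset.mem_union_right _ hy
        · intro x hx
          rw [Finset.mem_erase]
          refine ⟨?_, ?_⟩
          · rintro rfl
            exact Finset.disjoint_left.1 hXY hx hy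
          · rw [← hXYT]; exact Finset.mem_union_left _ hx
      have hxr : Nat.find hex ≤ r := by
        refine Nat.find_min' hex ?_
        obtain ⟨y, hy⟩ := hY
        refine col_sub (hcrit y ?_) ?_
        · rw [← hXYT]; exact Finset.mem_union_right _ hy
        · intro x hx
          rw [Finset.mem_erase]
          refine ⟨?_, ?_⟩
          · rintro rfl
            exact Finset.disjoint_left.1 hXY hx hy
          · rw [← hXYT]; exact Finset.mem_union_left _ hx
      have hx0 : 1 ≤ Nat.find hex := by
        rw [Nat.one_le_iff_ne_zero]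
        intro h0
        obtain ⟨c, c1, _⟩ := Nat.find_spec hex
        rw [h0] at c1
        have c2 := Finset.card_eq_zero.1 (Nat.le_zero.1 c1)
        rw [Finset.image_eq_empty] at c2
        exact hX.ne_empty c2
      have hXc : ¬ Col G X (Nat.find hex - 1) := Nat.find_min hex (by omega)
      have hYc : ¬ Col G Y (r - Nat.find hex) := by
        intro h
        apply hT
        have h2 := col_union (Nat.find_spec hex) h
        rw [← hXYT]
        have h3 : Nat.find hex + (r - Nat.find hex) = r := by omega
        rw [h3] at h2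
        exact h2
      have hcard : X.card + Y.card = T.card := by
        rw [← hXYT, Finset.card_union_of_disjoint hXY]
      have hX1 := Finset.card_pos.2 hX
      have hY1 := Finset.card_pos.2 hY
      exact join hXY hXYT hadj (ih _ (by omega) X rfl _ hXc) (ih _ (by omega) Y rfl _ hYc)
        (by omega)
    · have hg : 2 * r + 1 ≤ T.card := h1 V G T r hj hT hcrit
      have hT1 := Finset.card_pos.2 hne
      by_cases hc1 : T.card = 1
      · refine ⟨T, ∅, ∅, 0, 0, subset_rfl, Finset.empty_subset _, Finset.empty_subset _,
          Finset.disjoint_empty_right _, Finset.disjoint_empty_right _,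
          Finset.disjoint_empty_right _, ?_, ?_, ?_, ?_, ?_, ?_, ?_⟩
        · intro u hu v hv hvu
          exfalso
          rcases hv with hv | hv | hv
          · exact hvu (Finset.card_le_one.1 hc1.le v hv u hu)
          · exact absurd hv (Finset.notMem_empty v)
          · exact absurd hv (Finset.notMem_empty v)
        · intro s hs
          exact absurd hs (Finset.notMem_empty s)
        · intro s hs
          exact absurd hs (Finset.notMem_empty s)
        · omega
        · omega
        · omega
        · simp
      · have hr2 : 2 ≤ r := by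
          by_contra hlt
          have hr01 : r = 0 ∨ r = 1 := by omega
          rcases hr01 with h0 | h0
          · obtain ⟨v, hv⟩ := hne
            obtain ⟨c, c1, _⟩ := hcrit v hv
            rw [h0] at c1
            have c2 := Finset.card_eq_zero.1 (Nat.le_zero.1 c1)
            rw [Finset.image_eq_empty] at c2
            have c3 := Finset.card_erase_add_one hv
            rw [c2, Finset.card_empty] at c3
            omega
          · have hxy : ∃ x ∈ T, ∃ y ∈ T, G.Adj x y := by
              by_contra hno
              push Not at hno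
              apply hT
              rw [h0]
              refine ⟨fun _ => 0, ?_, ?_⟩
              · exact (Finset.card_le_one.2 (by simp))
              · intro u hu v hv huv
                exact absurd huv (hno u hu v hv)
            obtain ⟨x, hx, y, hy, hxy⟩ := hxy
            have hTxy : ({x} : Finset V) ∪ {y} = T := by
              ext w
              rw [Finset.mem_union, Finset.mem_singleton, Finset.mem_singleton]
              constructor
              · rintro (rfl | rfl)
                · exact hx
                · exact hy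
              · intro hw
                by_contra hno
                push Not at hno
                obtain ⟨c, c1, c2⟩ := hcrit w hw
                have hx' : x ∈ T.erase w := Finset.mem_erase.2 ⟨fun h => hno.1 h.symm, hx⟩
                have hy' : y ∈ T.erase w := Finset.mem_erase.2 ⟨fun h => hno.2 h.symm, hy⟩
                rw [h0] at c1
                exact c2 x hx' y hy' hxy (Finset.card_le_one.1 c1 _
                  (Finset.mem_image_of_mem c hx') _ (Finset.mem_image_of_mem c hy'))
            obtain ⟨x', hx', y', hy', hn⟩ := hj {x} {y} (Finset.singleton_nonempty x)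
              (Finset.singleton_nonempty y) (Finset.disjoint_singleton.2 hxy.ne) hTxy
            rw [Finset.mem_singleton] at hx' hy'
            rw [hx', hy'] at hn
            exact hn hxy
        have h5 : 5 * (r + 1) ≤ 3 * T.card := by omega
        by_cases hL : T.card ≤ L
        · refine ⟨∅, T, ∅, r + 1, 0, Finset.empty_subset _, subset_rfl, Finset.empty_subset _,
            Finset.disjoint_empty_left _, Finset.disjoint_empty_left _,
            Finset.disjoint_empty_right _, ?_, ?_, ?_, ?_, h5, ?_, ?_⟩
          · intro u hu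
            exact absurd hu (Finset.notMem_empty u)
          · intro s _ w hw
            exact absurd hw (Finset.notMem_empty w)
          · intro s _
            exact (Finset.card_filter_le _ _).trans hL
          · rw [Finset.card_empty]; omega
          · omega
          · simp
        · refine ⟨∅, ∅, T, 0, r + 1, Finset.empty_subset _, Finset.empty_subset _, subset_rfl,
            Finset.disjoint_empty_left _, Finset.disjoint_empty_left _,
            Finset.disjoint_empty_left _, ?_, ?_, ?_, ?_, ?_, h5, ?_⟩
          · intro u hu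
            exact absurd hu (Finset.notMem_empty u)
          · intro s hs
            exact absurd hs (Finset.notMem_empty s)
          · intro s hs
            exact absurd hs (Finset.notMem_empty s)
          · rw [Finset.card_empty]; omega
          · omega
          · have h6 : L * (2 * (r + 1)) ≤ L * (T.card + 1) := Nat.mul_le_mul_left L (by omega)
            push Not at hL
            calc 2 * L * (r + 1) = L * (2 * (r + 1)) := by ring
              _ ≤ L * (T.card + 1) := h6
              _ = L * T.card + L := by ring
              _ ≤ L * T.card + T.card := Nat.add_le_add_left hL.le _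
              _ = (L + 1) * T.card := by ring

end C56Decomp

theorem decomp (h1 : GallaiStmt) : DecompStmt := by
  intro V _ G L T r hT
  exact C56Decomp.main h1 G L _ T rfl r hT

end Pool.Agent.Lib.MP_1818ed_co
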