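import Mathlib
import Pool.Agent.Lib.MP_1818ed_co.C56.Spec

/-!
# Two bounds for the exponential function
-/

set_option autoImplicit false

namespace Pool.Agent.Lib.MP_1818ed_co

open Finset

namespace C56Exp

private theorem conv (l a : ℝ) (h0 : 0 ≤ l) (h1 : l ≤ 1) :
    Real.exp (l * a) ≤ l * Real.exp a + (1 - l) := by
  have h := convexOn_exp.2 (Set.mem_univ a) (Set.mem_univ 0) h0 (sub_nonneg.2 h1)
    (add_sub_cancel l 1)
  simp only [smul_eq_mul, mul_zero, add_zero, Real.exp_zero, mul_one] at h
  exact h

private theorem num : Real.exp (-(1572 / 1000)) ≤ 208498 / 1000000 := by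
  have h1 : (480 / 100 : ℝ) ≤ Real.exp (1572 / 1000) := by
    refine le_trans ?_ (Real.sum_le_exp_of_nonneg (x := (1572 / 1000 : ℝ)) (by norm_num) 7)
    simp only [Finset.sum_range_succ, Finset.sum_range_zero, Nat.factorial]
    norm_num
  rw [Real.exp_neg]
  refine (inv_anti₀ (by norm_num) h1).trans ?_
  norm_num

end C56Exp

theorem expB : ExpStmt := by
  constructor
  · intro x h0 h1
    have h := C56Exp.conv (x / (786 / 1000)) (-(1572 / 1000)) (by positivity)
      ((div_le_one (by norm_num)).2 h1)
    have e : x / (786 / 1000) * (-(1572 / 1000)) = -(2 * x) := by ring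
    rw [e] at h
    have h2 : x / (786 / 1000) * Real.exp (-(1572 / 1000)) ≤
        x / (786 / 1000) * (208498 / 1000000) :=
      mul_le_mul_of_nonneg_left C56Exp.num (by positivity)
    have h3 : x / (786 / 1000) * (208498 / 1000000) + (1 - x / (786 / 1000)) =
      1 - 1007 / 1000 * x := by ring
    linarith
  · intro y h0 h1
    have h := C56Exp.conv y (-1) h0 h1
    rw [mul_neg_one] at h
    have h2 : y * Real.exp (-1) ≤ y * (37 / 100) :=
      mul_le_mul_of_nonneg_left (by have := Real.exp_neg_one_lt_d9; linarith) h0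
    linarith

end Pool.Agent.Lib.MP_1818ed_co
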