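import Mathlib
import Pool.Agent.Lib.MP_1818ed_co.C56.Spec

/-!
# Gallai's theorem for vertex sets (MP_1818ed_co, C56)
-/

set_option autoImplicit false

namespace Pool.Agent.Lib.MP_1818ed_co

open Finset

open Classical in
/-- Gallai's theorem. -/
theorem gallai (h1 : BarStmt) (h2 : HallStmt) (h3 : MatchColStmt) (h4 : JoinColStmt) :
    GallaiStmt := by
  intro V _ G T r hco hT hcrit
  by_contra hlt
  have hTr : T.card ≤ 2 * r := by omega
  have hTne : T.Nonempty := by
    by_contra h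
    rw [Finset.not_nonempty_iff_eq_empty] at h
    exact hT (by rw [h]; exact col_empty G r)
  obtain ⟨A, P, hAT, ⟨hPne, hPmem, hPsep⟩, hAP, hM⟩ := h1 V Gᶜ T
  -- basic facts on the parts
  have hPT : ∀ D ∈ P, ∀ v ∈ D, v ∈ T ∧ v ∉ A := fun D hD v hv =>
    Finset.mem_sdiff.1 ((hPmem v).2 ⟨D, hD, hv⟩)
  have hjoin : ∀ D ∈ P, ∀ E ∈ P, D ≠ E → ∀ v ∈ D, ∀ w ∈ E, G.Adj v w := by
    intro D hD E hE hDE v hv w hw
    obtain ⟨h5, h6⟩ := hPsep D hD E hE hDE v hv w hw
    by_contra h7
    exact h6 ((SimpleGraph.compl_adj G v w).2 ⟨h5, h7⟩)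
  have hdisj : ∀ D ∈ P, ∀ E ∈ P, D ≠ E → Disjoint D E := by
    intro D hD E hE hDE
    rw [Finset.disjoint_left]
    intro v hv hw
    exact (hPsep D hD E hE hDE v hv v hw).1 rfl
  have hodd : ∀ D ∈ P, Odd D.card ∧ Col G D ((D.card + 1) / 2) := by
    intro D hD
    obtain ⟨d, hd⟩ := hPne D hD
    obtain ⟨h5, h6, -⟩ := col_near hd (hM D hD d hd)
    exact ⟨h5, h6⟩
  have hcard : A.card + ∑ D ∈ P, D.card = T.card := by
    have h5 : T \ A = P.biUnion id := by
      ext v
      rw [hPmem v, Finset.mem_biUnion]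
      rfl
    have h6 : (P.biUnion id).card = ∑ D ∈ P, D.card := by
      rw [Finset.card_biUnion]
      · rfl
      · intro D hD E hE hDE
        exact hdisj D hD E hE hDE
    have h7 := Finset.card_sdiff_add_card_eq_card hAT
    rw [h5, h6] at h7
    omega
  set Nd : Finset V → Finset V := fun D => A.filter (fun a => ∃ d ∈ D, ¬ G.Adj a d) with hNd
  have hNmem : ∀ D a, a ∈ Nd D ↔ a ∈ A ∧ ∃ d ∈ D, ¬ G.Adj a d := by
    intro D a
    rw [hNd]
    exact Finset.mem_filter
  set Pt : Finset (Finset V) := P.filter (fun D => ¬ Col G D ((D.card - 1) / 2)) with hPt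
  have hPtP : Pt ⊆ P := Finset.filter_subset _ _
  have htight : ∀ D ∈ Pt, ¬ Col G D ((D.card - 1) / 2) := fun D hD => (Finset.mem_filter.1 hD).2
  rcases h2 (Finset V) V Pt Nd ⟨hTne.choose⟩ with ⟨γ, hγ, hγi⟩ | ⟨Y, hYP, hYne, g, hg, hgi⟩
  · -- case 1
    set B : Finset V := Pt.image γ with hB
    set g : V → Finset V := fun b => if h : ∃ D ∈ Pt, γ D = b then h.choose else ∅ with hgdef
    have hgs : ∀ b ∈ B, g b ∈ Pt ∧ γ (g b) = b := by
      intro b hb
      have h : ∃ D ∈ Pt, γ D = b := by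
        obtain ⟨D, hD, h⟩ := Finset.mem_image.1 hb
        exact ⟨D, hD, h⟩
      have h5 : g b = h.choose := dif_pos h
      rw [h5]
      exact h.choose_spec
    have c1 : Col G (B ∪ Pt.biUnion id) (∑ D ∈ Pt, (D.card + 1) / 2) := by
      refine h3 V G Pt B g (fun D hD => hPne D (hPtP hD)) (fun D hD => hM D (hPtP hD)) ?_ ?_
      · intro b hb
        obtain ⟨h5, h6⟩ := hgs b hb
        refine ⟨h5, ?_⟩
        have h7 := ((hNmem _ _).1 (hγ (g b) h5)).2
        rwa [h6] at h7
      · intro b hb b' hb' h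
        rw [← (hgs b hb).2, h, (hgs b' hb').2]
    have c2 : Col G ((P \ Pt).biUnion id) (∑ D ∈ P \ Pt, (D.card - 1) / 2) := by
      refine col_biUnion (P \ Pt) id _ ?_
      intro D hD
      rw [Finset.mem_sdiff] at hD
      by_contra h
      exact hD.2 (Finset.mem_filter.2 ⟨hD.1, h⟩)
    have c3 : Col G ((A \ B).biUnion (fun a => {a})) (∑ _a ∈ A \ B, 1) :=
      col_biUnion (A \ B) (fun a => {a}) (fun _ => 1) fun a _ => col_single G a
    have c4 := col_union (col_union c1 c2) c3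
    have hsub : T ⊆ B ∪ Pt.biUnion id ∪ (P \ Pt).biUnion id ∪ (A \ B).biUnion (fun a => {a}) := by
      intro v hv
      by_cases hvA : v ∈ A
      · by_cases hvB : v ∈ B
        · exact Finset.mem_union_left _ (Finset.mem_union_left _ (Finset.mem_union_left _ hvB))
        · refine Finset.mem_union_right _ (Finset.mem_biUnion.2 ⟨v, ?_, ?_⟩)
          · exact Finset.mem_sdiff.2 ⟨hvA, hvB⟩
          · exact Finset.mem_singleton_self v
      · obtain ⟨D, hD, hvD⟩ := (hPmem v).1 (Finset.mem_sdiff.2 ⟨hv, hvA⟩)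
        by_cases hDt : D ∈ Pt
        · exact Finset.mem_union_left _ (Finset.mem_union_left _ (Finset.mem_union_right _
            (Finset.mem_biUnion.2 ⟨D, hDt, hvD⟩)))
        · exact Finset.mem_union_left _ (Finset.mem_union_right _
            (Finset.mem_biUnion.2 ⟨D, Finset.mem_sdiff.2 ⟨hD, hDt⟩, hvD⟩))
    refine hT (col_mono (col_sub c4 hsub) ?_)
    have n1 : 2 * (∑ D ∈ Pt, (D.card + 1) / 2) = (∑ D ∈ Pt, D.card) + Pt.card := by
      rw [Finset.mul_sum, Finset.card_eq_sum_ones, ← Finset.sum_add_distrib]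
      refine Finset.sum_congr rfl fun D hD => ?_
      obtain ⟨k, hk⟩ := (hodd D (hPtP hD)).1
      omega
    have n2 : 2 * (∑ D ∈ P \ Pt, (D.card - 1) / 2) + (P \ Pt).card = ∑ D ∈ P \ Pt, D.card := by
      rw [Finset.mul_sum, Finset.card_eq_sum_ones, ← Finset.sum_add_distrib]
      refine Finset.sum_congr rfl fun D hD => ?_
      obtain ⟨k, hk⟩ := (hodd D (Finset.mem_sdiff.1 hD).1).1
      omega
    have n3 : (∑ _a ∈ A \ B, 1) + Pt.card = A.card := by
      have h5 : B.card = Pt.card := Finset.card_image_of_injOn fun D hD E hE h => hγi D hD E hE h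
      have h6 : B ⊆ A := by
        intro b hb
        obtain ⟨D, hD, rfl⟩ := Finset.mem_image.1 hb
        exact ((hNmem _ _).1 (hγ D hD)).1
      have h7 := Finset.card_sdiff_add_card_eq_card h6
      rw [← Finset.card_eq_sum_ones]
      omega
    have n4 : (P \ Pt).card + Pt.card = P.card := Finset.card_sdiff_add_card_eq_card hPtP
    have n5 : (∑ D ∈ P \ Pt, D.card) + ∑ D ∈ Pt, D.card = ∑ D ∈ P, D.card :=
      Finset.sum_sdiff hPtP
    omega
  · -- case 2
    set B : Finset V := Y.biUnion Nd with hB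
    have hYP' : ∀ D ∈ Y, D ∈ P := fun D hD => hPtP (hYP hD)
    have hBA : B ⊆ A := by
      intro b hb
      obtain ⟨D, _, hbD⟩ := Finset.mem_biUnion.1 hb
      exact ((hNmem _ _).1 hbD).1
    have c1 : Col G (B ∪ Y.biUnion id) (∑ D ∈ Y, (D.card + 1) / 2) := by
      refine h3 V G Y B g (fun D hD => hPne D (hYP' D hD)) (fun D hD => hM D (hYP' D hD)) ?_ hgi
      intro b hb
      obtain ⟨h5, h6⟩ := hg b hb
      exact ⟨h5, ((hNmem _ _).1 h6).2⟩
    have hfull : ∀ D ∈ Y, ∀ v ∈ D, ∀ w ∈ T \ B, w ∉ D → G.Adj v w := by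
      intro D hD v hv w hw hwD
      obtain ⟨hwT, hwB⟩ := Finset.mem_sdiff.1 hw
      by_cases hwA : w ∈ A
      · by_contra h
        apply hwB
        refine Finset.mem_biUnion.2 ⟨D, hD, (hNmem _ _).2 ⟨hwA, v, hv, fun h' => h h'.symm⟩⟩
      · obtain ⟨E, hE, hwE⟩ := (hPmem w).1 (Finset.mem_sdiff.2 ⟨hwT, hwA⟩)
        have hDE : D ≠ E := by
          rintro rfl
          exact hwD hwE
        exact hjoin D (hYP' D hD) E hE hDE v hv w hwE
    rcases B.eq_empty_or_nonempty with hB0 | ⟨b₀, hb₀⟩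
    · obtain ⟨D, hD⟩ := hYne
      have hDT : D ⊆ T := fun v hv => (hPT D (hYP' D hD) v hv).1
      have hTD : T \ D = ∅ := by
        by_contra hne
        rw [← ne_eq, ← Finset.nonempty_iff_ne_empty] at hne
        obtain ⟨x, hx, y, hy, hxy⟩ := hco D (T \ D) (hPne D (hYP' D hD)) hne
          Finset.disjoint_sdiff (Finset.union_sdiff_of_subset hDT)
        rw [Finset.mem_sdiff] at hy
        apply hxy
        refine hfull D hD x hx y ?_ hy.2
        rw [hB0, Finset.sdiff_empty]
        exact hy.1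
      have hTD' : T = D := Finset.Subset.antisymm (Finset.sdiff_eq_empty_iff_subset.1 hTD) hDT
      obtain ⟨⟨k, hk⟩, h6⟩ := hodd D (hYP' D hD)
      rw [← hTD'] at hk h6
      exact hT (col_mono h6 (by omega))
    · have hcolS : Col G (T \ B) r := by
        refine col_sub (hcrit b₀ (hAT (hBA hb₀))) ?_
        intro v hv
        rw [Finset.mem_sdiff] at hv
        refine Finset.mem_erase.2 ⟨?_, hv.1⟩
        rintro rfl
        exact hv.2 hb₀
      obtain ⟨s, hs, hscol⟩ := h4 V G (T \ B) Y (fun D => (D.card + 1) / 2) r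
        (fun D hD v hv => by
          obtain ⟨h5, h6⟩ := hPT D (hYP' D hD) v hv
          exact Finset.mem_sdiff.2 ⟨h5, fun h => h6 (hBA h)⟩)
        hfull (fun D hD E hE hDE => hdisj D (hYP' D hD) E (hYP' E hE) hDE)
        (fun D hD j hj => by
          by_contra h
          apply htight D (hYP hD)
          refine col_mono hj ?_
          obtain ⟨k, hk⟩ := (hodd D (hYP' D hD)).1
          omega) hcolS
      refine hT (col_mono (col_sub (col_union hscol c1) ?_) hs)
      intro v hv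
      by_cases hvB : v ∈ B
      · exact Finset.mem_union_right _ (Finset.mem_union_left _ hvB)
      · by_cases hvY : v ∈ Y.biUnion id
        · exact Finset.mem_union_right _ (Finset.mem_union_right _ hvY)
        · exact Finset.mem_union_left _
            (Finset.mem_sdiff.2 ⟨Finset.mem_sdiff.2 ⟨hv, hvB⟩, hvY⟩)

end Pool.Agent.Lib.MP_1818ed_co
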