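import Mathlib
import Pool.Agent.Lib.MP_1818ed_co.C56.Spec

/-!
# Hall's theorem with a minimal violator
-/

set_option autoImplicit false

namespace Pool.Agent.Lib.MP_1818ed_co

open Finset

open Classical in
private theorem hall_on {α β : Type} (Q : Finset α) (N : α → Finset β) [Nonempty β]
    (h : ∀ Z : Finset α, Z ⊆ Q → Z.card ≤ (Z.biUnion N).card) :
    ∃ γ : α → β, (∀ D ∈ Q, γ D ∈ N D) ∧ ∀ D ∈ Q, ∀ E ∈ Q, γ D = γ E → D = E := by
  have h1 : ∀ s : Finset {D // D ∈ Q}, s.card ≤ (s.biUnion fun x => N x.1).card := by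
    intro s
    have h2 := h (s.map (Function.Embedding.subtype _)) (by
      intro x hx
      obtain ⟨y, _, rfl⟩ := Finset.mem_map.1 hx
      exact y.2)
    rw [Finset.card_map] at h2
    refine h2.trans (Finset.card_le_card ?_)
    intro b hb
    obtain ⟨x, hx, hbx⟩ := Finset.mem_biUnion.1 hb
    obtain ⟨y, hy, rfl⟩ := Finset.mem_map.1 hx
    exact Finset.mem_biUnion.2 ⟨y, hy, hbx⟩
  obtain ⟨f, hf, hf2⟩ :=
    (Finset.all_card_le_biUnion_card_iff_exists_injective (fun x : {D // D ∈ Q} => N x.1)).1 h1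
  refine ⟨fun D => if hD : D ∈ Q then f ⟨D, hD⟩ else Classical.arbitrary β, ?_, ?_⟩
  · intro D hD
    beta_reduce
    rw [dif_pos hD]
    exact hf2 ⟨D, hD⟩
  · intro D hD E hE hDE
    beta_reduce at hDE
    rw [dif_pos hD, dif_pos hE] at hDE
    exact congrArg Subtype.val (hf hDE)

theorem hall : HallStmt := by
  classical
  intro α β P N hβ
  by_cases h : ∀ Z : Finset α, Z ⊆ P → Z.card ≤ (Z.biUnion N).card
  · exact Or.inl (hall_on P N h)
  · right
    push Not at h
    have hex : ∃ n : ℕ, ∃ Y : Finset α, Y ⊆ P ∧ (Y.biUnion N).card < Y.card ∧ Y.card = n := by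
      obtain ⟨Z, h1, h2⟩ := h
      exact ⟨Z.card, Z, h1, h2, rfl⟩
    obtain ⟨Y, hYP, hY, hYn⟩ := Nat.find_spec hex
    have hmin : ∀ Z : Finset α, Z ⊆ P → Z.card < Y.card → Z.card ≤ (Z.biUnion N).card := by
      intro Z hZ hZY
      by_contra hcon
      push Not at hcon
      have h1 := Nat.find_min' hex ⟨Z, hZ, hcon, rfl⟩
      omega
    have hne : Y.Nonempty := Finset.card_pos.1 (by omega)
    obtain ⟨D₀, hD₀⟩ := hne
    have hQ : Y.erase D₀ ⊆ Y := Finset.erase_subset _ _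
    have hQc := Finset.card_erase_add_one hD₀
    obtain ⟨γ, h1, h2⟩ := hall_on (Y.erase D₀) N (by
      intro Z hZ
      have h3 := Finset.card_le_card hZ
      exact hmin Z (hZ.trans (hQ.trans hYP)) (by omega))
    have himg : (Y.erase D₀).image γ = Y.biUnion N := by
      apply Finset.eq_of_subset_of_card_le
      · intro b hb
        obtain ⟨D, hD, rfl⟩ := Finset.mem_image.1 hb
        exact Finset.mem_biUnion.2 ⟨D, hQ hD, h1 D hD⟩
      · rw [Finset.card_image_of_injOn (fun D hD E hE hDE => h2 D hD E hE hDE)]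
        omega
    have hg : ∀ b : β, ∃ D : α, b ∈ Y.biUnion N → D ∈ Y.erase D₀ ∧ γ D = b := by
      intro b
      by_cases hb : b ∈ Y.biUnion N
      · rw [← himg] at hb
        obtain ⟨D, hD, hDb⟩ := Finset.mem_image.1 hb
        exact ⟨D, fun _ => ⟨hD, hDb⟩⟩
      · exact ⟨D₀, fun h => absurd h hb⟩
    choose g hg using hg
    refine ⟨Y, hYP, ⟨D₀, hD₀⟩, g, ?_, ?_⟩
    · intro b hb
      obtain ⟨h3, h4⟩ := hg b hb
      refine ⟨hQ h3, ?_⟩
      have h5 := h1 (g b) h3
      rwa [h4] at h5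
    · intro b hb b' hb' hbb
      rw [← (hg b hb).2, ← (hg b' hb').2, hbb]

end Pool.Agent.Lib.MP_1818ed_co
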