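import Mathlib
import Pool.Agent.Lib.MP_1818ed_co.C56.Spec

/-!
# Colours of completely joined parts
-/

set_option autoImplicit false

namespace Pool.Agent.Lib.MP_1818ed_co

open Finset

theorem joinCol : JoinColStmt := by
  classical
  intro V _ G S Y k r hYS hadj hdis hk hS
  obtain ⟨c, hc, hc2⟩ := hS
  refine ⟨((S \ Y.biUnion id).image c).card, ?_, c, le_rfl,
    fun u hu v hv => hc2 u (Finset.mem_sdiff.1 hu).1 v (Finset.mem_sdiff.1 hv).1⟩
  have h1 : ∑ D ∈ Y, k D ≤ ∑ D ∈ Y, (D.image c).card :=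
    Finset.sum_le_sum fun D hD => hk D hD _
      ⟨c, le_rfl, fun u hu v hv => hc2 u (hYS D hD hu) v (hYS D hD hv)⟩
  have h2 : (Y.biUnion fun D => D.image c).card = ∑ D ∈ Y, (D.image c).card := by
    apply Finset.card_biUnion
    intro D hD E hE hDE
    change Disjoint (D.image c) (E.image c)
    rw [Finset.disjoint_left]
    intro x hx hx'
    obtain ⟨u, hu, rfl⟩ := Finset.mem_image.1 hx
    obtain ⟨v, hv, hvu⟩ := Finset.mem_image.1 hx'
    have h3 : v ∉ D := fun h => (Finset.disjoint_left.1 (hdis D hD E hE hDE)) h hv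
    exact hc2 u (hYS D hD hu) v (hYS E hE hv) (hadj D hD u hu v (hYS E hE hv) h3) hvu.symm
  have h3 : Disjoint ((S \ Y.biUnion id).image c) (Y.biUnion fun D => D.image c) := by
    rw [Finset.disjoint_left]
    intro x hx hx'
    obtain ⟨u, hu, rfl⟩ := Finset.mem_image.1 hx
    obtain ⟨D, hD, hx2⟩ := Finset.mem_biUnion.1 hx'
    obtain ⟨v, hv, hvu⟩ := Finset.mem_image.1 hx2
    obtain ⟨huS, huY⟩ := Finset.mem_sdiff.1 hu
    have h4 : u ∉ D := fun h => huY (Finset.mem_biUnion.2 ⟨D, hD, h⟩)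
    exact hc2 v (hYS D hD hv) u huS (hadj D hD v hv u huS h4) hvu
  have h4 : ((S \ Y.biUnion id).image c ∪ Y.biUnion fun D => D.image c) ⊆ S.image c := by
    intro x hx
    rcases Finset.mem_union.1 hx with hx | hx
    · obtain ⟨u, hu, rfl⟩ := Finset.mem_image.1 hx
      exact Finset.mem_image_of_mem c (Finset.mem_sdiff.1 hu).1
    · obtain ⟨D, hD, hx2⟩ := Finset.mem_biUnion.1 hx
      obtain ⟨v, hv, rfl⟩ := Finset.mem_image.1 hx2
      exact Finset.mem_image_of_mem c (hYS D hD hv)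
  have h5 := Finset.card_le_card h4
  rw [Finset.card_union_of_disjoint h3, h2] at h5
  omega

end Pool.Agent.Lib.MP_1818ed_co
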