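import Mathlib
import Pool.Agent.Lib.MP_1818ed_co.C56.Spec

/-! The main theorem for graphs with `χ(G) ≥ (14/25) n`. -/

set_option autoImplicit false

namespace Pool.Agent.Lib.MP_1818ed_co

open Finset

namespace C56Main

theorem win_zero {V : Type} (G : SimpleGraph V) (v₀ : V) : Win G (Fin 0) :=
  ⟨fun v c => c v, fun v c _ _ => (c v).elim0, fun c => (c v₀).elim0⟩

theorem win_zmod (h1 : ColorsStmt) {V : Type} (G : SimpleGraph V) (n : ℕ) [NeZero n]
    (h : Win G (ZMod n)) : Win G (Fin n) := by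
  have e : Fin n ≃ ZMod n := Fintype.equivOfCardEq (by rw [Fintype.card_fin, ZMod.card])
  exact h1 V (ZMod n) (Fin n) G e ⟨⟨0, Nat.pos_of_ne_zero (NeZero.ne n)⟩⟩ e.injective h

open Classical in
theorem ncard_eq {V : Type} (G : SimpleGraph V) (S : Finset V) (s : V) :
    {t | t ∈ S ∧ t ≠ s ∧ ¬ G.Adj s t}.ncard =
      (S.filter (fun t => t ≠ s ∧ ¬ G.Adj s t)).card := by
  rw [← Set.ncard_coe_finset]
  congr 1
  ext t
  simp only [Set.mem_setOf_eq, Finset.coe_filter]

end C56Main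

theorem main56 (h1 : ColorsStmt) (h2 : DecompStmt) (h3 : WinStmt) : Main56Stmt := by
  classical
  obtain ⟨q₀, hwin⟩ := h3
  refine ⟨2 * q₀ + 1, ?_⟩
  intro V _ G hn hχ q hq
  by_contra hcol
  obtain ⟨v₀⟩ : Nonempty V := by
    rw [← Fintype.card_pos_iff]
    omega
  have hq0 : q ≠ 0 := by
    rintro rfl
    exact hq (C56Main.win_zero G v₀)
  have hex : ∃ r, G.Colorable r := ⟨_, G.colorable_of_fintype⟩
  obtain ⟨χ, hχc, hχmin⟩ : ∃ χ, G.Colorable χ ∧ ∀ r, G.Colorable r → χ ≤ r :=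
    ⟨Nat.find hex, Nat.find_spec hex, fun r hr => Nat.find_min' hex hr⟩
  have h4n := hχ χ hχc
  have hqχ : q ≤ χ := by
    by_contra hcon
    exact hcol (hχc.mono (by omega))
  have hχ0 : χ ≠ 0 := by omega
  have : NeZero χ := ⟨hχ0⟩
  have hqq : q₀ ≤ χ := by omega
  -- it is enough to win with `χ` colours
  suffices hw : Win G (ZMod χ) by
    refine hq (h1 V (Fin χ) (Fin q) G (Fin.castLE hqχ) ⟨⟨0, Nat.pos_of_ne_zero hq0⟩⟩ ?_
      (C56Main.win_zmod h1 G χ hw))
    exact Fin.castLE_injective hqχ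
  have hnot : ¬ Col G univ (χ - 1) := by
    intro h
    have := hχmin _ ((col_univ G (χ - 1)).1 h)
    omega
  obtain ⟨U, S, W, aS, aL, -, -, -, dUS, dUW, dSW, hU, hSW, hS, hr, hb, hc, hd⟩ :=
    h2 V G (10 ^ 4) univ (χ - 1) hnot
  have hcard : U.card + S.card + W.card ≤ Fintype.card V := by
    rw [← Finset.card_union_of_disjoint dUS, ← Finset.card_union_of_disjoint
      (Finset.disjoint_union_left.2 ⟨dUW, dSW⟩)]
    exact Finset.card_le_univ _
  refine hwin V G U S W χ aS aL (Fintype.card V) hqq dUS dUW dSW hU hSW ?_ (by omega) hb hc hd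
    hcard h4n
  intro s hs
  rw [C56Main.ncard_eq]
  have h := hS s hs
  convert h using 2

end Pool.Agent.Lib.MP_1818ed_co
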