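import Mathlib
import Pool.Agent.Lib.MP_1818ed_co.C56.Spec

/-!
# Second version of the end of the proof (MP_1818ed_co)

THEOREM (`MainJStmt`). There is `q₀` such that every graph with `χ(G) ≥ q₀` which has at most
`(25/14) χ(G)` vertices or contains at least `(3/14) χ(G)` vertices that are adjacent to all other
vertices satisfies `χ(G) ≤ HG(G)`.
-/

set_option autoImplicit false

namespace Pool.Agent.Lib.MP_1818ed_co

open Finset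

/-- THE NUMBERS in the case `a > (3/5) q`. As `NumCStmt`, with the bounds `q ≤ 100 m` and
`1000 aL ≤ 786 q` as hypotheses. -/
def NumDStmt : Prop :=
  ∀ m aS aL s₀ w q : ℕ, q = m + (aS + aL) → 1 ≤ q → q ≤ 100 * m → 1000 * aL ≤ 786 * q →
    5 * aS ≤ 3 * s₀ → 2 * 10 ^ 4 * aL ≤ (10 ^ 4 + 1) * w → 3 * q < 5 * (aS + aL) →
      (1 + 1 / 500 : ℝ) * ((aS + aL : ℕ) : ℝ) ≤
        (1 - (max 0 ((1 - 1 / (q : ℝ)) ^ w - (s₀ : ℝ) / (q : ℝ)) + 1 / 1000)) * (q : ℝ)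

/-- THE NUMBERS for `14 n ≤ 25 q`. -/
def NumEStmt : Prop :=
  ∀ m aS aL s₀ w n q : ℕ, q = m + (aS + aL) → 1 ≤ q → 14 * n ≤ 25 * q → m + s₀ + w ≤ n →
    5 * aS ≤ 3 * s₀ → 2 * 10 ^ 4 * aL ≤ (10 ^ 4 + 1) * w → 999 * (m + s₀) < 1000 * q →
    q ≤ 100 * m ∧ 1000 * aL ≤ 786 * q

/-- A graph with a decomposition wins if the clique `U` is not too small and `aL` is not too large. -/
def WinJStmt : Prop :=
  ∃ q₀ : ℕ, ∀ (V : Type) [Fintype V] (G : SimpleGraph V) (U S W : Finset V) (q aS aL : ℕ)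
    [NeZero q], q₀ ≤ q → Disjoint U S → Disjoint U W → Disjoint S W →
    (∀ u ∈ U, ∀ v, (v ∈ U ∨ v ∈ S ∨ v ∈ W) → v ≠ u → G.Adj u v) →
    (∀ s ∈ S, ∀ w ∈ W, G.Adj s w) →
    (∀ s ∈ S, {t | t ∈ S ∧ t ≠ s ∧ ¬ G.Adj s t}.ncard ≤ 10 ^ 4) →
    q = U.card + (aS + aL) → 5 * aS ≤ 3 * S.card → 5 * aL ≤ 3 * W.card →
    2 * 10 ^ 4 * aL ≤ (10 ^ 4 + 1) * W.card → q ≤ 100 * U.card → 1000 * aL ≤ 786 * q →
    Win G (ZMod q)

/-- A DENSE graph wins. -/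
def WinAStmt : Prop :=
  ∃ q₀ : ℕ, ∀ (V : Type) [Fintype V] (G : SimpleGraph V) (U S : Finset V) (q : ℕ)
    [NeZero q], q₀ ≤ q → Disjoint U S →
    (∀ u ∈ U, ∀ v, (v ∈ U ∨ v ∈ S) → v ≠ u → G.Adj u v) →
    (∀ s ∈ S, {t | t ∈ S ∧ t ≠ s ∧ ¬ G.Adj s t}.ncard ≤ 10 ^ 4) →
    1000 * q ≤ 999 * (U.card + S.card) → Win G (ZMod q)

/-- MAIN THEOREM. `χ` is the chromatic number of `G`. -/
def MainJStmt : Prop :=
  ∃ q₀ : ℕ, ∀ (V : Type) [Fintype V] (G : SimpleGraph V) (χ : ℕ), q₀ ≤ χ → G.Colorable χ →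
    ¬ G.Colorable (χ - 1) →
    (14 * Fintype.card V ≤ 25 * χ ∨ ∃ U : Finset V, 3 * χ ≤ 14 * U.card ∧ Univ G U) →
    Win G (Fin χ)

end Pool.Agent.Lib.MP_1818ed_co
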