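import Mathlib
import Pool.Agent.Lib.MP_1818ed_co.C56.Spec2
import Pool.Agent.Lib.MP_1818ed_co.Main45

/-! The main theorem, second version. -/

set_option autoImplicit false

namespace Pool.Agent.Lib.MP_1818ed_co

open Finset

namespace C56MainJ

open Classical in
theorem ncard_eq {V : Type} (G : SimpleGraph V) (S : Finset V) (s : V) :
    {t | t ∈ S ∧ t ≠ s ∧ ¬ G.Adj s t}.ncard =
      (S.filter (fun t => t ≠ s ∧ ¬ G.Adj s t)).card := by
  rw [← Set.ncard_coe_finset]
  congr 1
  ext t
  simp

theorem col_card {V : Type} [Fintype V] (G : SimpleGraph V) (S : Finset V) :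
    Col G S S.card := by
  refine ⟨fun v => (Fintype.equivFin V v : ℕ), Finset.card_image_le, ?_⟩
  intro u _ v _ huv h
  exact huv.ne ((Fintype.equivFin V).injective (Fin.ext h))

end C56MainJ

open C56MainJ in
theorem mainJ (h1 : ColorsStmt) (h2 : GraphStmt) (h3 : HelperStmt) (h4 : DecompStmt)
    (h5 : WinJStmt) (h6 : WinAStmt) (h7 : NumEStmt) : MainJStmt := by
  classical
  obtain ⟨q₁, hwin⟩ := h5
  obtain ⟨q₂, hwinA⟩ := h6
  refine ⟨max 1 (max q₁ q₂), ?_⟩
  intro V _ G χ hχ hcol hncol hor
  have hχ1 : 1 ≤ χ := (le_max_left _ _).trans hχ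
  have hq1 : q₁ ≤ χ := ((le_max_left _ _).trans (le_max_right _ _)).trans hχ
  have hq2 : q₂ ≤ χ := ((le_max_right _ _).trans (le_max_right _ _)).trans hχ
  have : NeZero χ := ⟨by omega⟩
  refine main45_win_zmod h1 G χ ?_
  have hnot : ¬ Col G univ (χ - 1) := fun h => hncol ((col_univ G (χ - 1)).1 h)
  rcases hor with hn | ⟨U₀, hU₀, huniv⟩
  · obtain ⟨U, S, W, aS, aL, -, -, -, dUS, dUW, dSW, hU, hSW, hS, hr, hb, hc, hd⟩ :=
      h4 V G (10 ^ 4) univ (χ - 1) hnot
    have hcard : U.card + S.card + W.card ≤ Fintype.card V := by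
      rw [← Finset.card_union_of_disjoint dUS, ← Finset.card_union_of_disjoint
        (Finset.disjoint_union_left.2 ⟨dUW, dSW⟩)]
      exact Finset.card_le_univ _
    have hS' : ∀ s ∈ S, {t | t ∈ S ∧ t ≠ s ∧ ¬ G.Adj s t}.ncard ≤ 10 ^ 4 := by
      intro s hs
      rw [ncard_eq]
      have h := hS s hs
      convert h using 2
    by_cases hA : 1000 * χ ≤ 999 * (U.card + S.card)
    · refine hwinA V G U S χ hq2 dUS ?_ hS' hA
      intro u hu v hv hvu
      refine hU u hu v ?_ hvu
      rcases hv with h | h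
      · exact Or.inl h
      · exact Or.inr (Or.inl h)
    · push Not at hA
      obtain ⟨e1, e2⟩ := h7 U.card aS aL S.card W.card (Fintype.card V) χ (by omega) hχ1 hn hcard
        hb hd hA
      exact hwin V G U S W χ aS aL hq1 dUS dUW dSW hU hSW hS' (by omega) hb hc hd e1 e2
  · by_cases hUχ : χ ≤ U₀.card
    · refine main45_clique h2 h3 G U₀ χ hUχ ?_
      intro u hu v _ hvu
      exact huniv u hu v hvu
    · push Not at hUχ
      have hnot' : ¬ Col G (univ \ U₀) (χ - 1 - U₀.card) := by
        intro h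
        apply hnot
        have h8 := col_union (col_card G U₀) h
        have h9 : U₀ ∪ univ \ U₀ = univ := by
          ext x
          by_cases hx : x ∈ U₀ <;> simp [hx]
        have h10 : Col G univ (U₀.card + (χ - 1 - U₀.card)) := by
          convert h8 using 1
          convert h9.symm using 1
        exact col_mono h10 (by omega)
      obtain ⟨U, S, W, aS, aL, tU, tS, tW, dUS, dUW, dSW, hU, hSW, hS, hr, hb, hc, hd⟩ :=
        h4 V G (10 ^ 4) (univ \ U₀) (χ - 1 - U₀.card) hnot'
      have hS' : ∀ s ∈ S, {t | t ∈ S ∧ t ≠ s ∧ ¬ G.Adj s t}.ncard ≤ 10 ^ 4 := by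
        intro s hs
        rw [ncard_eq]
        have h := hS s hs
        convert h using 2
      have dU : ∀ A : Finset V, A ⊆ univ \ U₀ → Disjoint U₀ A := by
        intro A hA
        rw [Finset.disjoint_left]
        intro x hx hxA
        exact (Finset.mem_sdiff.1 (hA hxA)).2 hx
      have hcU : (U₀ ∪ U).card = U₀.card + U.card := Finset.card_union_of_disjoint (dU U tU)
      refine hwin V G (U₀ ∪ U) S W χ aS aL hq1 (Finset.disjoint_union_left.2 ⟨dU S tS, dUS⟩)
        (Finset.disjoint_union_left.2 ⟨dU W tW, dUW⟩) dSW ?_ hSW hS' (by omega) hb hc hd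
        (by omega) (by omega)
      intro u hu v hv hvu
      rcases Finset.mem_union.1 hu with h | h
      · exact huniv u h v hvu
      · rcases hv with hv | hv
        · rcases Finset.mem_union.1 hv with h' | h'
          · exact (huniv v h' u hvu.symm).symm
          · exact hU u h v (Or.inl h') hvu
        · exact hU u h v (Or.inr hv) hvu

end Pool.Agent.Lib.MP_1818ed_co
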