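import Mathlib
import Pool.Agent.Lib.MP_1818ed_co.C56.Spec

/-!
# Colouring with the matchings
-/

set_option autoImplicit false

namespace Pool.Agent.Lib.MP_1818ed_co

open Finset

theorem matchCol : MatchColStmt := by
  classical
  intro V _ G Y B g hne hM hB hinj
  have hcol : ∀ D ∈ Y, Col G (D ∪ B.filter (fun b => g b = D)) ((D.card + 1) / 2) := by
    intro D hD
    by_cases h : ∃ b ∈ B, g b = D
    · obtain ⟨b, hb, hbD⟩ := h
      obtain ⟨-, d, hd, hbd⟩ := hB b hb
      rw [hbD] at hd
      obtain ⟨-, -, h1⟩ := col_near hd (hM D hD d hd)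
      refine col_sub (h1 b hbd) ?_
      intro v hv
      rcases Finset.mem_union.1 hv with hv | hv
      · exact Finset.mem_insert_of_mem hv
      · obtain ⟨hvB, hvD⟩ := Finset.mem_filter.1 hv
        rw [hinj v hvB b hb (by rw [hvD, hbD])]
        exact Finset.mem_insert_self _ _
    · obtain ⟨d, hd⟩ := hne D hD
      obtain ⟨-, h1, -⟩ := col_near hd (hM D hD d hd)
      refine col_sub h1 ?_
      intro v hv
      rcases Finset.mem_union.1 hv with hv | hv
      · exact hv
      · obtain ⟨hvB, hvD⟩ := Finset.mem_filter.1 hv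
        exact absurd ⟨v, hvB, hvD⟩ h
  refine col_sub (col_biUnion Y (fun D => D ∪ B.filter (fun b => g b = D)) _ hcol) ?_
  intro v hv
  rcases Finset.mem_union.1 hv with hv | hv
  · exact Finset.mem_biUnion.2 ⟨g v, (hB v hv).1,
      Finset.mem_union_right _ (Finset.mem_filter.2 ⟨hv, rfl⟩)⟩
  · obtain ⟨D, hD, hvD⟩ := Finset.mem_biUnion.1 hv
    exact Finset.mem_biUnion.2 ⟨D, hD, Finset.mem_union_left _ hvD⟩

end Pool.Agent.Lib.MP_1818ed_co
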