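import Mathlib
import Pool.Agent.Lib.MP_1818ed_co.C56.Spec

set_option autoImplicit false

namespace Pool.Agent.Lib.MP_1818ed_co

open Finset

theorem numB (h1 : ExpStmt) : NumBStmt := by
  intro a N q hq hN hq5
  have q0 : (0 : ℝ) < q := by exact_mod_cast hq
  have q1 : (1 : ℝ) ≤ q := by exact_mod_cast hq
  have hNr : (5 : ℝ) * a ≤ 3 * N := by exact_mod_cast hN
  have hqr : (5 : ℝ) * a ≤ 3 * q := by exact_mod_cast hq5
  have a0 : (0 : ℝ) ≤ a := Nat.cast_nonneg a
  set y : ℝ := 5 * a / (3 * q) with hy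
  have y0 : 0 ≤ y := by positivity
  have y1 : y ≤ 1 := by
    rw [hy, div_le_one (by positivity)]
    exact hqr
  have hyq : y * q = 5 / 3 * a := by
    rw [hy]
    field_simp
  have h2 := h1.2 y y0 y1
  have h3 : (0 : ℝ) ≤ 1 - 1 / q := by
    rw [sub_nonneg, div_le_one q0]
    exact q1
  have h4 : (1 - 1 / (q : ℝ)) ^ N ≤ Real.exp (-y) := by
    calc (1 - 1 / (q : ℝ)) ^ N ≤ (Real.exp (-(1 / (q : ℝ)))) ^ N :=
          pow_le_pow_left₀ h3 (Real.one_sub_le_exp_neg _) N
      _ = Real.exp (N * -(1 / (q : ℝ))) := (Real.exp_nat_mul _ _).symm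
      _ ≤ Real.exp (-y) := by
          refine Real.exp_le_exp.2 ?_
          have h5 : y ≤ N * (1 / (q : ℝ)) := by
            rw [hy, mul_one_div, div_le_div_iff₀ (by positivity) q0]
            nlinarith
          linarith
  have h6 : 63 / 100 * y * q ≤ (1 - (1 - 1 / (q : ℝ)) ^ N) * q :=
    mul_le_mul_of_nonneg_right (by linarith) q0.le
  have h7 : 63 / 100 * y * q = 63 / 100 * (5 / 3 * a) := by
    rw [mul_assoc, hyq]
  rw [h7] at h6
  linarith

end Pool.Agent.Lib.MP_1818ed_co
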