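import Mathlib
import Pool.Agent.Lib.MP_1818ed_co.C56.Spec2

set_option autoImplicit false

namespace Pool.Agent.Lib.MP_1818ed_co

open Finset

private theorem zeta_leD {q w : ℕ} (hq : 1 ≤ q) :
    (1 - 1 / (q : ℝ)) ^ w ≤ Real.exp (-((w : ℝ) / (q : ℝ))) := by
  have hq0 : (1 : ℝ) ≤ q := by exact_mod_cast hq
  have h1 : 1 / (q : ℝ) ≤ 1 := by
    rw [div_le_one (by linarith)]
    exact hq0
  have h2 : 1 - 1 / (q : ℝ) ≤ Real.exp (-(1 / (q : ℝ))) := by
    have := Real.add_one_le_exp (-(1 / (q : ℝ)))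
    linarith
  calc (1 - 1 / (q : ℝ)) ^ w ≤ Real.exp (-(1 / (q : ℝ))) ^ w :=
        pow_le_pow_left₀ (by linarith) h2 w
    _ = Real.exp (-((w : ℝ) / (q : ℝ))) := by
        rw [← Real.exp_nat_mul]
        congr 1
        ring

theorem numE : NumEStmt := by
  intro m aS aL s₀ w n q hqm hq hn hmn hS hL hA
  constructor <;> omega

theorem numD (h1 : ExpStmt) : NumDStmt := by
  intro m aS aL s₀ w q hqm hq hm ha hS hL hB
  have hq0 : (1 : ℝ) ≤ q := by exact_mod_cast hq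
  have e1 : (q : ℝ) = m + (aS + aL) := by exact_mod_cast hqm
  have e2 : (q : ℝ) ≤ 100 * m := by exact_mod_cast hm
  have e3 : (1000 : ℝ) * aL ≤ 786 * q := by exact_mod_cast ha
  have e4 : (5 : ℝ) * aS ≤ 3 * s₀ := by exact_mod_cast hS
  have e5 : (20000 : ℝ) * aL ≤ 10001 * w := by
    have : ((2 * 10 ^ 4 * aL : ℕ) : ℝ) ≤ (((10 ^ 4 + 1) * w : ℕ) : ℝ) := by exact_mod_cast hL
    push_cast at this
    linarith
  have e7 : (3 : ℝ) * q < 5 * (aS + aL) := by exact_mod_cast hB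
  have p1 : (0 : ℝ) ≤ m := Nat.cast_nonneg _
  have p2 : (0 : ℝ) ≤ aS := Nat.cast_nonneg _
  have p3 : (0 : ℝ) ≤ aL := Nat.cast_nonneg _
  have p4 : (0 : ℝ) ≤ s₀ := Nat.cast_nonneg _
  have p5 : (0 : ℝ) ≤ w := Nat.cast_nonneg _
  have a99 : (aS : ℝ) + aL ≤ 99 / 100 * q := by linarith
  push_cast
  have hz := zeta_leD (w := w) hq
  by_cases hc : (1 - 1 / (q : ℝ)) ^ w - (s₀ : ℝ) / (q : ℝ) ≤ 0
  · rw [max_eq_left hc]
    nlinarith
  · push Not at hc
    rw [max_eq_right hc.le]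
    set x : ℝ := 10000 * aL / (10001 * q) with hx
    have hxq : x * q = 10000 / 10001 * aL := by
      rw [hx]
      field_simp
    have hx0 : 0 ≤ x := by
      rw [hx]
      positivity
    have hx1 : x ≤ 786 / 1000 := by
      rw [hx, div_le_div_iff₀ (by linarith) (by norm_num)]
      nlinarith
    have h3 := h1.1 x hx0 hx1
    have h4 : Real.exp (-((w : ℝ) / (q : ℝ))) ≤ Real.exp (-(2 * x)) := by
      apply Real.exp_le_exp.2
      have : 2 * x ≤ (w : ℝ) / q := by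
        rw [le_div_iff₀ (by linarith), mul_assoc, hxq]
        linarith
      linarith
    have h5 : (1 - 1 / (q : ℝ)) ^ w ≤ 1 - 1007 / 1000 * x := by linarith
    have h6 : (1 - 1 / (q : ℝ)) ^ w * q ≤ (1 - 1007 / 1000 * x) * q :=
      mul_le_mul_of_nonneg_right h5 (by linarith)
    have h7 : (1 - 1007 / 1000 * x) * q = q - 1007 / 1000 * (10000 / 10001 * aL) := by
      rw [← hxq]
      ring
    have h8 : (1 - ((1 - 1 / (q : ℝ)) ^ w - (s₀ : ℝ) / (q : ℝ) + 1 / 1000)) * (q : ℝ) =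
        q - (1 - 1 / (q : ℝ)) ^ w * q + s₀ - q / 1000 := by
      field_simp
      ring
    rw [h8]
    rw [h7] at h6
    linarith

end Pool.Agent.Lib.MP_1818ed_co
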