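import Mathlib
import Pool.Agent.Lib.MP_1818ed_co.C56.Spec

/-!
# NumF: the final inequality
-/

set_option autoImplicit false

namespace Pool.Agent.Lib.MP_1818ed_co

open Finset

namespace C56NumF

theorem lim (κ : ℝ) (hκ : 0 < κ) : ∃ X : ℝ, ∀ x : ℝ, X ≤ x → (Real.log x) ^ 2 ≤ κ * |x| := by
  have h1 := (Real.isLittleO_pow_log_id_atTop (n := 2)).bound hκ
  obtain ⟨X, hX⟩ := h1.exists_forall_of_atTop
  refine ⟨X, fun x hx => ?_⟩
  have h2 := hX x hx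
  simp only [id, Real.norm_eq_abs] at h2
  rwa [abs_of_nonneg (sq_nonneg _)] at h2

theorem clog (m : ℕ) (hm : 1 ≤ m) : ∃ d : ℕ, m ≤ 2 ^ d ∧ 2 ^ d ≤ 2 * m := by
  refine ⟨Nat.clog 2 m, Nat.le_pow_clog (by norm_num) m, ?_⟩
  rcases Nat.lt_or_ge 1 m with h | h
  · have h1 : 0 < Nat.clog 2 m := Nat.clog_pos (by norm_num) h
    have h2 : 2 ^ (Nat.clog 2 m).pred < m := Nat.pow_pred_clog_lt_self (by norm_num) h
    obtain ⟨k, hk⟩ := Nat.exists_eq_succ_of_ne_zero h1.ne'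
    rw [hk] at h2 ⊢
    simp only [Nat.pred_succ] at h2
    rw [Nat.succ_eq_add_one, pow_succ]
    omega
  · have : m = 1 := by omega
    subst this
    simp

/-- `d ≤ 1 + 2 log q` -/
theorem dlog (d q : ℕ) (l : ℝ) (hl : l = Real.log (q : ℝ)) (hl1 : 1 ≤ l) (hq : 1 ≤ q)
    (hd : 2 ^ d ≤ 2 * q) : (d : ℝ) ≤ 1 + 2 * l := by
  have hqpos : (0 : ℝ) < (q : ℝ) := by exact_mod_cast hq
  have h4 : ((2 : ℝ)) ^ d ≤ 2 * (q : ℝ) := by exact_mod_cast hd
  have h5 : (d : ℝ) * Real.log 2 ≤ Real.log 2 + l := by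
    have h6 := Real.log_le_log (by positivity) h4
    rw [Real.log_pow, Real.log_mul (by norm_num) hqpos.ne', ← hl] at h6
    exact h6
  have h7 : (1 / 2 : ℝ) < Real.log 2 := by
    have := Real.log_two_gt_d9
    linarith
  have h8 : Real.log 2 < 1 := by
    have := Real.log_two_lt_d9
    linarith
  by_contra hc
  push Not at hc
  have h9 : (1 + 2 * l) * Real.log 2 < (d : ℝ) * Real.log 2 :=
    mul_lt_mul_of_pos_right hc (by linarith)
  nlinarith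

/-- the lower bound for `u ^ n`, `u = 1 - δ` -/
theorem upow (δ : ℝ) (h0 : 0 < δ) (h1 : δ ≤ 1 / 2) (n : ℕ) :
    Real.exp (-((n : ℝ) * (δ + 2 * δ ^ 2))) ≤ (1 - δ) ^ n := by
  have hu : (0 : ℝ) < 1 - δ := by linarith
  have h4 : -(δ + 2 * δ ^ 2) ≤ Real.log (1 - δ) := by
    have h5 := Real.one_sub_inv_le_log_of_pos hu
    have h6 : -(δ + 2 * δ ^ 2) ≤ 1 - (1 - δ)⁻¹ := by
      have h7 : (1 - δ)⁻¹ ≤ 1 + δ + 2 * δ ^ 2 := by
        rw [inv_eq_one_div, div_le_iff₀ hu]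
        have h8 : 0 ≤ δ ^ 2 * (1 - 2 * δ) := mul_nonneg (sq_nonneg _) (by linarith)
        nlinarith
      linarith
    linarith
  calc Real.exp (-((n : ℝ) * (δ + 2 * δ ^ 2))) ≤ Real.exp ((n : ℝ) * Real.log (1 - δ)) := by
        apply Real.exp_le_exp.2
        have h5 : (n : ℝ) * (-(δ + 2 * δ ^ 2)) ≤ (n : ℝ) * Real.log (1 - δ) :=
          mul_le_mul_of_nonneg_left h4 (Nat.cast_nonneg n)
        linarith
    _ = _ := by rw [Real.exp_nat_mul, Real.exp_log hu]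

/-- the upper bound for the power of `1 - δ θ` -/
theorem tpow (δ θ A : ℝ) (m q : ℕ) (hδ : 0 < δ) (hδ1 : δ ≤ 1) (hθ : θ ≤ 1) (hq : 1 ≤ q)
    (hA : A ≤ θ * ((q : ℝ) - 1)) :
    (1 - (1 - (1 - δ)) * θ) ^ (m * (q - 1)) ≤ Real.exp (-(δ * ((m : ℝ) * A))) := by
  have hB0 : 0 ≤ 1 - (1 - (1 - δ)) * θ := by
    have : δ * θ ≤ δ * 1 := mul_le_mul_of_nonneg_left hθ hδ.le
    nlinarith
  have hB : 1 - (1 - (1 - δ)) * θ ≤ Real.exp (-(δ * θ)) := by
    have := Real.add_one_le_exp (-(δ * θ))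
    nlinarith
  calc (1 - (1 - (1 - δ)) * θ) ^ (m * (q - 1))
      ≤ Real.exp (-(δ * θ)) ^ (m * (q - 1)) := pow_le_pow_left₀ hB0 hB _
    _ = Real.exp (((m * (q - 1) : ℕ) : ℝ) * (-(δ * θ))) := by rw [Real.exp_nat_mul]
    _ ≤ _ := by
      apply Real.exp_le_exp.2
      have h4 : ((m * (q - 1) : ℕ) : ℝ) = (m : ℝ) * ((q : ℝ) - 1) := by
        rw [Nat.cast_mul, Nat.cast_sub hq]
        simp
      rw [h4]
      have h5 : (m : ℝ) * A ≤ (m : ℝ) * (θ * ((q : ℝ) - 1)) :=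
        mul_le_mul_of_nonneg_left hA (Nat.cast_nonneg m)
      have h6 : δ * ((m : ℝ) * A) ≤ δ * ((m : ℝ) * (θ * ((q : ℝ) - 1))) :=
        mul_le_mul_of_nonneg_left h5 hδ.le
      linarith

end C56NumF

open C56NumF in
theorem numF : NumFStmt := by
  intro η c hη hη1 hc
  obtain ⟨X, hX⟩ := lim (c * η ^ 2 / 512) (by positivity)
  refine ⟨max 4 (max ⌈X⌉₊ ⌈4 / η⌉₊), ?_⟩
  intro m N a q hq hq0 ha hN4 hcm
  have hq4 : 4 ≤ q := le_trans (le_max_left _ _) hq0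
  have hqX : X ≤ (q : ℝ) := by
    have h4 : ⌈X⌉₊ ≤ q := le_trans (le_trans (le_max_left _ _) (le_max_right _ _)) hq0
    exact (Nat.le_ceil X).trans (by exact_mod_cast h4)
  have hqη : 4 / η ≤ (q : ℝ) := by
    have h4 : ⌈4 / η⌉₊ ≤ q := le_trans (le_trans (le_max_right _ _) (le_max_right _ _)) hq0
    exact (Nat.le_ceil _).trans (by exact_mod_cast h4)
  have hqη' : 4 ≤ (q : ℝ) * η := by rwa [div_le_iff₀ hη] at hqη
  have hqR : (4 : ℝ) ≤ (q : ℝ) := by exact_mod_cast hq4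
  have hqpos : (0 : ℝ) < (q : ℝ) := by linarith
  have hL := hX q hqX
  rw [abs_of_pos hqpos] at hL
  set l : ℝ := Real.log (q : ℝ) with hl
  have hl1 : 1 ≤ l := by
    rw [hl, Real.le_log_iff_exp_le hqpos]
    have := Real.exp_one_lt_d9
    linarith
  have haR : (1 : ℝ) ≤ (a : ℝ) := by exact_mod_cast ha
  have hmpos : (0 : ℝ) < (m : ℝ) := lt_of_lt_of_le (mul_pos hc hqpos) hcm
  have hm1 : 1 ≤ m := by exact_mod_cast hmpos
  obtain ⟨d, hd1, hd2⟩ := clog m hm1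
  have hN : (N : ℝ) ≤ 4 * (a : ℝ) := by exact_mod_cast hN4
  have hdl : (d : ℝ) ≤ 1 + 2 * l := dlog d q l hl hl1 (by omega) (by omega)
  have hkey : ((d : ℝ) + 1 + N) * l < (m : ℝ) * a * (η ^ 2 / 32) := by
    have h4 : (d : ℝ) + 1 + N ≤ a * (8 * l) := by nlinarith
    have h5 : 8 * l ^ 2 < (m : ℝ) * (η ^ 2 / 32) := by
      have h6 : 8 * l ^ 2 ≤ c * q * (η ^ 2 / 64) := by nlinarith
      have h7 : c * q * (η ^ 2 / 64) < c * q * (η ^ 2 / 32) := by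
        apply mul_lt_mul_of_pos_left _ (mul_pos hc hqpos)
        have : 0 < η ^ 2 := by positivity
        linarith
      have h8 : c * q * (η ^ 2 / 32) ≤ m * (η ^ 2 / 32) :=
        mul_le_mul_of_nonneg_right hcm (by positivity)
      linarith
    calc ((d : ℝ) + 1 + N) * l ≤ (a * (8 * l)) * l := mul_le_mul_of_nonneg_right h4 (by linarith)
      _ = a * (8 * l ^ 2) := by ring
      _ < a * ((m : ℝ) * (η ^ 2 / 32)) := mul_lt_mul_of_pos_left h5 (by linarith)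
      _ = _ := by ring
  set δ : ℝ := η / 8 with hδ
  have hδ0 : 0 < δ := by positivity
  have hδ2 : δ ≤ 1 / 2 := by linarith
  refine ⟨d, 1 - δ, hd1, by linarith, by linarith, ?_⟩
  intro θ hθ1 hθ
  have hθ0 : 0 ≤ θ := by
    by_contra h
    push Not at h
    have h1 : θ * q < 0 := mul_neg_of_neg_of_pos h hqpos
    nlinarith
  have hA : (1 + η / 2) * (a : ℝ) ≤ θ * ((q : ℝ) - 1) := by
    have h1 : (1 + η / 2) * (a : ℝ) * q ≤ (1 + η) * (a : ℝ) * ((q : ℝ) - 1) := by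
      have h2 : (1 + η / 2) * q ≤ (1 + η) * ((q : ℝ) - 1) := by nlinarith
      nlinarith
    have h3 : (1 + η) * (a : ℝ) * ((q : ℝ) - 1) ≤ θ * q * ((q : ℝ) - 1) :=
      mul_le_mul_of_nonneg_right hθ (by linarith)
    have h4 : (1 + η / 2) * (a : ℝ) * q ≤ θ * ((q : ℝ) - 1) * q := by linarith
    exact le_of_mul_le_mul_right h4 hqpos
  have e1 : (q : ℝ) ^ (d + 1) * (q : ℝ) ^ N = Real.exp (((d : ℝ) + 1 + N) * l) := by
    rw [← pow_add]
    have : ((d : ℝ) + 1 + N) = ((d + 1 + N : ℕ) : ℝ) := by push_cast; ring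
    rw [this, Real.exp_nat_mul, hl, Real.exp_log hqpos]
  have e2 := tpow δ θ ((1 + η / 2) * (a : ℝ)) m q hδ0 (by linarith) hθ1 (by omega) hA
  have e3 := upow δ hδ0 hδ2 (m * a)
  have hη8 : η = 8 * δ := by rw [hδ]; ring
  calc (q : ℝ) ^ (d + 1) * (q : ℝ) ^ N * (1 - (1 - (1 - δ)) * θ) ^ (m * (q - 1))
      ≤ Real.exp (((d : ℝ) + 1 + N) * l) *
          Real.exp (-(δ * ((m : ℝ) * ((1 + η / 2) * (a : ℝ))))) := by
        rw [e1]
        exact mul_le_mul_of_nonneg_left e2 (Real.exp_pos _).le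
    _ = Real.exp (((d : ℝ) + 1 + N) * l + -(δ * ((m : ℝ) * ((1 + η / 2) * (a : ℝ))))) := by
        rw [← Real.exp_add]
    _ < Real.exp (-(((m * a : ℕ) : ℝ) * (δ + 2 * δ ^ 2))) := by
        apply Real.exp_lt_exp.2
        rw [Nat.cast_mul]
        rw [hη8] at hkey ⊢
        nlinarith
    _ ≤ _ := e3

end Pool.Agent.Lib.MP_1818ed_co
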