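import Mathlib
import Pool.Agent.Lib.MP_1818ed_co.C56.Spec

/-!
# Tutte's theorem for the graph induced on a finite set
-/

set_option autoImplicit false

namespace Pool.Agent.Lib.MP_1818ed_co

open Finset

namespace C56Tut

open Classical in
theorem match_of {V : Type} {H : SimpleGraph V} {T : Finset V}
    {M : (H.comap (Subtype.val : {v // v ∈ T} → V)).Subgraph} (hM : M.IsPerfectMatching) :
    PMatch H T := by
  rw [SimpleGraph.Subgraph.isPerfectMatching_iff] at hM
  choose g hg hu using hM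
  have hg' : ∀ x, M.Adj x (g x) := hg
  have hu' : ∀ x y, M.Adj x y → y = g x := hu
  have hgg : ∀ x, g (g x) = x := fun x => (hu' (g x) x (hg' x).symm).symm
  refine ⟨fun v => if h : v ∈ T then (g ⟨v, h⟩).1 else v, fun v hv => ?_⟩
  simp only [dif_pos hv]
  refine ⟨(g ⟨v, hv⟩).2, ?_, ?_⟩
  · rw [dif_pos (g ⟨v, hv⟩).2]
    have h1 : (⟨(g ⟨v, hv⟩).1, (g ⟨v, hv⟩).2⟩ : {v // v ∈ T}) = g ⟨v, hv⟩ := rfl
    rw [h1, hgg]
  · exact M.adj_sub (hg' ⟨v, hv⟩)

open Classical in
theorem part_of {V : Type} [Fintype V] {H : SimpleGraph V} {T : Finset V}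
    {u : Set {v // v ∈ T}}
    (hu : (H.comap (Subtype.val : {v // v ∈ T} → V)).IsTutteViolator u) :
    ∃ (B : Finset V) (P : Finset (Finset V)), B ⊆ T ∧ PartN H (T \ B) P ∧
      B.card < (P.filter (fun D => Odd D.card)).card := by
  obtain ⟨K, hK⟩ : ∃ K, K = H.comap (Subtype.val : {v // v ∈ T} → V) := ⟨_, rfl⟩
  have hKadj : ∀ x y : {v // v ∈ T}, K.Adj x y ↔ H.Adj x.1 y.1 := by
    intro x y
    rw [hK]
    rfl
  rw [← hK] at hu
  obtain ⟨S, hS⟩ : ∃ S, S = (⊤ : K.Subgraph).deleteVerts u := ⟨_, rfl⟩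
  have hv : ∀ x, x ∈ S.verts ↔ x ∉ u := by
    intro x
    rw [hS]
    simp
  have hadj : ∀ x y : S.verts, S.coe.Adj x y ↔ H.Adj x.1.1 y.1.1 := by
    intro x y
    rw [SimpleGraph.Subgraph.coe_adj, ← hKadj]
    have hx := (hv x.1).1 x.2
    have hy := (hv y.1).1 y.2
    subst hS
    rw [SimpleGraph.Subgraph.deleteVerts_adj]
    simp [hx, hy]
  have hu2 : u.ncard < S.coe.oddComponents.ncard := by
    rw [hS]
    exact hu
  have hfin : Finite S.coe.ConnectedComponent := inferInstance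
  have : Fintype S.coe.ConnectedComponent := Fintype.ofFinite _
  obtain ⟨img, himg⟩ : ∃ img : S.coe.ConnectedComponent → Finset V,
      ∀ c v, v ∈ img c ↔ ∃ w ∈ c.supp, w.1.1 = v :=
    ⟨fun c => univ.filter fun v => ∃ w ∈ c.supp, w.1.1 = v, fun c v => by simp⟩
  have hinj2 : Function.Injective (fun w : S.verts => w.1.1) := by
    intro x y h
    exact Subtype.ext (Subtype.ext h)
  have hcoe : ∀ c, (img c : Set V) = (fun w : S.verts => w.1.1) '' c.supp := by
    intro c
    ext v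
    rw [Finset.mem_coe, himg]
    rfl
  have hcard : ∀ c, (img c).card = c.supp.ncard := by
    intro c
    rw [← Set.ncard_coe_finset, hcoe, Set.ncard_image_of_injective _ hinj2]
  have himgne : ∀ c, (img c).Nonempty := by
    intro c
    obtain ⟨w, hw⟩ := c.nonempty_supp
    exact ⟨w.1.1, (himg c _).2 ⟨w, hw, rfl⟩⟩
  have hinj : Function.Injective img := by
    intro c e h
    obtain ⟨v, hv1⟩ := himgne c
    have hv2 := hv1
    rw [h] at hv2
    obtain ⟨x, hx, hx'⟩ := (himg c v).1 hv1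
    obtain ⟨y, hy, hy'⟩ := (himg e v).1 hv2
    have hxy : x = y := hinj2 (hx'.trans hy'.symm)
    rw [SimpleGraph.ConnectedComponent.mem_supp_iff] at hx hy
    rw [← hx, ← hy, hxy]
  refine ⟨univ.filter fun v => ∃ x ∈ u, x.1 = v, univ.image img, ?_, ⟨?_, ?_, ?_⟩, ?_⟩
  · intro v hv1
    obtain ⟨x, _, rfl⟩ := (Finset.mem_filter.1 hv1).2
    exact x.2
  · intro D hD
    obtain ⟨c, _, rfl⟩ := Finset.mem_image.1 hD
    exact himgne c
  · intro v
    rw [Finset.mem_sdiff, Finset.mem_filter]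
    constructor
    · rintro ⟨h1, h2⟩
      have h3 : (⟨v, h1⟩ : {v // v ∈ T}) ∈ S.verts := by
        rw [hv]
        intro h4
        exact h2 ⟨Finset.mem_univ v, _, h4, rfl⟩
      refine ⟨img (S.coe.connectedComponentMk ⟨_, h3⟩), Finset.mem_image_of_mem _
        (Finset.mem_univ _), ?_⟩
      exact (himg _ _).2 ⟨⟨_, h3⟩, rfl, rfl⟩
    · rintro ⟨D, hD, hvD⟩
      obtain ⟨c, _, rfl⟩ := Finset.mem_image.1 hD
      obtain ⟨w, _, rfl⟩ := (himg c v).1 hvD
      refine ⟨w.1.2, ?_⟩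
      rintro ⟨_, x, hx, hxw⟩
      have h1 : x = w.1 := Subtype.ext hxw
      rw [h1] at hx
      exact (hv w.1).1 w.2 hx
  · intro D hD E hE hDE v hvD w hwE
    obtain ⟨c, _, rfl⟩ := Finset.mem_image.1 hD
    obtain ⟨e, _, rfl⟩ := Finset.mem_image.1 hE
    obtain ⟨x, hx, rfl⟩ := (himg c v).1 hvD
    obtain ⟨y, hy, rfl⟩ := (himg e w).1 hwE
    rw [SimpleGraph.ConnectedComponent.mem_supp_iff] at hx hy
    refine ⟨fun h => hDE ?_, fun h => hDE ?_⟩
    · have hxy : x = y := hinj2 h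
      rw [← hx, ← hy, hxy]
    · have h1 : S.coe.Adj x y := (hadj x y).2 h
      have h2 : S.coe.connectedComponentMk x = S.coe.connectedComponentMk y :=
        SimpleGraph.ConnectedComponent.sound h1.reachable
      rw [← hx, ← hy, h2]
  · have e1 : (univ.filter fun v => ∃ x ∈ u, x.1 = v : Finset V).card = u.ncard := by
      rw [← Set.ncard_coe_finset]
      have e2 : ((univ.filter fun v => ∃ x ∈ u, x.1 = v : Finset V) : Set V) = Subtype.val '' u := by
        ext v
        simp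
      rw [e2, Set.ncard_image_of_injective _ Subtype.val_injective]
    rw [e1]
    refine lt_of_lt_of_le hu2 ?_
    rw [Set.ncard_eq_toFinset_card', ← Finset.card_image_of_injective _ hinj]
    refine Finset.card_le_card fun D hD => ?_
    obtain ⟨c, hc, rfl⟩ := Finset.mem_image.1 hD
    rw [Finset.mem_filter]
    refine ⟨Finset.mem_image_of_mem _ (Finset.mem_univ _), ?_⟩
    rw [hcard]
    exact (Set.mem_toFinset (s := S.coe.oddComponents)).1 hc

end C56Tut

theorem tut : TutStmt := by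
  classical
  intro V _ H T
  by_cases h : ∃ M : (H.comap (Subtype.val : {v // v ∈ T} → V)).Subgraph, M.IsPerfectMatching
  · obtain ⟨M, hM⟩ := h
    exact Or.inl (C56Tut.match_of hM)
  · right
    rw [SimpleGraph.tutte] at h
    push Not at h
    obtain ⟨u, hu⟩ := h
    exact C56Tut.part_of hu

end Pool.Agent.Lib.MP_1818ed_co
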