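import Mathlib
import Pool.Agent.Lib.MP_1818ed_co.C56.Spec
import Pool.Agent.Lib.MP_1818ed_co.Main45

set_option autoImplicit false

namespace Pool.Agent.Lib.MP_1818ed_co

open Finset

/-- the two bounds for a partial strategy -/
private lemma frac_bound {X : Type} [Fintype X] [DecidableEq X] (q : ℕ) [NeZero q] (t : ℝ)
    (P : (X → ZMod q) → Prop) [DecidablePred P]
    (h : ((univ.filter (fun y : X → ZMod q => ¬ P y)).card : ℝ) ≤
      (q : ℝ) ^ (Fintype.card X) * t) :
    1 - t ≤ ((univ.filter P).card : ℝ) / (q : ℝ) ^ (Fintype.card X) ∧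
      ((univ.filter P).card : ℝ) / (q : ℝ) ^ (Fintype.card X) ≤ 1 := by
  have hq : (0 : ℝ) < (q : ℝ) := by
    have := NeZero.pos q
    exact_mod_cast this
  have hqq : (0 : ℝ) < (q : ℝ) ^ (Fintype.card X) := pow_pos hq _
  have h1 := Finset.card_filter_add_card_filter_not (s := (univ : Finset (X → ZMod q))) P
  rw [Finset.card_univ, Fintype.card_fun, ZMod.card] at h1
  have h2 : ((univ.filter P).card : ℝ) + ((univ.filter (fun y => ¬ P y)).card : ℝ) =
      (q : ℝ) ^ (Fintype.card X) := by exact_mod_cast h1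
  constructor
  · rw [le_div_iff₀ hqq]
    nlinarith
  · rw [div_le_one hqq]
    have : (0 : ℝ) ≤ ((univ.filter (fun y => ¬ P y)).card : ℝ) := Nat.cast_nonneg _
    linarith

private lemma sub_card {V : Type} [DecidableEq V] (S W : Finset V) :
    (univ.filter (fun x : {v // v ∈ S ∪ W} => x.1 ∈ S)).card = S.card := by
  have h1 : (univ.filter (fun x : {v // v ∈ S ∪ W} => x.1 ∈ S)).card = S.card := by
    apply Finset.card_bij (fun (x : {v // v ∈ S ∪ W}) _ => x.1)
    · intro x hx
      exact (Finset.mem_filter.1 hx).2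
    · intro x _ y _ hxy
      exact Subtype.ext hxy
    · intro v hv
      exact ⟨⟨v, Finset.mem_union_left _ hv⟩, by simp [hv], rfl⟩
  exact h1

private lemma compl_card' {X : Type} [Fintype X] (D : DecidableEq X) (S : Finset X) (n m : ℕ)
    (h : S.card = n) (hX : Fintype.card X = n + m) : (Sᶜ).card = m := by
  rw [Finset.card_compl, h, hX, Nat.add_sub_cancel_left]

/-- Win from the other statements -/
theorem winC (h1 : ColorsStmt) (h2 : GraphStmt) (h3 : HelperStmt) (h4 : DenseStmt)
    (h5 : BookStmt) (h6 : CovStmt) (h7 : Bk2Stmt) (h8 : NumFStmt) (h9 : NumBStmt)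
    (h10 : NumCStmt) : WinStmt := by
  classical
  obtain ⟨n₁, hn₁⟩ := h4 (10 ^ 4) 1000 (by norm_num)
  obtain ⟨q₁, hq₁⟩ := h6 (1 / 1000) (10 ^ 4) (by norm_num)
  obtain ⟨q₂, hq₂⟩ := h8 (1 / 500) (1 / 100) (by norm_num) (by norm_num) (by norm_num)
  refine ⟨max n₁ (max q₁ q₂), ?_⟩
  intro V _ G U S W q aS aL n _ hq hUS hUW hSW hU hSWa hnd hqe haS haL1 haL2 hn hqn
  have hqn1 : n₁ ≤ q := (le_max_left _ _).trans hq
  have hqq1 : q₁ ≤ q := ((le_max_left _ _).trans (le_max_right _ _)).trans hq
  have hqq2 : q₂ ≤ q := ((le_max_right _ _).trans (le_max_right _ _)).trans hq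
  have hq0 : 0 < q := NeZero.pos q
  have hqR : (0 : ℝ) < (q : ℝ) := by exact_mod_cast hq0
  have hcard : (S ∪ W).card = S.card + W.card := Finset.card_union_of_disjoint hSW
  -- (0)
  rcases Nat.eq_zero_or_pos (aS + aL) with ha0 | ha0
  · refine main45_clique h2 h3 G U q (by omega) ?_
    intro u hu v hv hvu
    exact hU u hu v (Or.inl hv) hvu
  by_cases hA : 1000 * q ≤ 999 * (U.card + S.card)
  · -- (A)
    have hcX : Fintype.card {v // v ∈ U ∪ S} = U.card + S.card := by
      rw [Fintype.card_coe, Finset.card_union_of_disjoint hUS]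
    have hw : Win (G.comap (fun u : {v // v ∈ U ∪ S} => u.1)) (Fin q) := by
      apply hn₁ {v // v ∈ U ∪ S} (G.comap (fun u : {v // v ∈ U ∪ S} => u.1)) ?_ ?_ q hq0 ?_
      · intro v
        rcases Finset.mem_union.1 v.2 with hv | hv
        · have h11 : {u : {v // v ∈ U ∪ S} | u ≠ v ∧
              ¬ (G.comap (fun u : {v // v ∈ U ∪ S} => u.1)).Adj v u} = ∅ := by
            rw [Set.eq_empty_iff_forall_notMem]
            rintro u ⟨hu1, hu2⟩
            apply hu2
            refine hU v.1 hv u.1 ?_ fun h => hu1 (Subtype.ext h)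
            rcases Finset.mem_union.1 u.2 with h | h
            · exact Or.inl h
            · exact Or.inr (Or.inl h)
          rw [h11, Set.ncard_empty]
          exact Nat.zero_le _
        · refine le_trans ?_ (hnd v.1 hv)
          refine Set.ncard_le_ncard_of_injOn (fun u : {v // v ∈ U ∪ S} => u.1) ?_ ?_
            (ht := S.finite_toSet.subset fun x hx => hx.1)
          · rintro u ⟨hu1, hu2⟩
            refine ⟨?_, fun h => hu1 (Subtype.ext h), hu2⟩
            rcases Finset.mem_union.1 u.2 with h | h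
            · exfalso
              apply hu2
              exact (hU u.1 h v.1 (Or.inr (Or.inl hv)) fun h => hu1 (Subtype.ext h.symm)).symm
            · exact h
          · intro a _ b _ hab
            exact Subtype.ext hab
      · rw [hcX]
        omega
      · rw [hcX]
        omega
    have e : ZMod q ≃ Fin q := Fintype.equivOfCardEq (by rw [Fintype.card_fin, ZMod.card])
    have hw' := h1 {v // v ∈ U ∪ S} (Fin q) (ZMod q) _ e ⟨0⟩ e.injective hw
    exact h2 V {v // v ∈ U ∪ S} (ZMod q) G _ (fun u => u.1) ⟨0⟩ Subtype.val_injective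
      (fun a b hab => hab) hw'
  push Not at hA
  have hspine : Spine G U (S ∪ W) := by
    intro u hu v hv hvu
    refine hU u hu v ?_ hvu
    rcases hv with h | h
    · exact Or.inl h
    · exact Or.inr (Finset.mem_union.1 h)
  have hdis : Disjoint U (S ∪ W) := Finset.disjoint_union_right.2 ⟨hUS, hUW⟩
  by_cases hB : 5 * (aS + aL) ≤ 3 * q
  · -- (B)
    obtain ⟨W', hW', hWc⟩ := Finset.exists_subset_card_eq (min_le_left (S ∪ W).card (2 * (aS + aL)))
    have hN1 : W'.card ≤ 2 * (aS + aL) := by rw [hWc]; exact min_le_right _ _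
    have hN2 : 5 * (aS + aL) ≤ 3 * W'.card := by
      rw [hWc]
      rcases le_total (S ∪ W).card (2 * (aS + aL)) with h | h
      · rw [min_eq_left h]; omega
      · rw [min_eq_right h]; omega
    have hm : (1 / 100 : ℝ) * (q : ℝ) ≤ (U.card : ℝ) := by
      have h11 : q ≤ 100 * U.card := by omega
      have h12 : (q : ℝ) ≤ 100 * (U.card : ℝ) := by exact_mod_cast h11
      linarith
    have hb := h9 (aS + aL) W'.card q hq0 hN2 hB
    obtain ⟨d, u, hd, hu0, hu1, hθ⟩ := hq₂ U.card W'.card (aS + aL) q hqe hqq2 ha0 (by omega) hm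
    have hpos : 0 ≤ (1 - 1 / (q : ℝ)) ^ W'.card := by
      apply pow_nonneg
      rw [sub_nonneg, div_le_one hqR]
      exact_mod_cast hq0
    have hlt := hθ (1 - (1 - 1 / (q : ℝ)) ^ W'.card) (by linarith) hb
    refine h5 V G U W' q (aS + aL) d u (Finset.disjoint_of_subset_right hW' hdis) ?_ hqe hd hu0
      hu1 hlt
    intro x hx v hv hvx
    exact hspine x hx v (hv.imp id fun h => hW' h) hvx
  · -- (C)
    push Not at hB
    obtain ⟨hm, hsw, hs2, hc⟩ := h10 U.card aS aL S.card W.card n q hqe hq0 hqn hn haS haL2 hA hB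
    have hc1 := sub_card S W
    set X := {v // v ∈ S ∪ W} with hX
    set S' : Finset X := univ.filter (fun x : X => x.1 ∈ S) with hS'
    have hcX : Fintype.card X = (S ∪ W).card := Fintype.card_coe _
    obtain ⟨F, hF1, hF2⟩ := hq₁ X (G.comap (fun u : X => u.1)) S' q hqq1 (by rw [hc1]; exact hs2)
      (by
        intro v hv w hw
        have hv' : v.1 ∈ S := (Finset.mem_filter.1 hv).2
        have hw' : w.1 ∉ S := fun h => hw (Finset.mem_filter.2 ⟨Finset.mem_univ _, h⟩)
        exact hSWa v.1 hv' w.1 ((Finset.mem_union.1 w.2).resolve_left hw'))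
      (by
        intro v hv
        have hv' : v.1 ∈ S := (Finset.mem_filter.1 hv).2
        refine le_trans ?_ (hnd v.1 hv')
        rw [← Set.ncard_coe_finset]
        refine Set.ncard_le_ncard_of_injOn (fun u : X => u.1) ?_ ?_
          (ht := S.finite_toSet.subset fun x hx => hx.1)
        · intro u hu
          have hu' := (@Finset.mem_filter _ _ (_) _ _).1 (Finset.mem_coe.1 hu)
          exact ⟨(Finset.mem_filter.1 hu'.1).2, fun h => hu'.2.1 (Subtype.ext h), hu'.2.2⟩
        · intro a _ b _ hab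
          exact Subtype.ext hab)
    have hfail : ((univ.filter (fun y : X → ZMod q => ¬ ∃ w, F w y = y w)).card : ℝ) ≤
        (q : ℝ) ^ (Fintype.card X) *
          (max 0 ((1 - 1 / (q : ℝ)) ^ W.card - (S.card : ℝ) / (q : ℝ)) + 1 / 1000) := by
      rw [compl_card' _ S' _ _ hc1 (hcX.trans hcard), hc1] at hF2
      refine le_trans (le_of_eq ?_) hF2
      congr 2
      ext y
      simp
    obtain ⟨ht1, ht2⟩ := frac_bound q _ _ hfail
    obtain ⟨d, u, hd, hu0, hu1, hθ⟩ := hq₂ U.card (S ∪ W).card (aS + aL) q hqe hqq2 ha0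
      (by omega) hm
    have hlt := hθ _ ht2 (hc.trans (mul_le_mul_of_nonneg_right ht1 hqR.le))
    refine h7 V G U (S ∪ W) q (aS + aL) d u F
      (univ.filter (fun y : X → ZMod q => ∃ w, F w y = y w)) hdis hspine hqe hd hu0 hu1 ?_ ?_ ?_
    · intro w c c' hcc
      exact hF1 w c c' fun x hx => hcc x hx
    · intro y hy
      exact (Finset.mem_filter.1 hy).2
    · rw [hcX] at hlt
      convert hlt using 5

end Pool.Agent.Lib.MP_1818ed_co
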