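import Mathlib
import Pool.Agent.Lib.MP_1818ed_co.C56.Spec2
import Pool.Agent.Lib.MP_1818ed_co.Main45

set_option autoImplicit false

namespace Pool.Agent.Lib.MP_1818ed_co

open Finset

/-- the two bounds for a partial strategy -/
private lemma frac_boundJ {X : Type} [Fintype X] [DecidableEq X] (q : ℕ) [NeZero q] (t : ℝ)
    (P : (X → ZMod q) → Prop) [DecidablePred P]
    (h : ((univ.filter (fun y : X → ZMod q => ¬ P y)).card : ℝ) ≤
      (q : ℝ) ^ (Fintype.card X) * t) :
    1 - t ≤ ((univ.filter P).card : ℝ) / (q : ℝ) ^ (Fintype.card X) ∧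
      ((univ.filter P).card : ℝ) / (q : ℝ) ^ (Fintype.card X) ≤ 1 := by
  have hq : (0 : ℝ) < (q : ℝ) := by
    have := NeZero.pos q
    exact_mod_cast this
  have hqq : (0 : ℝ) < (q : ℝ) ^ (Fintype.card X) := pow_pos hq _
  have h1 := Finset.card_filter_add_card_filter_not (s := (univ : Finset (X → ZMod q))) P
  rw [Finset.card_univ, Fintype.card_fun, ZMod.card] at h1
  have h2 : ((univ.filter P).card : ℝ) + ((univ.filter (fun y => ¬ P y)).card : ℝ) =
      (q : ℝ) ^ (Fintype.card X) := by exact_mod_cast h1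
  constructor
  · rw [le_div_iff₀ hqq]
    nlinarith
  · rw [div_le_one hqq]
    have : (0 : ℝ) ≤ ((univ.filter (fun y => ¬ P y)).card : ℝ) := Nat.cast_nonneg _
    linarith

private lemma sub_cardJ {V : Type} [DecidableEq V] (S W : Finset V) :
    (univ.filter (fun x : {v // v ∈ S ∪ W} => x.1 ∈ S)).card = S.card := by
  apply Finset.card_bij (fun (x : {v // v ∈ S ∪ W}) _ => x.1)
  · intro x hx
    exact (Finset.mem_filter.1 hx).2
  · intro x _ y _ hxy
    exact Subtype.ext hxy
  · intro v hv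
    exact ⟨⟨v, Finset.mem_union_left _ hv⟩, by simp [hv], rfl⟩

private lemma compl_cardJ {X : Type} [Fintype X] (D : DecidableEq X) (S : Finset X) (n m : ℕ)
    (h : S.card = n) (hX : Fintype.card X = n + m) : (Sᶜ).card = m := by
  rw [Finset.card_compl, h, hX, Nat.add_sub_cancel_left]

/-- dense graphs -/
theorem winA (h1 : ColorsStmt) (h2 : GraphStmt) (h4 : DenseStmt) : WinAStmt := by
  classical
  obtain ⟨n₁, hn₁⟩ := h4 (10 ^ 4) 1000 (by norm_num)
  refine ⟨n₁, ?_⟩
  intro V _ G U S q _ hq hUS hU hnd hA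
  have hq0 : 0 < q := NeZero.pos q
  have hcX : Fintype.card {v // v ∈ U ∪ S} = U.card + S.card := by
    rw [Fintype.card_coe, Finset.card_union_of_disjoint hUS]
  have hw : Win (G.comap (fun u : {v // v ∈ U ∪ S} => u.1)) (Fin q) := by
    apply hn₁ {v // v ∈ U ∪ S} (G.comap (fun u : {v // v ∈ U ∪ S} => u.1)) ?_ ?_ q hq0 ?_
    · intro v
      rcases Finset.mem_union.1 v.2 with hv | hv
      · have h11 : {u : {v // v ∈ U ∪ S} | u ≠ v ∧
            ¬ (G.comap (fun u : {v // v ∈ U ∪ S} => u.1)).Adj v u} = ∅ := by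
          rw [Set.eq_empty_iff_forall_notMem]
          rintro u ⟨hu1, hu2⟩
          apply hu2
          refine hU v.1 hv u.1 ?_ fun h => hu1 (Subtype.ext h)
          rcases Finset.mem_union.1 u.2 with h | h
          · exact Or.inl h
          · exact Or.inr h
        rw [h11, Set.ncard_empty]
        exact Nat.zero_le _
      · refine le_trans ?_ (hnd v.1 hv)
        refine Set.ncard_le_ncard_of_injOn (fun u : {v // v ∈ U ∪ S} => u.1) ?_ ?_
          (ht := S.finite_toSet.subset fun x hx => hx.1)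
        · rintro u ⟨hu1, hu2⟩
          refine ⟨?_, fun h => hu1 (Subtype.ext h), hu2⟩
          rcases Finset.mem_union.1 u.2 with h | h
          · exfalso
            apply hu2
            exact (hU u.1 h v.1 (Or.inr hv) fun h => hu1 (Subtype.ext h.symm)).symm
          · exact h
        · intro a _ b _ hab
          exact Subtype.ext hab
    · rw [hcX]
      omega
    · rw [hcX]
      omega
  have e : ZMod q ≃ Fin q := Fintype.equivOfCardEq (by rw [Fintype.card_fin, ZMod.card])
  have hw' := h1 {v // v ∈ U ∪ S} (Fin q) (ZMod q) _ e ⟨0⟩ e.injective hw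
  exact h2 V {v // v ∈ U ∪ S} (ZMod q) G _ (fun u => u.1) ⟨0⟩ Subtype.val_injective
    (fun a b hab => hab) hw'

/-- the main case -/
theorem winJ (h2 : GraphStmt) (h3 : HelperStmt)
    (h5 : BookStmt) (h6 : CovStmt) (h7 : Bk2Stmt) (h8 : NumFStmt) (h9 : NumBStmt)
    (h10 : NumDStmt) : WinJStmt := by
  classical
  obtain ⟨q₁, hq₁⟩ := h6 (1 / 1000) (10 ^ 4) (by norm_num)
  obtain ⟨q₂, hq₂⟩ := h8 (1 / 500) (1 / 100) (by norm_num) (by norm_num) (by norm_num)
  refine ⟨max q₁ q₂, ?_⟩
  intro V _ G U S₀ W₀ q aS aL _ hq hUS₀ hUW₀ hSW₀ hU₀ hSWa₀ hnd₀ hqe haS₀ haL₀ haL₀' hm0 haq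
  have hqq1 : q₁ ≤ q := (le_max_left _ _).trans hq
  have hqq2 : q₂ ≤ q := (le_max_right _ _).trans hq
  have hq0 : 0 < q := NeZero.pos q
  have hqR : (0 : ℝ) < (q : ℝ) := by exact_mod_cast hq0
  -- (0)
  rcases Nat.eq_zero_or_pos (aS + aL) with ha0 | ha0
  · refine main45_clique h2 h3 G U q (by omega) ?_
    intro u hu v hv hvu
    exact hU₀ u hu v (Or.inl hv) hvu
  -- smaller sets
  obtain ⟨S, hS', hSc⟩ := Finset.exists_subset_card_eq (min_le_left S₀.card (2 * aS))
  obtain ⟨W, hW', hWc⟩ := Finset.exists_subset_card_eq (min_le_left W₀.card (2 * aL))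
  have hS2 : S.card ≤ 2 * aS := by rw [hSc]; exact min_le_right _ _
  have hW2 : W.card ≤ 2 * aL := by rw [hWc]; exact min_le_right _ _
  have haS : 5 * aS ≤ 3 * S.card := by
    rw [hSc]
    rcases le_total S₀.card (2 * aS) with h | h
    · rw [min_eq_left h]; omega
    · rw [min_eq_right h]; omega
  have haL1 : 5 * aL ≤ 3 * W.card := by
    rw [hWc]
    rcases le_total W₀.card (2 * aL) with h | h
    · rw [min_eq_left h]; omega
    · rw [min_eq_right h]; omega
  have haL2 : 2 * 10 ^ 4 * aL ≤ (10 ^ 4 + 1) * W.card := by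
    rw [hWc]
    rcases le_total W₀.card (2 * aL) with h | h
    · rw [min_eq_left h]; omega
    · rw [min_eq_right h]; omega
  have hUS : Disjoint U S := Finset.disjoint_of_subset_right hS' hUS₀
  have hUW : Disjoint U W := Finset.disjoint_of_subset_right hW' hUW₀
  have hSW : Disjoint S W :=
    Finset.disjoint_of_subset_right hW' (Finset.disjoint_of_subset_left hS' hSW₀)
  have hU : ∀ u ∈ U, ∀ v, (v ∈ U ∨ v ∈ S ∨ v ∈ W) → v ≠ u → G.Adj u v := by
    intro u hu v hv hvu
    refine hU₀ u hu v ?_ hvu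
    rcases hv with h | h | h
    · exact Or.inl h
    · exact Or.inr (Or.inl (hS' h))
    · exact Or.inr (Or.inr (hW' h))
  have hSWa : ∀ s ∈ S, ∀ w ∈ W, G.Adj s w := fun s hs w hw => hSWa₀ s (hS' hs) w (hW' hw)
  have hnd : ∀ s ∈ S, {t | t ∈ S ∧ t ≠ s ∧ ¬ G.Adj s t}.ncard ≤ 10 ^ 4 := by
    intro s hs
    refine le_trans (Set.ncard_le_ncard ?_ (S₀.finite_toSet.subset fun x hx => hx.1))
      (hnd₀ s (hS' hs))
    rintro t ⟨ht1, ht2⟩
    exact ⟨hS' ht1, ht2⟩
  have hcard : (S ∪ W).card = S.card + W.card := Finset.card_union_of_disjoint hSW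
  have hspine : Spine G U (S ∪ W) := by
    intro u hu v hv hvu
    refine hU u hu v ?_ hvu
    rcases hv with h | h
    · exact Or.inl h
    · exact Or.inr (Finset.mem_union.1 h)
  have hdis : Disjoint U (S ∪ W) := Finset.disjoint_union_right.2 ⟨hUS, hUW⟩
  have hm : (1 / 100 : ℝ) * (q : ℝ) ≤ (U.card : ℝ) := by
    have h12 : (q : ℝ) ≤ 100 * (U.card : ℝ) := by exact_mod_cast hm0
    linarith
  obtain ⟨d, u, hd, hu0, hu1, hθ⟩ := hq₂ U.card (S ∪ W).card (aS + aL) q hqe hqq2 ha0
    (by omega) hm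
  by_cases hB : 5 * (aS + aL) ≤ 3 * q
  · -- (B)
    have hb := h9 (aS + aL) (S ∪ W).card q hq0 (by omega) hB
    have hpos : 0 ≤ (1 - 1 / (q : ℝ)) ^ (S ∪ W).card := by
      apply pow_nonneg
      rw [sub_nonneg, div_le_one hqR]
      exact_mod_cast hq0
    have hlt := hθ (1 - (1 - 1 / (q : ℝ)) ^ (S ∪ W).card) (by linarith) hb
    exact h5 V G U (S ∪ W) q (aS + aL) d u hdis hspine hqe hd hu0 hu1 hlt
  · -- (C)
    push Not at hB
    have hs2 : S.card ≤ 2 * q := by omega
    have hc := h10 U.card aS aL S.card W.card q hqe hq0 hm0 haq haS haL2 hB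
    have hc1 := sub_cardJ S W
    set X := {v // v ∈ S ∪ W} with hX
    set S' : Finset X := univ.filter (fun x : X => x.1 ∈ S) with hS'
    have hcX : Fintype.card X = (S ∪ W).card := Fintype.card_coe _
    obtain ⟨F, hF1, hF2⟩ := hq₁ X (G.comap (fun u : X => u.1)) S' q hqq1 (by rw [hc1]; exact hs2)
      (by
        intro v hv w hw
        have hv' : v.1 ∈ S := (Finset.mem_filter.1 hv).2
        have hw' : w.1 ∉ S := fun h => hw (Finset.mem_filter.2 ⟨Finset.mem_univ _, h⟩)
        exact hSWa v.1 hv' w.1 ((Finset.mem_union.1 w.2).resolve_left hw'))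
      (by
        intro v hv
        have hv' : v.1 ∈ S := (Finset.mem_filter.1 hv).2
        refine le_trans ?_ (hnd v.1 hv')
        rw [← Set.ncard_coe_finset]
        refine Set.ncard_le_ncard_of_injOn (fun u : X => u.1) ?_ ?_
          (ht := S.finite_toSet.subset fun x hx => hx.1)
        · intro u hu
          have hu' := (@Finset.mem_filter _ _ (_) _ _).1 (Finset.mem_coe.1 hu)
          exact ⟨(Finset.mem_filter.1 hu'.1).2, fun h => hu'.2.1 (Subtype.ext h), hu'.2.2⟩
        · intro a _ b _ hab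
          exact Subtype.ext hab)
    have hfail : ((univ.filter (fun y : X → ZMod q => ¬ ∃ w, F w y = y w)).card : ℝ) ≤
        (q : ℝ) ^ (Fintype.card X) *
          (max 0 ((1 - 1 / (q : ℝ)) ^ W.card - (S.card : ℝ) / (q : ℝ)) + 1 / 1000) := by
      rw [compl_cardJ _ S' _ _ hc1 (hcX.trans hcard), hc1] at hF2
      refine le_trans (le_of_eq ?_) hF2
      congr 2
      ext y
      simp
    obtain ⟨ht1, ht2⟩ := frac_boundJ q _ _ hfail
    have hlt := hθ _ ht2 (hc.trans (mul_le_mul_of_nonneg_right ht1 hqR.le))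
    refine h7 V G U (S ∪ W) q (aS + aL) d u F
      (univ.filter (fun y : X → ZMod q => ∃ w, F w y = y w)) hdis hspine hqe hd hu0 hu1 ?_ ?_ ?_
    · intro w c c' hcc
      exact hF1 w c c' fun x hx => hcc x hx
    · intro y hy
      exact (Finset.mem_filter.1 hy).2
    · rw [hcX] at hlt
      convert hlt using 5

end Pool.Agent.Lib.MP_1818ed_co
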